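import Pool.Agent.Helper57.HL.Dv

/-!
# HL-SP: from the second moments at `1/2 + jx/L` to the line and to the derivative
-/

open MeasureTheory Set Filter Topology Complex
open Pool.Agent.Helper57.Zeta Pool.Agent.Helper57.LH Pool.Agent.Helper57.ED

namespace Pool.Agent.Helper57.HL

/-- the second moment on the line `σ` (Mellin side) -/
noncomputable def Fs (X : ℕ) (a : ℕ → ℝ) (l τ σ : ℝ) : ℝ :=
  2 * (l + σ) * ∫ u in Ioi (0:ℝ), ‖fu X a (l - τ * I) u‖ ^ 2 * u ^ (-2 * σ - 1)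

/-- `∑ |a_h|` -/
noncomputable def S1 (X : ℕ) (a : ℕ → ℝ) : ℝ := ∑ h ∈ Finset.Icc 1 X, |a h|

lemma S1_nonneg57 (X : ℕ) (a : ℕ → ℝ) : 0 ≤ S1 X a := Finset.sum_nonneg fun _ _ => abs_nonneg _

lemma fu_large57 (X : ℕ) (a : ℕ → ℝ) {l τ K : ℝ} (hl : 1 ≤ l) (hτ : |τ| ≤ K * l) {u : ℝ} (hu : 0 < u) :
    ‖fu X a (l - τ * I) u‖ ≤ S1 X a * (2 + K) := by
  have hz : 0 < ((l : ℂ) - τ * I).re := by simp; linarith
  have hzr : ((l : ℂ) - τ * I).re = l := by simp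
  have hn : ‖((l : ℂ) - τ * I)‖ ≤ l + |τ| := by
    refine (norm_sub_le _ _).trans ?_
    rw [norm_mul, norm_I, mul_one, Complex.norm_real, Complex.norm_real, Real.norm_eq_abs, Real.norm_eq_abs,
      abs_of_pos (by linarith : 0 < l)]
  have hb : 1 + ‖((l : ℂ) - τ * I)‖ / ((l : ℂ) - τ * I).re ≤ 2 + K := by
    rw [hzr]
    have h1 : ‖((l : ℂ) - τ * I)‖ / l ≤ 1 + K := by
      rw [div_le_iff₀ (by linarith)]
      nlinarith
    linarith
  unfold fu S1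
  rw [Finset.sum_mul]
  refine (norm_sum_le _ _).trans (Finset.sum_le_sum fun h hh => ?_)
  rw [norm_mul, Complex.norm_real, Real.norm_eq_abs]
  have hh0 : (0:ℝ) < h := by exact_mod_cast (Finset.mem_Icc.1 hh).1
  exact mul_le_mul_of_nonneg_left ((norm_rho_le hz (by positivity)).trans hb) (abs_nonneg _)

lemma fu_tiny57 (X : ℕ) (a : ℕ → ℝ) {l τ : ℝ} (hl : 1 ≤ l) {u : ℝ} (hu : 0 < u) (hu1 : u < 1) :
    ‖fu X a (l - τ * I) u‖ ≤ S1 X a * (u / l) := by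
  unfold fu S1
  rw [Finset.sum_mul]
  refine (norm_sum_le _ _).trans (Finset.sum_le_sum fun h hh => ?_)
  rw [norm_mul, Complex.norm_real, Real.norm_eq_abs]
  have hh1 : (1:ℝ) ≤ h := by exact_mod_cast (Finset.mem_Icc.1 hh).1
  have hh0 : (0:ℝ) < h := by linarith
  refine mul_le_mul_of_nonneg_left ?_ (abs_nonneg _)
  have h1 : u / h ≤ u := div_le_self hu.le hh1
  rw [rho_small _ (lt_of_le_of_lt h1 hu1), norm_neg, norm_div, Complex.norm_real,
    Real.norm_of_nonneg (by positivity)]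
  have h2 : l ≤ ‖(l : ℂ) - τ * I + 1‖ := by
    refine le_trans ?_ (Complex.re_le_norm _)
    simp
  exact div_le_div₀ hu.le h1 (by linarith) h2

/-- the basic tail estimate -/
lemma gl57 (X : ℕ) (a : ℕ → ℝ) {l τ K x L U A B : ℝ} (hl : 1 ≤ l) (hτ : |τ| ≤ K * l) (hK : 0 ≤ K)
    (hL : 1 ≤ L) (hx : 0 < x) (hx1 : x ≤ 1 / 24) (hU : 1 ≤ U) (hA : 0 ≤ A) (hB : 0 ≤ B)
    {φ : ℝ → ℝ} (hφ : Measurable φ)
    (h1 : ∀ u, 0 < u → u < 1 → |φ u| ≤ B * u ^ (-(3/4) : ℝ))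
    (h2 : ∀ u, 1 ≤ u → u ≤ U → |φ u| ≤ A * u ^ (-(2 * x / L)))
    (h3 : ∀ u, U < u → |φ u| ≤ B * (u / U) ^ (1/2 : ℝ)) :
    IntegrableOn (fun u : ℝ => ‖fu X a (l - τ * I) u‖ ^ 2 * u ^ (-2 : ℝ) * φ u) (Ioi 0) ∧
    |2 * (l + 1 / 2) * ∫ u in Ioi (0:ℝ), ‖fu X a (l - τ * I) u‖ ^ 2 * u ^ (-2 : ℝ) * φ u| ≤
      A * (2 * (l + 1 / 2) * ∫ u in Ioi (0:ℝ), ‖fu X a (l - τ * I) u‖ ^ 2 * u ^ (-2 * (1 / 2 + x / L) - 1)) +
      B * (12 * (S1 X a ^ 2 / l) + 6 * (2 + K) ^ 2 * (S1 X a ^ 2 * l / U)) := by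
  have hl0 : 0 < l := by linarith
  have hL0 : 0 < L := by linarith
  have hU0 : 0 < U := by linarith
  have hz : 0 < ((l : ℂ) - τ * I).re := by simp [hl0]
  set S := S1 X a with hS
  have hS0 : 0 ≤ S := S1_nonneg57 X a
  set G : ℝ → ℝ := fun u => ‖fu X a (l - τ * I) u‖ ^ 2 with hG
  have hG0 : ∀ u, 0 ≤ G u := fun u => by positivity
  have hxL : x / L ≤ 1 / 24 := by
    rw [div_le_iff₀ hL0]; nlinarith
  have hxL0 : 0 < x / L := by positivity
  have hI := integrable_sq X a hz (σ := 1 / 2 + x / L) (by positivity) (by linarith)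
  -- the dominating function
  set d1 : ℝ → ℝ := fun u => A * (G u * u ^ (-2 * (1 / 2 + x / L) - 1)) with hd1
  set d2 : ℝ → ℝ := (Ioc (0:ℝ) 1).indicator fun u => B * (S ^ 2 / l ^ 2) * u ^ (-(3/4) : ℝ) with hd2
  set d3 : ℝ → ℝ := (Ioi U).indicator fun u => B * (S * (2 + K)) ^ 2 * U ^ (-(1/2) : ℝ) * u ^ (-(3/2) : ℝ) with hd3
  have i1 : IntegrableOn d1 (Ioi 0) := hI.const_mul A
  have i2' : IntegrableOn (fun u : ℝ => B * (S ^ 2 / l ^ 2) * u ^ (-(3/4) : ℝ)) (Ioc 0 1) := by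
    refine Integrable.const_mul ?_ _
    rw [← IntegrableOn, ← intervalIntegrable_iff_integrableOn_Ioc_of_le zero_le_one]
    exact intervalIntegral.intervalIntegrable_rpow' (by norm_num)
  have i2 : IntegrableOn d2 (Ioi 0) := (i2'.integrable_indicator measurableSet_Ioc).integrableOn
  have i3' : IntegrableOn (fun u : ℝ => B * (S * (2 + K)) ^ 2 * U ^ (-(1/2) : ℝ) * u ^ (-(3/2) : ℝ)) (Ioi U) :=
    (integrableOn_Ioi_rpow_of_lt (by norm_num) hU0).const_mul _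
  have i3 : IntegrableOn d3 (Ioi 0) := (i3'.integrable_indicator measurableSet_Ioi).integrableOn
  have hd20 : ∀ u, 0 < u → 0 ≤ d2 u := by
    intro u hu
    simp only [hd2]
    refine indicator_nonneg (fun v hv => ?_) u
    have := Real.rpow_nonneg hv.1.le (-(3/4) : ℝ)
    positivity
  have hd30 : ∀ u, 0 < u → 0 ≤ d3 u := by
    intro u hu
    simp only [hd3]
    refine indicator_nonneg (fun v hv => ?_) u
    have hv0 : 0 < v := lt_trans hU0 hv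
    positivity
  have hd10 : ∀ u, 0 < u → 0 ≤ d1 u := by
    intro u hu
    simp only [hd1]
    have := hG0 u
    positivity
  -- pointwise bound
  have hpt : ∀ u ∈ Ioi (0:ℝ), ‖G u * u ^ (-2 : ℝ) * φ u‖ ≤ d1 u + d2 u + d3 u := by
    intro u hu
    have hu0 : 0 < u := hu
    have hp2 : 0 ≤ u ^ (-2 : ℝ) := Real.rpow_nonneg hu0.le _
    rw [Real.norm_eq_abs, abs_mul, abs_of_nonneg (mul_nonneg (hG0 u) hp2)]
    rcases lt_or_ge u 1 with hu1 | hu1
    · have e1 : d2 u = B * (S ^ 2 / l ^ 2) * u ^ (-(3/4) : ℝ) := by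
        simp only [hd2]
        have hm : u ∈ Ioc (0:ℝ) 1 := ⟨hu0, hu1.le⟩
        rw [indicator_of_mem hm]
      have e2 : G u ≤ (S * (u / l)) ^ 2 := pow_le_pow_left₀ (norm_nonneg _) (fu_tiny57 X a hl hu0 hu1) 2
      have e3 : G u * u ^ (-2 : ℝ) ≤ S ^ 2 / l ^ 2 := by
        calc G u * u ^ (-2 : ℝ) ≤ (S * (u / l)) ^ 2 * u ^ (-2 : ℝ) := mul_le_mul_of_nonneg_right e2 hp2
          _ = S ^ 2 / l ^ 2 * (u ^ (2:ℝ) * u ^ (-2 : ℝ)) := by
              rw [Real.rpow_two]; field_simp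
          _ = S ^ 2 / l ^ 2 := by
              rw [← Real.rpow_add hu0]; norm_num
      have e4 : G u * u ^ (-2 : ℝ) * |φ u| ≤ S ^ 2 / l ^ 2 * (B * u ^ (-(3/4) : ℝ)) :=
        mul_le_mul e3 (h1 u hu0 hu1) (abs_nonneg _) (by positivity)
      have e5 := hd10 u hu0
      have e6 := hd30 u hu0
      rw [e1]
      linarith [e4, mul_comm (S ^ 2 / l ^ 2) (B * u ^ (-(3/4) : ℝ))]
    · rcases le_or_gt u U with huU | huU
      · have e1 : d1 u = A * (G u * (u ^ (-2 : ℝ) * u ^ (-(2 * x / L)))) := by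
          simp only [hd1]
          rw [← Real.rpow_add hu0]
          congr 3
          ring
        have e2 : G u * u ^ (-2 : ℝ) * |φ u| ≤ G u * u ^ (-2 : ℝ) * (A * u ^ (-(2 * x / L))) :=
          mul_le_mul_of_nonneg_left (h2 u hu1 huU) (mul_nonneg (hG0 u) hp2)
        have e5 := hd20 u hu0
        have e6 := hd30 u hu0
        rw [e1]
        linarith [e2]
      · have e1 : d3 u = B * (S * (2 + K)) ^ 2 * U ^ (-(1/2) : ℝ) * u ^ (-(3/2) : ℝ) := by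
          simp only [hd3]
          rw [indicator_of_mem (show u ∈ Ioi U from huU)]
        have e2 : G u ≤ (S * (2 + K)) ^ 2 := pow_le_pow_left₀ (norm_nonneg _) (fu_large57 X a hl hτ hu0) 2
        have e3 : G u * u ^ (-2 : ℝ) * |φ u| ≤ (S * (2 + K)) ^ 2 * u ^ (-2 : ℝ) * (B * (u / U) ^ (1/2 : ℝ)) := by
          refine mul_le_mul (mul_le_mul_of_nonneg_right e2 hp2) (h3 u huU) (abs_nonneg _) (by positivity)
        have e4 : u ^ (-2 : ℝ) * (u / U) ^ (1/2 : ℝ) = U ^ (-(1/2) : ℝ) * u ^ (-(3/2) : ℝ) := by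
          rw [Real.div_rpow hu0.le hU0.le, Real.rpow_neg hU0.le (1/2), div_eq_mul_inv, ← mul_assoc, ← Real.rpow_add hu0,
            mul_comm]
          norm_num
        have e5 := hd20 u hu0
        have e6 := hd10 u hu0
        rw [e1]
        have e7 : (S * (2 + K)) ^ 2 * u ^ (-2 : ℝ) * (B * (u / U) ^ (1/2 : ℝ)) =
            B * (S * (2 + K)) ^ 2 * U ^ (-(1/2) : ℝ) * u ^ (-(3/2) : ℝ) := by
          calc _ = B * (S * (2 + K)) ^ 2 * (u ^ (-2 : ℝ) * (u / U) ^ (1/2 : ℝ)) := by ring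
            _ = _ := by rw [e4]; ring
        linarith [e3]
  have hmeas : AEStronglyMeasurable (fun u : ℝ => G u * u ^ (-2 : ℝ) * φ u) (volume.restrict (Ioi 0)) :=
    ((((measurable_fu X a _).norm.pow_const 2).mul (measurable_id.pow_const _)).mul hφ).aestronglyMeasurable
  have hdI : IntegrableOn (fun u => d1 u + d2 u + d3 u) (Ioi 0) := (i1.add i2).add i3
  have hII : IntegrableOn (fun u : ℝ => G u * u ^ (-2 : ℝ) * φ u) (Ioi 0) :=
    hdI.mono' hmeas ((ae_restrict_iff' measurableSet_Ioi).2 (Eventually.of_forall hpt))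
  refine ⟨hII, ?_⟩
  have k1 : |∫ u in Ioi (0:ℝ), G u * u ^ (-2 : ℝ) * φ u| ≤ ∫ u in Ioi (0:ℝ), (d1 u + d2 u + d3 u) := by
    refine (abs_integral_le_integral_abs).trans ?_
    exact setIntegral_mono_on hII.norm hdI measurableSet_Ioi hpt
  have k2 : ∫ u in Ioi (0:ℝ), (d1 u + d2 u + d3 u) =
      (∫ u in Ioi (0:ℝ), d1 u) + (∫ u in Ioi (0:ℝ), d2 u) + ∫ u in Ioi (0:ℝ), d3 u := by
    have a1 := integral_add (μ := volume.restrict (Ioi (0:ℝ))) (i1.add i2) i3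
    have a2 := integral_add (μ := volume.restrict (Ioi (0:ℝ))) i1 i2
    simp only [Pi.add_apply] at a1 a2
    rw [a1, a2]
  have k3 : ∫ u in Ioi (0:ℝ), d2 u = 4 * (B * (S ^ 2 / l ^ 2)) := by
    simp only [hd2]
    rw [setIntegral_indicator measurableSet_Ioc, show Ioi (0:ℝ) ∩ Ioc 0 1 = Ioc 0 1 from
      inter_eq_right.2 fun u hu => hu.1, integral_const_mul, ← intervalIntegral.integral_of_le zero_le_one,
      integral_rpow (Or.inl (by norm_num))]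
    norm_num
    ring
  have k4 : ∫ u in Ioi (0:ℝ), d3 u = 2 * (B * (S * (2 + K)) ^ 2) / U := by
    simp only [hd3]
    rw [setIntegral_indicator measurableSet_Ioi, show Ioi (0:ℝ) ∩ Ioi U = Ioi U from
      inter_eq_right.2 fun u hu => lt_trans hU0 hu, integral_const_mul, integral_Ioi_rpow_of_lt (by norm_num) hU0]
    have e : U ^ (-(1/2) : ℝ) * U ^ (-(1/2) : ℝ) = 1 / U := by
      rw [← Real.rpow_add hU0]
      norm_num
      rw [Real.rpow_neg_one]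
    have e' : U ^ (-(3/2) + 1 : ℝ) = U ^ (-(1/2) : ℝ) := by norm_num
    rw [e']
    calc B * (S * (2 + K)) ^ 2 * U ^ (-(1/2) : ℝ) * (-U ^ (-(1/2) : ℝ) / (-(3/2) + 1)) =
          2 * (B * (S * (2 + K)) ^ 2) * (U ^ (-(1/2) : ℝ) * U ^ (-(1/2) : ℝ)) := by ring
      _ = _ := by rw [e]; ring
  have k5 : ∫ u in Ioi (0:ℝ), d1 u = A * ∫ u in Ioi (0:ℝ), G u * u ^ (-2 * (1 / 2 + x / L) - 1) := by
    simp only [hd1]
    rw [integral_const_mul]
  rw [k2, k3, k4, k5] at k1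
  have hc : 0 ≤ 2 * (l + 1 / 2) := by linarith
  rw [abs_mul, abs_of_nonneg hc]
  have k6 := mul_le_mul_of_nonneg_left k1 hc
  refine k6.trans ?_
  have hc3 : 2 * (l + 1 / 2) ≤ 3 * l := by linarith
  have k7 : 2 * (l + 1 / 2) * (4 * (B * (S ^ 2 / l ^ 2))) ≤ B * (12 * (S ^ 2 / l)) := by
    calc 2 * (l + 1 / 2) * (4 * (B * (S ^ 2 / l ^ 2))) ≤ 3 * l * (4 * (B * (S ^ 2 / l ^ 2))) :=
          mul_le_mul_of_nonneg_right hc3 (by positivity)
      _ = _ := by field_simp; ring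
  have k8 : 2 * (l + 1 / 2) * (2 * (B * (S * (2 + K)) ^ 2) / U) ≤ B * (6 * (2 + K) ^ 2 * (S ^ 2 * l / U)) := by
    calc 2 * (l + 1 / 2) * (2 * (B * (S * (2 + K)) ^ 2) / U) ≤ 3 * l * (2 * (B * (S * (2 + K)) ^ 2) / U) :=
          mul_le_mul_of_nonneg_right hc3 (by positivity)
      _ = _ := by field_simp; ring
  calc _ = A * (2 * (l + 1 / 2) * ∫ u in Ioi (0:ℝ), G u * u ^ (-2 * (1 / 2 + x / L) - 1)) +
        2 * (l + 1 / 2) * (4 * (B * (S ^ 2 / l ^ 2))) + 2 * (l + 1 / 2) * (2 * (B * (S * (2 + K)) ^ 2) / U) := by ring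
    _ ≤ A * (2 * (l + 1 / 2) * ∫ u in Ioi (0:ℝ), G u * u ^ (-2 * (1 / 2 + x / L) - 1)) +
        B * (12 * (S ^ 2 / l)) + B * (6 * (2 + K) ^ 2 * (S ^ 2 * l / U)) := by linarith
    _ = _ := by ring

end Pool.Agent.Helper57.HL
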