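import Pool.Agent.Helper69.HG.Stm
import Pool.Agent.Helper5.HG.Fact

/-!
# HL-FB: supports of mollifier and resonator, convolution sums, factorisation
-/

open MeasureTheory Set Filter Topology
open Pool.Agent.Helper69.HG
open scoped Classical

namespace Pool.Agent.Helper57.HL

lemma grp57 (l : List ℕ) (g : ℕ → ℕ) (f : ℕ → ℝ) (J : ℕ) (h : ∀ p ∈ l, g p < J) :
    (l.map (fun p => f (g p))).sum = ∑ j ∈ Finset.range J, ((l.filter (fun p => g p = j)).length : ℝ) * f j := by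
  induction l with
  | nil => simp
  | cons p l ih =>
    rw [List.map_cons, List.sum_cons, ih (fun q hq => h q (List.mem_cons_of_mem _ hq))]
    have hp : g p ∈ Finset.range J := Finset.mem_range.2 (h p List.mem_cons_self)
    have e : ∀ j : ℕ, (((p :: l).filter (fun p => g p = j)).length : ℝ) * f j =
        (if g p = j then f j else 0) + ((l.filter (fun p => g p = j)).length : ℝ) * f j := by
      intro j
      by_cases hj : g p = j
      · rw [List.filter_cons_of_pos (by simpa using hj), List.length_cons, if_pos hj]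
        push_cast
        ring
      · rw [List.filter_cons_of_neg (by simpa using hj), if_neg hj]
        ring
    simp_rw [e]
    rw [Finset.sum_add_distrib, Finset.sum_ite_eq, if_pos hp]

lemma logl57 (l : List ℕ) (h : ∀ p ∈ l, p ≠ 0) : Real.log ((l.prod : ℕ) : ℝ) = (l.map (fun p : ℕ => Real.log p)).sum := by
  induction l with
  | nil => simp
  | cons p l ih =>
    rw [List.prod_cons, List.map_cons, List.sum_cons, ← ih (fun q hq => h q (List.mem_cons_of_mem _ hq))]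
    rw [Nat.cast_mul, Real.log_mul]
    · exact_mod_cast h p List.mem_cons_self
    · have : l.prod ≠ 0 := by
        rw [Ne, List.prod_eq_zero_iff]
        intro h0
        exact h 0 (List.mem_cons_of_mem _ h0) rfl
      exact_mod_cast this

lemma geo57 (b J : ℕ) : ∑ j ∈ Finset.range J, (2 * ((b : ℝ) + j)) * (1 / 2 ^ j) = 4 * b + 4 - 4 * (b + J + 1) / 2 ^ J := by
  induction J with
  | zero => simp; ring
  | succ J ih =>
    rw [Finset.sum_range_succ, ih]
    push_cast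
    field_simp
    ring

lemma cell57 {T ε : ℝ} (hT : 1 < T) (_hε : 0 < ε) {p : ℕ} (hp : p.Prime) (hpT : (p : ℝ) ≤ T ^ ε) :
    ∃ j, InCell T ε j p := by
  have hT0 : 0 < T := by linarith
  have hL : 0 < Real.log T := Real.log_pos hT
  have hp2 : (2:ℝ) ≤ p := by exact_mod_cast hp.two_le
  have hex : ∃ j : ℕ, T ^ (ε / 2 ^ (j + 1)) < (p : ℝ) := by
    have h1 : Tendsto (fun j : ℕ => ε / 2 ^ (j + 1)) atTop (𝓝 0) := by
      have h2 : Tendsto (fun j : ℕ => ε * (1 / 2 : ℝ) ^ (j + 1)) atTop (𝓝 (ε * 0)) :=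
        ((tendsto_pow_atTop_nhds_zero_of_lt_one (by norm_num : (0:ℝ) ≤ 1 / 2) (by norm_num)).comp
          (tendsto_add_atTop_nat 1)).const_mul ε
      rw [mul_zero] at h2
      refine h2.congr fun j => ?_
      rw [div_pow, one_pow]
      ring
    have h3 : ∀ᶠ j : ℕ in atTop, ε / 2 ^ (j + 1) < Real.log 2 / Real.log T :=
      h1.eventually_lt_const (div_pos (Real.log_pos (by norm_num)) hL)
    obtain ⟨j, hj⟩ := h3.exists
    refine ⟨j, lt_of_lt_of_le ?_ hp2⟩
    rw [lt_div_iff₀ hL] at hj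
    rw [Real.rpow_def_of_pos hT0]
    calc Real.exp (Real.log T * (ε / 2 ^ (j + 1))) < Real.exp (Real.log 2) := Real.exp_lt_exp.2 (by linarith)
      _ = 2 := Real.exp_log (by norm_num)
  refine ⟨Nat.find hex, hp, Nat.find_spec hex, ?_⟩
  rcases Nat.eq_zero_or_pos (Nat.find hex) with h0 | h0
  · rw [h0]; simpa using hpT
  · have h1 := Nat.find_min hex (Nat.sub_one_lt_of_lt h0)
    have h2 : Nat.find hex - 1 + 1 = Nat.find hex := by omega
    rw [h2] at h1
    exact not_lt.1 h1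

/-- support of the mollifier -/
theorem a_le57 {T ε : ℝ} {b : ℕ} {a : ℕ → ℝ} (h : IsCM T ε b a) (hT : 1 < T) (hε : 0 < ε) {n : ℕ} (hn : a n ≠ 0) :
    n ≠ 0 ∧ (n : ℝ) ≤ T ^ (ε * (4 * b + 4)) ∧ ∀ p : ℕ, p.Prime → p ∣ n → (p : ℝ) ≤ T ^ ε := by
  have hT0 : 0 < T := by linarith
  have hL : 0 < Real.log T := Real.log_pos hT
  have hpr : ∀ p : ℕ, p.Prime → p ∣ n → (p : ℝ) ≤ T ^ ε := by
    intro p hp hpn
    by_contra hcon
    exact hn (h.big n p hp hpn (not_le.1 hcon))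
  have hn0 : n ≠ 0 := by
    rintro rfl
    obtain ⟨p, hp1, hp2⟩ := Nat.exists_infinite_primes (⌊T ^ ε⌋₊ + 1)
    have h1 := hpr p hp2 (dvd_zero p)
    have h2 : T ^ ε < p := by
      refine (Nat.lt_floor_add_one _).trans_le ?_
      exact_mod_cast hp1
    linarith
  refine ⟨hn0, ?_, hpr⟩
  set l := n.primeFactorsList with hl
  have hmem : ∀ p ∈ l, p.Prime ∧ p ∣ n := fun p hp => ⟨Nat.prime_of_mem_primeFactorsList hp, Nat.dvd_of_mem_primeFactorsList hp⟩
  have hex : ∀ p : ℕ, ∃ j, p ∈ l → InCell T ε j p := by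
    intro p
    by_cases hp : p ∈ l
    · obtain ⟨j, hj⟩ := cell57 hT hε (hmem p hp).1 (hpr p (hmem p hp).1 (hmem p hp).2)
      exact ⟨j, fun _ => hj⟩
    · exact ⟨0, fun h => absurd h hp⟩
  choose g hg using hex
  obtain ⟨J, hJ⟩ : ∃ J : ℕ, ∀ p ∈ l, g p < J := by
    refine ⟨(l.map g).sum + 1, fun p hp => ?_⟩
    have : g p ≤ (l.map g).sum := List.single_le_sum (fun x _ => Nat.zero_le x) _ (List.mem_map_of_mem hp)
    omega
  have e1 : Real.log n = (l.map (fun p : ℕ => Real.log p)).sum := by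
    rw [← logl57 l (fun p hp => (hmem p hp).1.ne_zero), hl, Nat.prod_primeFactorsList hn0]
  have e2 : (l.map (fun p : ℕ => Real.log p)).sum ≤ (l.map (fun p : ℕ => (fun j : ℕ => ε * Real.log T * (1 / 2 ^ j)) (g p))).sum := by
    apply List.sum_le_sum
    intro p hp
    obtain ⟨h1, h2, h3⟩ := hg p hp
    have hp0 : (0:ℝ) < p := by exact_mod_cast h1.pos
    have h4 := Real.log_le_log hp0 h3
    rw [Real.log_rpow hT0] at h4
    refine h4.trans (le_of_eq ?_)
    simp only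
    ring
  rw [grp57 l g (fun j => ε * Real.log T * (1 / 2 ^ j)) J hJ] at e2
  have e3 : ∀ j ∈ Finset.range J, ((l.filter (fun p => g p = j)).length : ℝ) * (ε * Real.log T * (1 / 2 ^ j)) ≤
      ε * Real.log T * ((2 * ((b : ℝ) + j)) * (1 / 2 ^ j)) := by
    intro j _
    have h1 : (l.filter (fun p => g p = j)).length ≤ Om T ε j n := by
      unfold Om
      rw [← hl]
      rw [← List.countP_eq_length_filter, ← List.countP_eq_length_filter]
      apply List.countP_mono_left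
      intro p hp hpj
      have h5 : g p = j := by simpa using hpj
      have h6 := hg p hp
      rw [h5] at h6
      simpa using h6
    have h2 : Om T ε j n ≤ 2 * (b + j) := by
      by_contra hcon
      exact hn (h.supp n j (not_le.1 hcon))
    have h3 : ((l.filter (fun p => g p = j)).length : ℝ) ≤ 2 * ((b : ℝ) + j) := by exact_mod_cast h1.trans h2
    have h4 : 0 ≤ ε * Real.log T * (1 / 2 ^ j) := by positivity
    calc _ ≤ (2 * ((b : ℝ) + j)) * (ε * Real.log T * (1 / 2 ^ j)) := mul_le_mul_of_nonneg_right h3 h4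
      _ = _ := by ring
  have e4 := Finset.sum_le_sum e3
  rw [← Finset.mul_sum, geo57] at e4
  have e5 : Real.log n ≤ ε * (4 * b + 4) * Real.log T := by
    have h1 : 0 ≤ 4 * ((b : ℝ) + J + 1) / 2 ^ J := by positivity
    have h2 : ε * Real.log T * (4 * b + 4 - 4 * (b + J + 1) / 2 ^ J) ≤ ε * Real.log T * (4 * b + 4) :=
      mul_le_mul_of_nonneg_left (by linarith) (by positivity)
    calc Real.log n ≤ ε * Real.log T * (4 * b + 4) := by linarith
      _ = _ := by ring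
  have hnp : (0:ℝ) < n := by exact_mod_cast Nat.pos_of_ne_zero hn0
  rw [← Real.exp_log hnp, Real.rpow_def_of_pos hT0]
  apply Real.exp_le_exp.2
  linarith

/-- all weights are bounded -/
lemma Qz_bd57 : ∃ C : ℝ, 1 ≤ C ∧ ∀ N : ℕ, |(Qz N : ℝ)| ≤ C := by
  refine ⟨1 + ∑ N ∈ Finset.range 65, |(Qz N : ℝ)|, by
    have : 0 ≤ ∑ N ∈ Finset.range 65, |(Qz N : ℝ)| := Finset.sum_nonneg fun _ _ => abs_nonneg _
    linarith, fun N => ?_⟩
  by_cases hN : N < 65
  · have := Finset.single_le_sum (f := fun N => |(Qz N : ℝ)|) (fun _ _ => abs_nonneg _) (Finset.mem_range.2 hN)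
    linarith
  · have h0 : Qz N = 0 := by
      unfold Qz
      rw [List.getD_eq_default]
      have : QL.length = 65 := by decide
      omega
    rw [h0]
    have : 0 ≤ ∑ N ∈ Finset.range 65, |(Qz N : ℝ)| := Finset.sum_nonneg fun _ _ => abs_nonneg _
    simp only [Int.cast_zero, abs_zero]
    linarith

lemma Qz_zero57 {N : ℕ} (hN : Qz N ≠ 0) : N ≤ 64 := by
  by_contra h
  apply hN
  unfold Qz
  rw [List.getD_eq_default]
  have : QL.length = 65 := by decide
  omega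

/-- support and size of the resonator -/
theorem rr_supp57 {T : ℝ} (hT : 1 < T) {n : ℕ} (hn : rr T n ≠ 0) :
    n ≠ 0 ∧ Squarefree n ∧ (n : ℝ) ≤ T ^ (2 / 5 : ℝ) ∧ n.primeFactors.card ≤ 32 ∧
      ∀ p : ℕ, p.Prime → p ∣ n → T ^ (1 / 160 : ℝ) < (p : ℝ) := by
  have hT0 : 0 < T := by linarith
  have hL : 0 < Real.log T := Real.log_pos hT
  unfold rr at hn
  split_ifs at hn with hc
  swap
  · exact absurd rfl hn
  obtain ⟨hsq, hix⟩ := hc
  have hq : Qz (ix T n) ≠ 0 := by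
    intro h0
    apply hn
    rw [h0]
    simp
  have hix64 := Qz_zero57 hq
  have hn0 : n ≠ 0 := hsq.ne_zero
  have hnp : (0:ℝ) < n := by exact_mod_cast Nat.pos_of_ne_zero hn0
  have hlog : Real.log n = ∑ p ∈ n.primeFactors, Real.log p := by
    conv_lhs => rw [← Nat.prod_primeFactors_of_squarefree hsq]
    push_cast
    rw [Real.log_prod]
    intro p hp
    exact_mod_cast (Nat.prime_of_mem_primeFactors hp).ne_zero
  refine ⟨hn0, hsq, ?_, ?_, ?_⟩
  · have h1 : Real.log n ≤ Real.log T / 160 * (ix T n : ℝ) := by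
      rw [hlog]
      unfold ix
      push_cast
      rw [Finset.mul_sum]
      refine Finset.sum_le_sum fun p _ => ?_
      have h2 : 160 * Real.log p / Real.log T ≤ (ixp T p : ℝ) := Nat.le_ceil _
      rw [div_le_iff₀ hL] at h2
      linarith
    have h3 : (ix T n : ℝ) ≤ 64 := by exact_mod_cast hix64
    have h4 : Real.log n ≤ 2 / 5 * Real.log T := by
      have : Real.log T / 160 * (ix T n : ℝ) ≤ Real.log T / 160 * 64 := mul_le_mul_of_nonneg_left h3 (by positivity)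
      linarith
    rw [← Real.exp_log hnp, Real.rpow_def_of_pos hT0]
    apply Real.exp_le_exp.2
    linarith
  · have h1 : 2 * n.primeFactors.card ≤ ix T n := by
      unfold ix
      rw [mul_comm, ← smul_eq_mul, ← Finset.sum_const]
      exact Finset.sum_le_sum fun p hp => (hix p hp).1
    omega
  · intro p hp hpn
    have h1 := (hix p (Nat.mem_primeFactors.2 ⟨hp, hpn, hn0⟩)).1
    unfold ixp at h1
    have h2 : ((1 : ℕ) : ℝ) < 160 * Real.log p / Real.log T := by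
      rw [← Nat.lt_ceil]; omega
    rw [Nat.cast_one, lt_div_iff₀ hL] at h2
    have hp0 : (0:ℝ) < p := by exact_mod_cast hp.pos
    rw [← Real.exp_log hp0, Real.rpow_def_of_pos hT0]
    apply Real.exp_lt_exp.2
    linarith

theorem rr_bd57 : ∃ C : ℝ, 1 ≤ C ∧ ∀ T : ℝ, 1 < T → ∀ n : ℕ, |rr T n| ≤ C := by
  obtain ⟨C, hC1, hC⟩ := Qz_bd57
  have hC0 : 0 ≤ C := by linarith
  refine ⟨(8 / 5) ^ 32 * C, ?_, fun T hT n => ?_⟩
  · have : (1:ℝ) ≤ (8 / 5) ^ 32 := one_le_pow₀ (by norm_num)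
    nlinarith
  · by_cases hn : rr T n = 0
    · rw [hn, abs_zero]; positivity
    · obtain ⟨_, _, _, h4, _⟩ := rr_supp57 hT hn
      unfold rr
      split_ifs with hc
      · rw [abs_mul]
        refine mul_le_mul ?_ (hC _) (abs_nonneg _) (by positivity)
        rw [abs_of_nonneg (by unfold kp; positivity)]
        unfold kp
        exact pow_le_pow_right₀ (by norm_num) h4
      · rw [abs_zero]; positivity

/-- coprime supports -/
theorem cop57 {T ε : ℝ} {b : ℕ} {a : ℕ → ℝ} (h : IsCM T ε b a) (hT : 1 < T) (hε : 0 < ε) (hε1 : ε ≤ 1 / 160)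
    {m n : ℕ} (hm : a m ≠ 0) (hn : rr T n ≠ 0) : Nat.Coprime m n := by
  apply Nat.coprime_of_dvd
  intro p hp hpm hpn
  have h1 := (a_le57 h hT hε hm).2.2 p hp hpm
  have h2 := (rr_supp57 hT hn).2.2.2.2 p hp hpn
  have h3 : T ^ ε ≤ T ^ (1 / 160 : ℝ) := Real.rpow_le_rpow_of_exponent_le hT.le hε1
  linarith

/-- sums against a convolution -/
theorem conv_sum57 {X X₁ X₂ : ℕ} (hX : X₁ * X₂ ≤ X) {a r : ℕ → ℝ} (ha : ∀ n, a n ≠ 0 → n ≤ X₁) (hr : ∀ n, r n ≠ 0 → n ≤ X₂)
    (G : ℕ → ℝ) :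
    ∑ h ∈ Finset.Icc 1 X, conv a r h * G h = ∑ m ∈ Finset.Icc 1 X₁, ∑ n ∈ Finset.Icc 1 X₂, a m * r n * G (m * n) := by
  set P := ((Finset.Icc 1 X) ×ˢ (Finset.Icc 1 X)).filter (fun x : ℕ × ℕ => x.1 * x.2 ≤ X) with hP
  have h1 : ∑ h ∈ Finset.Icc 1 X, conv a r h * G h = ∑ x ∈ P, a x.1 * r x.2 * G (x.1 * x.2) := by
    rw [← Finset.sum_fiberwise_of_maps_to (s := P) (t := Finset.Icc 1 X) (g := fun x => x.1 * x.2)
      (fun x hx => by
        rw [hP, Finset.mem_filter, Finset.mem_product, Finset.mem_Icc, Finset.mem_Icc] at hx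
        rw [Finset.mem_Icc]
        exact ⟨Nat.mul_pos hx.1.1.1 hx.1.2.1, hx.2⟩)]
    refine Finset.sum_congr rfl fun h hh => ?_
    rw [Finset.mem_Icc] at hh
    unfold conv
    rw [← Nat.sum_divisorsAntidiagonal (fun d e => a d * r e), Finset.sum_mul]
    have e : P.filter (fun x => x.1 * x.2 = h) = h.divisorsAntidiagonal := by
      ext x
      rw [Finset.mem_filter, hP, Finset.mem_filter, Finset.mem_product, Finset.mem_Icc, Finset.mem_Icc,
        Nat.mem_divisorsAntidiagonal]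
      constructor
      · rintro ⟨_, h2⟩
        exact ⟨h2, by omega⟩
      · rintro ⟨h2, h3⟩
        have h4 : 1 ≤ x.1 := Nat.pos_of_ne_zero (fun h0 => by rw [h0] at h2; omega)
        have h5 : 1 ≤ x.2 := Nat.pos_of_ne_zero (fun h0 => by rw [h0] at h2; omega)
        have h6 : x.1 ≤ h := by rw [← h2]; exact Nat.le_mul_of_pos_right _ h5
        have h7 : x.2 ≤ h := by rw [← h2]; exact Nat.le_mul_of_pos_left _ h4
        exact ⟨⟨⟨⟨h4, by omega⟩, ⟨h5, by omega⟩⟩, by omega⟩, h2⟩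
    rw [e]
    refine Finset.sum_congr rfl fun x hx => ?_
    rw [(Nat.mem_divisorsAntidiagonal.1 hx).1]
  rw [h1, ← Finset.sum_product (Finset.Icc 1 X₁) (Finset.Icc 1 X₂) (fun x => a x.1 * r x.2 * G (x.1 * x.2))]
  symm
  apply Finset.sum_subset
  · intro x hx
    rw [Finset.mem_product, Finset.mem_Icc, Finset.mem_Icc] at hx
    have h2 : x.1 * x.2 ≤ X := (Nat.mul_le_mul hx.1.2 hx.2.2).trans hX
    rw [hP, Finset.mem_filter, Finset.mem_product, Finset.mem_Icc, Finset.mem_Icc]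
    refine ⟨⟨⟨hx.1.1, ?_⟩, ⟨hx.2.1, ?_⟩⟩, h2⟩
    · exact (Nat.le_mul_of_pos_right _ hx.2.1).trans h2
    · exact (Nat.le_mul_of_pos_left _ hx.1.1).trans h2
  · intro x hx hx2
    rw [hP, Finset.mem_filter, Finset.mem_product, Finset.mem_Icc, Finset.mem_Icc] at hx
    rw [Finset.mem_product, Finset.mem_Icc, Finset.mem_Icc] at hx2
    by_contra hne
    apply hx2
    have h3 : a x.1 ≠ 0 := fun h0 => hne (by rw [h0]; ring)
    have h4 : r x.2 ≠ 0 := fun h0 => hne (by rw [h0]; ring)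
    exact ⟨⟨hx.1.1.1, ha _ h3⟩, ⟨hx.1.2.1, hr _ h4⟩⟩

/-- gcd of products with coprime supports -/
lemma gcd_mul57 {u u' v v' : ℕ} (hu : u ≠ 0) (hu' : u' ≠ 0) (hv : v ≠ 0) (hv' : v' ≠ 0)
    (h1 : Nat.Coprime u v) (h2 : Nat.Coprime u v') (h3 : Nat.Coprime u' v) (h4 : Nat.Coprime u' v') :
    Nat.gcd (u * v) (u' * v') = Nat.gcd u u' * Nat.gcd v v' := by
  have e := Pool.Agent.HG5.lcm_mul5 h1 h2 h3 h4
  have k1 := Nat.gcd_mul_lcm (u * v) (u' * v')
  have k2 := Nat.gcd_mul_lcm u u'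
  have k3 := Nat.gcd_mul_lcm v v'
  have hpos : 0 < Nat.lcm u u' * Nat.lcm v v' :=
    Nat.mul_pos (Nat.lcm_pos (Nat.pos_of_ne_zero hu) (Nat.pos_of_ne_zero hu'))
      (Nat.lcm_pos (Nat.pos_of_ne_zero hv) (Nat.pos_of_ne_zero hv'))
  apply Nat.eq_of_mul_eq_mul_right hpos
  rw [e] at k1
  rw [k1]
  calc u * v * (u' * v') = (u * u') * (v * v') := by ring
    _ = (Nat.gcd u u' * Nat.lcm u u') * (Nat.gcd v v' * Nat.lcm v v') := by rw [k2, k3]
    _ = _ := by ring

/-- a bilinear form with a kernel which factors -/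
theorem bil57 {X X₁ X₂ : ℕ} (hX : X₁ * X₂ ≤ X) {a r : ℕ → ℝ} (ha : ∀ n, a n ≠ 0 → n ≤ X₁) (hr : ∀ n, r n ≠ 0 → n ≤ X₂)
    (G : ℕ → ℕ → ℝ)
    (hG : ∀ m m' n n' : ℕ, m ∈ Finset.Icc 1 X₁ → m' ∈ Finset.Icc 1 X₁ → n ∈ Finset.Icc 1 X₂ → n' ∈ Finset.Icc 1 X₂ →
      a m ≠ 0 → a m' ≠ 0 → r n ≠ 0 → r n' ≠ 0 → G (m * n) (m' * n') = G m m' * G n n') :
    ∑ h ∈ Finset.Icc 1 X, ∑ k ∈ Finset.Icc 1 X, conv a r h * conv a r k * G h k =
      (∑ m ∈ Finset.Icc 1 X₁, ∑ m' ∈ Finset.Icc 1 X₁, a m * a m' * G m m') *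
      (∑ n ∈ Finset.Icc 1 X₂, ∑ n' ∈ Finset.Icc 1 X₂, r n * r n' * G n n') := by
  have e1 : ∑ h ∈ Finset.Icc 1 X, ∑ k ∈ Finset.Icc 1 X, conv a r h * conv a r k * G h k =
      ∑ h ∈ Finset.Icc 1 X, conv a r h * (∑ m' ∈ Finset.Icc 1 X₁, ∑ n' ∈ Finset.Icc 1 X₂, a m' * r n' * G h (m' * n')) := by
    refine Finset.sum_congr rfl fun h _ => ?_
    rw [← conv_sum57 hX ha hr (fun k => G h k), Finset.mul_sum]
    refine Finset.sum_congr rfl fun k _ => ?_
    ring
  rw [e1, conv_sum57 hX ha hr]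
  have e2 : ∀ m ∈ Finset.Icc 1 X₁, ∀ n ∈ Finset.Icc 1 X₂,
      a m * r n * (∑ m' ∈ Finset.Icc 1 X₁, ∑ n' ∈ Finset.Icc 1 X₂, a m' * r n' * G (m * n) (m' * n')) =
      ∑ m' ∈ Finset.Icc 1 X₁, ∑ n' ∈ Finset.Icc 1 X₂, (a m * a m' * G m m') * (r n * r n' * G n n') := by
    intro m hm n hn
    rw [Finset.mul_sum]
    refine Finset.sum_congr rfl fun m' hm' => ?_
    rw [Finset.mul_sum]
    refine Finset.sum_congr rfl fun n' hn' => ?_
    by_cases h1 : a m = 0
    · rw [h1]; ring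
    by_cases h2 : a m' = 0
    · rw [h2]; ring
    by_cases h3 : r n = 0
    · rw [h3]; ring
    by_cases h4 : r n' = 0
    · rw [h4]; ring
    rw [hG m m' n n' hm hm' hn hn' h1 h2 h3 h4]
    ring
  rw [Finset.sum_congr rfl fun m hm => Finset.sum_congr rfl fun n hn => e2 m hm n hn]
  rw [Finset.sum_mul_sum]
  refine Finset.sum_congr rfl fun m _ => ?_
  refine Finset.sum_congr rfl fun n _ => ?_
  rw [Finset.sum_mul_sum]

end Pool.Agent.Helper57.HL
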