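import Pool.Agent.Helper57.HL.Me

/-!
# HL-DV: mean square on a vertical line (equality) and the mean square of the derivative
-/

open MeasureTheory Set Filter Topology Complex
open Pool.Agent.Helper57.Zeta Pool.Agent.Helper57.LH Pool.Agent.Helper57.ED

namespace Pool.Agent.Helper57.HL

lemma intexp57 {κ : ℝ} (hκ : 0 < κ) : Integrable (fun t : ℝ => Real.exp (-κ * |t|)) := by
  rw [← integrableOn_univ, ← Iic_union_Ioi (a := (0:ℝ))]
  refine IntegrableOn.union ?_ ?_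
  · refine (integrableOn_exp_mul_Iic hκ 0).congr_fun (fun t ht => ?_) measurableSet_Iic
    simp only [mem_Iic] at ht
    simp [abs_of_nonpos ht]
  · refine (integrableOn_exp_mul_Ioi (neg_lt_zero.mpr hκ) 0).congr_fun (fun t ht => ?_) measurableSet_Ioi
    simp only [mem_Ioi] at ht
    simp [abs_of_pos ht]

lemma intbd57 {f : ℝ → ℂ} (hf : Measurable f) {C κ : ℝ} (_hC : 0 ≤ C) (hκ : 0 < κ)
    (h : ∀ v, ‖f v‖ ≤ C * Real.exp (-κ * |v|)) :
    Integrable f ∧ Integrable (fun v => ‖f v‖ ^ 2) := by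
  constructor
  · exact ((intexp57 hκ).const_mul C).mono' hf.aestronglyMeasurable (Eventually.of_forall h)
  · refine ((intexp57 hκ).const_mul (C ^ 2)).mono' (hf.norm.pow_const 2).aestronglyMeasurable
      (Eventually.of_forall fun v => ?_)
    rw [Real.norm_of_nonneg (by positivity)]
    have h1 : ‖f v‖ ^ 2 ≤ (C * Real.exp (-κ * |v|)) ^ 2 := pow_le_pow_left₀ (norm_nonneg _) (h v) 2
    have h2 : Real.exp (-κ * |v|) ≤ 1 := by
      rw [Real.exp_le_one_iff]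
      have := abs_nonneg v
      nlinarith
    have h3 := Real.exp_pos (-κ * |v|)
    calc ‖f v‖ ^ 2 ≤ (C * Real.exp (-κ * |v|)) ^ 2 := h1
      _ = C ^ 2 * (Real.exp (-κ * |v|) * Real.exp (-κ * |v|)) := by ring
      _ ≤ C ^ 2 * (Real.exp (-κ * |v|) * 1) := by gcongr
      _ = _ := by ring

/-- linear weight -/
lemma wgg57 (X : ℕ) (b : ℕ → ℝ) {z : ℂ} (hz : 0 < z.re) {σ : ℝ} (hσ : 0 < σ) (hσ1 : σ < 1) (ν : ℝ) :
    ∃ C κ : ℝ, 0 ≤ C ∧ 0 < κ ∧ ∀ v : ℝ, ‖((ν - v : ℝ) : ℂ) * gg X b z σ v‖ ≤ C * Real.exp (-κ * |v|) := by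
  obtain ⟨C, κ, hC, hκ, h⟩ := gg_bd57 X b hz hσ hσ1
  refine ⟨(|ν| + 2 / κ) * C, κ / 2, by positivity, by positivity, fun v => ?_⟩
  rw [norm_mul, Complex.norm_real, Real.norm_eq_abs]
  have h1 : |v| ≤ 2 / κ * Real.exp (κ / 2 * |v|) := by
    have h2 : κ / 2 * |v| ≤ Real.exp (κ / 2 * |v|) := by
      have := Real.add_one_le_exp (κ / 2 * |v|)
      linarith
    calc |v| = 2 / κ * (κ / 2 * |v|) := by field_simp
      _ ≤ _ := mul_le_mul_of_nonneg_left h2 (by positivity)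
  have h3 : |ν - v| ≤ (|ν| + 2 / κ) * Real.exp (κ / 2 * |v|) := by
    have h4 : |ν - v| ≤ |ν| + |v| := abs_sub _ _
    have h5 : 1 ≤ Real.exp (κ / 2 * |v|) := Real.one_le_exp (by positivity)
    have h6 : |ν| * 1 ≤ |ν| * Real.exp (κ / 2 * |v|) := mul_le_mul_of_nonneg_left h5 (abs_nonneg _)
    calc |ν - v| ≤ |ν| * 1 + |v| := by linarith
      _ ≤ |ν| * Real.exp (κ / 2 * |v|) + 2 / κ * Real.exp (κ / 2 * |v|) := add_le_add h6 h1
      _ = _ := by ring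
  calc |ν - v| * ‖gg X b z σ v‖ ≤ ((|ν| + 2 / κ) * Real.exp (κ / 2 * |v|)) * (C * Real.exp (-κ * |v|)) :=
        mul_le_mul h3 (h v) (norm_nonneg _) (by positivity)
    _ = (|ν| + 2 / κ) * C * (Real.exp (κ / 2 * |v|) * Real.exp (-κ * |v|)) := by ring
    _ = _ := by
        rw [← Real.exp_add]
        congr 2
        ring

lemma wmeas57 (X : ℕ) (b : ℕ → ℝ) (z : ℂ) (σ ν : ℝ) : Measurable (fun v : ℝ => ((ν - v : ℝ) : ℂ) * gg X b z σ v) :=
  (by fun_prop : Measurable (fun v : ℝ => ((ν - v : ℝ) : ℂ))).mul (gg_meas57 X b z σ)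

/-- quotient `ζ(s) Mo(s)/(s+z)` -/
noncomputable def qt (X : ℕ) (b : ℕ → ℝ) (z s : ℂ) : ℂ := riemannZeta s * Mo X b s / (s + z)

lemma Mo_diff57 (X : ℕ) (b : ℕ → ℝ) : Differentiable ℂ (Mo X b) := by
  unfold Mo
  intro s
  refine DifferentiableAt.fun_sum fun h hh => ?_
  have hh0 : (h : ℂ) ≠ 0 := by exact_mod_cast (Nat.pos_iff_ne_zero.mp (Finset.mem_Icc.1 hh).1)
  exact (differentiableAt_const _).mul ((differentiableAt_id.neg).const_cpow (Or.inl hh0))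

lemma zM_diff57 (X : ℕ) (b : ℕ → ℝ) {s : ℂ} (hs : s ≠ 1) :
    DifferentiableAt ℂ (fun s => riemannZeta s * Mo X b s) s :=
  (differentiableAt_riemannZeta hs).mul (Mo_diff57 X b s)

lemma qt_diff57 (X : ℕ) (b : ℕ → ℝ) {z s : ℂ} (hs : s ≠ 1) (hz : s + z ≠ 0) :
    DifferentiableAt ℂ (qt X b z) s :=
  (zM_diff57 X b hs).div (by fun_prop) hz

lemma FT_gg_sub57 (X : ℕ) (b : ℕ → ℝ) {z : ℂ} (hz : 0 < z.re) {σ : ℝ} (hσ : 0 < σ)
    (hσ1 : σ < 1) (t : ℝ) : FT (gg X b z σ) (-t) = qt X b z (σ + t * I) := (FT_gg X b hz hσ hσ1 t).2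

lemma line_ne57 {σ : ℝ} (hσ1 : σ < 1) (t : ℝ) : (σ + t * I : ℂ) ≠ 1 := by
  intro h
  have := congrArg Complex.re h
  simp at this
  linarith

lemma line_z57 {z : ℂ} (hz : 0 < z.re) {σ : ℝ} (hσ : 0 < σ) (t : ℝ) : (σ + t * I : ℂ) + z ≠ 0 := by
  intro h
  have := congrArg Complex.re h
  simp at this
  linarith

/-- the derivative of the quotient -/
lemma qt_deriv57 (X : ℕ) (b : ℕ → ℝ) {z : ℂ} (hz : 0 < z.re) {σ : ℝ} (hσ : 0 < σ)
    (hσ1 : σ < 1) (t : ℝ) :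
    deriv (qt X b z) (σ + t * I) = FT (fun v => ((0 - v : ℝ) : ℂ) * gg X b z σ v) (-t) := by
  obtain ⟨C, κ, hC, hκ, hb⟩ := wgg57 X b hz hσ hσ1 0
  have hd := (intbd57 (wmeas57 X b z σ 0) hC hκ hb).1
  have hg := (FT_gg X b hz hσ hσ1 0).1
  -- derivative of `t ↦ FT gg (-t)`
  have h1 : HasDerivAt (fun t : ℝ => ∫ v : ℝ, Complex.exp (I * ((-t : ℝ) : ℂ) * v) * gg X b z σ v)
      (∫ v : ℝ, I * (Complex.exp (I * ((-t : ℝ) : ℂ) * v) * (((0 - v : ℝ) : ℂ) * gg X b z σ v))) t := by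
    refine (hasDerivAt_integral_of_dominated_loc_of_deriv_le (F := fun (t : ℝ) (v : ℝ) =>
      Complex.exp (I * ((-t : ℝ) : ℂ) * v) * gg X b z σ v) (F' := fun (t : ℝ) (v : ℝ) =>
      I * (Complex.exp (I * ((-t : ℝ) : ℂ) * v) * (((0 - v : ℝ) : ℂ) * gg X b z σ v)))
      (bound := fun v => ‖((0 - v : ℝ) : ℂ) * gg X b z σ v‖) (s := univ) Filter.univ_mem ?_ ?_ ?_ ?_ ?_ ?_).2
    · refine Eventually.of_forall fun t => ?_
      exact ((by fun_prop : Measurable (fun v : ℝ => Complex.exp (I * ((-t : ℝ) : ℂ) * v))).mul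
        (gg_meas57 X b z σ)).aestronglyMeasurable
    · refine hg.mono ((by fun_prop : Measurable (fun v : ℝ => Complex.exp (I * ((-t : ℝ) : ℂ) * v))).mul
        (gg_meas57 X b z σ)).aestronglyMeasurable (Eventually.of_forall fun v => ?_)
      rw [norm_mul, norm_exp_I_mul, one_mul]
    · exact (((by fun_prop : Measurable (fun v : ℝ => Complex.exp (I * ((-t : ℝ) : ℂ) * v))).mul
        (wmeas57 X b z σ 0)).const_mul I).aestronglyMeasurable
    · refine Eventually.of_forall fun v => fun t _ => ?_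
      rw [norm_mul, norm_mul, norm_exp_I_mul, norm_I, one_mul, one_mul]
    · exact hd.norm
    · refine Eventually.of_forall fun v => fun t _ => ?_
      have e1 : HasDerivAt (fun t : ℝ => I * ((-t : ℝ) : ℂ) * v) (I * ((-1 : ℝ) : ℂ) * v) t := by
        have := ((hasDerivAt_id t).neg.ofReal_comp).const_mul I |>.mul_const (v : ℂ)
        simpa using this
      have e2 := (e1.cexp).mul_const (gg X b z σ v)
      refine e2.congr_deriv ?_
      push_cast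
      ring
  have h2 : HasDerivAt (fun t : ℝ => qt X b z (σ + t * I))
      (I * FT (fun v => ((0 - v : ℝ) : ℂ) * gg X b z σ v) (-t)) t := by
    have e3 : (fun t : ℝ => ∫ v : ℝ, Complex.exp (I * ((-t : ℝ) : ℂ) * v) * gg X b z σ v) =
        fun t : ℝ => qt X b z (σ + t * I) := by
      funext t
      rw [← FT_gg_sub57 X b hz hσ hσ1 t]
      rfl
    rw [e3] at h1
    convert h1 using 1
    unfold FT
    rw [← integral_const_mul]
  have h3 : HasDerivAt (fun t : ℝ => qt X b z (σ + t * I)) (deriv (qt X b z) (σ + t * I) * I) t := by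
    have e4 : HasDerivAt (fun t : ℝ => (σ + t * I : ℂ)) I t := by
      have := ((hasDerivAt_id t).ofReal_comp.mul_const I).const_add (σ : ℂ)
      simpa using this
    exact (qt_diff57 X b (line_ne57 hσ1 t) (line_z57 hz hσ t)).hasDerivAt.comp t e4
  have h4 := h2.unique h3
  have h5 : I * FT (fun v => ((0 - v : ℝ) : ℂ) * gg X b z σ v) (-t) = I * deriv (qt X b z) (σ + t * I) := by
    rw [h4]; ring
  exact (mul_left_cancel₀ I_ne_zero h5).symm

lemma qt_comb57 (X : ℕ) (b : ℕ → ℝ) {z : ℂ} (hz : 0 < z.re) {σ : ℝ} (hσ : 0 < σ)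
    (hσ1 : σ < 1) (ν t : ℝ) :
    (ν : ℂ) * qt X b z (σ + t * I) + deriv (qt X b z) (σ + t * I) =
      FT (fun v => ((ν - v : ℝ) : ℂ) * gg X b z σ v) (-t) := by
  obtain ⟨C, κ, hC, hκ, hb⟩ := wgg57 X b hz hσ hσ1 0
  have hd := (intbd57 (wmeas57 X b z σ 0) hC hκ hb).1
  have hg := (FT_gg X b hz hσ hσ1 0).1
  have hm : ∀ t : ℝ, Measurable (fun v : ℝ => Complex.exp (I * ((-t : ℝ) : ℂ) * v)) := fun t => by fun_prop
  rw [qt_deriv57 X b hz hσ hσ1 t, ← FT_gg_sub57 X b hz hσ hσ1 t]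
  unfold FT
  rw [← integral_const_mul, ← integral_add]
  · refine integral_congr_ae (Eventually.of_forall fun v => ?_)
    simp only
    push_cast
    ring
  · refine (hg.mono ((hm t).mul (gg_meas57 X b z σ)).aestronglyMeasurable
      (Eventually.of_forall fun v => ?_)).const_mul _
    simp only [Pi.mul_apply]
    rw [norm_mul, norm_exp_I_mul, one_mul]
  · refine hd.mono ((hm t).mul (wmeas57 X b z σ 0)).aestronglyMeasurable
      (Eventually.of_forall fun v => ?_)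
    simp only
    rw [norm_mul, norm_exp_I_mul, one_mul]

/-- `∫ ‖(ν - v) g(v)‖² dv = ∫ ‖fu‖² (ν - log u)² u^{-2σ-1} du` -/
lemma wsq57 (X : ℕ) (b : ℕ → ℝ) (z : ℂ) (σ ν : ℝ) :
    ∫ v, ‖((ν - v : ℝ) : ℂ) * gg X b z σ v‖ ^ 2 =
      ∫ u in Ioi (0:ℝ), ‖fu X b z u‖ ^ 2 * (ν - Real.log u) ^ 2 * u ^ (-2 * σ - 1) := by
  rw [cov]
  refine integral_congr_ae (Eventually.of_forall fun v => ?_)
  simp only
  rw [norm_mul, mul_pow, gg_sq, Complex.norm_real, Real.norm_eq_abs, sq_abs, Real.log_exp, smul_eq_mul, smul_eq_mul]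
  ring

lemma sq57 (X : ℕ) (b : ℕ → ℝ) (z : ℂ) (σ : ℝ) :
    ∫ v, ‖gg X b z σ v‖ ^ 2 = ∫ u in Ioi (0:ℝ), ‖fu X b z u‖ ^ 2 * u ^ (-2 * σ - 1) := by
  rw [cov]
  exact integral_congr_ae (Eventually.of_forall fun v => gg_sq X b z σ v)

lemma PW_norm57 {l σ τ : ℝ} (t : ℝ) :
    PW (l + σ) (t - τ) = (l + σ) / Real.pi / ‖(σ + t * I + (l - τ * I) : ℂ)‖ ^ 2 := by
  have e : ‖(σ + t * I + (l - τ * I) : ℂ)‖ ^ 2 = (l + σ) ^ 2 + (t - τ) ^ 2 := by
    rw [← Complex.normSq_eq_norm_sq, Complex.normSq_apply]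
    simp
    ring
  rw [e]
  unfold PW
  rw [div_div]

/-- **P1**: mean square on the line, equality. -/
theorem hl_planch (X : ℕ) (b : ℕ → ℝ) {σ l : ℝ} (τ : ℝ) (hσ : 0 < σ) (hσ1 : σ < 1) (hl : 0 < l) :
    Integrable (fun t : ℝ => PW (l + σ) (t - τ) * ‖riemannZeta (σ + t * I) * Mo X b (σ + t * I)‖ ^ 2) ∧
    ∫ t : ℝ, PW (l + σ) (t - τ) * ‖riemannZeta (σ + t * I) * Mo X b (σ + t * I)‖ ^ 2 =
      2 * (l + σ) * ∫ u in Ioi (0:ℝ), ‖fu X b (l - τ * I) u‖ ^ 2 * u ^ (-2 * σ - 1) := by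
  have hz0 : 0 < ((l : ℂ) - τ * I).re := by simp [hl]
  obtain ⟨C, κ, hC, hκ, hb⟩ := gg_bd57 X b hz0 hσ hσ1
  obtain ⟨hg, hg2⟩ := intbd57 (gg_meas57 X b _ σ) hC hκ hb
  obtain ⟨h1, h2⟩ := planch_eq hg hg2
  have hpt : ∀ t : ℝ, PW (l + σ) (t - τ) * ‖riemannZeta (σ + t * I) * Mo X b (σ + t * I)‖ ^ 2 =
      (l + σ) / Real.pi * ‖FT (gg X b (l - τ * I) σ) (-t)‖ ^ 2 := by
    intro t
    rw [FT_gg_sub57 X b hz0 hσ hσ1 t, PW_norm57]
    unfold qt
    rw [norm_div, div_pow]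
    ring
  simp_rw [hpt]
  constructor
  · exact (h1.comp_neg).const_mul _
  · rw [integral_const_mul, integral_neg_eq_self (fun t => ‖FT (gg X b (l - τ * I) σ) t‖ ^ 2), h2, sq57]
    have := Real.pi_pos
    field_simp

/-- **P2**: mean square of the derivative on the line. -/
theorem hl_deriv (X : ℕ) (b : ℕ → ℝ) {σ l : ℝ} (τ ν : ℝ) (hσ : 0 < σ) (hσ1 : σ < 1) (hl : 0 < l) {e : ℝ} (he : 0 < e) :
    Integrable (fun t : ℝ => PW (l + σ) (t - τ) * ‖(ν : ℂ) * (riemannZeta (σ + t * I) * Mo X b (σ + t * I)) +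
      deriv (fun s => riemannZeta s * Mo X b s) (σ + t * I)‖ ^ 2) ∧
    ∫ t : ℝ, PW (l + σ) (t - τ) * ‖(ν : ℂ) * (riemannZeta (σ + t * I) * Mo X b (σ + t * I)) +
      deriv (fun s => riemannZeta s * Mo X b s) (σ + t * I)‖ ^ 2 ≤
      (1 + e) * (2 * (l + σ) * ∫ u in Ioi (0:ℝ), ‖fu X b (l - τ * I) u‖ ^ 2 * (ν - Real.log u) ^ 2 * u ^ (-2 * σ - 1)) +
      (1 + 1 / e) / l ^ 2 * (2 * (l + σ) * ∫ u in Ioi (0:ℝ), ‖fu X b (l - τ * I) u‖ ^ 2 * u ^ (-2 * σ - 1)) := by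
  set z : ℂ := l - τ * I with hz
  have hz0 : 0 < z.re := by rw [hz]; simp [hl]
  obtain ⟨C, κ, hC, hκ, hb⟩ := gg_bd57 X b hz0 hσ hσ1
  obtain ⟨hg, hg2⟩ := intbd57 (gg_meas57 X b _ σ) hC hκ hb
  obtain ⟨h1, h2⟩ := planch_eq hg hg2
  obtain ⟨C', κ', hC', hκ', hb'⟩ := wgg57 X b hz0 hσ hσ1 ν
  obtain ⟨hg', hg2'⟩ := intbd57 (wmeas57 X b _ σ ν) hC' hκ' hb'
  obtain ⟨h1', h2'⟩ := planch_eq hg' hg2'
  set G1 : ℝ → ℝ := fun t => ‖FT (gg X b z σ) (-t)‖ ^ 2 with hG1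
  set G2 : ℝ → ℝ := fun t => ‖FT (fun v => ((ν - v : ℝ) : ℂ) * gg X b z σ v) (-t)‖ ^ 2 with hG2
  have hI1 : Integrable G1 := h1.comp_neg
  have hI2 : Integrable G2 := h1'.comp_neg
  have hlσ : 0 < l + σ := by linarith
  have hpi := Real.pi_pos
  -- pointwise
  have hpt : ∀ t : ℝ, PW (l + σ) (t - τ) * ‖(ν : ℂ) * (riemannZeta (σ + t * I) * Mo X b (σ + t * I)) +
      deriv (fun s => riemannZeta s * Mo X b s) (σ + t * I)‖ ^ 2 ≤
      (1 + e) * ((l + σ) / Real.pi * G2 t) + (1 + 1 / e) / l ^ 2 * ((l + σ) / Real.pi * G1 t) := by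
    intro t
    have hsz := line_z57 hz0 hσ t
    set s : ℂ := σ + t * I with hs
    have e1 : deriv (fun s => riemannZeta s * Mo X b s) s = deriv (qt X b z) s * (s + z) + qt X b z s := by
      have e2 : (fun s => riemannZeta s * Mo X b s) =ᶠ[𝓝 s] fun s => qt X b z s * (s + z) := by
        have : ∀ᶠ w in 𝓝 s, w + z ≠ 0 :=
          (continuousAt_id.add continuousAt_const).eventually_ne hsz
        filter_upwards [this] with w hw
        unfold qt
        field_simp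
      rw [e2.deriv_eq]
      have e3 := ((qt_diff57 X b (line_ne57 hσ1 t) hsz).hasDerivAt.mul
        ((hasDerivAt_id s).add_const z))
      have e4 := e3.deriv
      simp only [id_eq, mul_one] at e4
      rw [← e4]
      rfl
    have e5 : (ν : ℂ) * (riemannZeta s * Mo X b s) + deriv (fun s => riemannZeta s * Mo X b s) s =
        (s + z) * (((ν : ℂ) * qt X b z s + deriv (qt X b z) s) + qt X b z s / (s + z)) := by
      rw [e1, show riemannZeta s * Mo X b s = qt X b z s * (s + z) by unfold qt; field_simp]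
      field_simp
      ring
    have hn : 0 < ‖s + z‖ := norm_pos_iff.2 hsz
    have hnl : l ≤ ‖s + z‖ := by
      have h := Complex.re_le_norm (s + z)
      have h6 : (s + z).re = l + σ := by rw [hs, hz]; simp; ring
      linarith
    rw [e5, PW_norm57, ← hz, ← hs, norm_mul, mul_pow]
    have e6 : (l + σ) / Real.pi / ‖s + z‖ ^ 2 * (‖s + z‖ ^ 2 *
        ‖(ν : ℂ) * qt X b z s + deriv (qt X b z) s + qt X b z s / (s + z)‖ ^ 2) =
        (l + σ) / Real.pi * ‖(ν : ℂ) * qt X b z s + deriv (qt X b z) s + qt X b z s / (s + z)‖ ^ 2 := by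
      field_simp
    rw [e6, hs, qt_comb57 X b hz0 hσ hσ1 ν t, ← FT_gg_sub57 X b hz0 hσ hσ1 t, ← hs]
    set A : ℂ := FT (fun v => ((ν - v : ℝ) : ℂ) * gg X b z σ v) (-t) with hA
    set B : ℂ := FT (gg X b z σ) (-t) with hB
    have e7 : ‖A + B / (s + z)‖ ^ 2 ≤ (1 + e) * ‖A‖ ^ 2 + (1 + 1 / e) / l ^ 2 * ‖B‖ ^ 2 := by
      have e8 : ‖A + B / (s + z)‖ ≤ ‖A‖ + ‖B‖ / l := by
        refine (norm_add_le _ _).trans ?_
        rw [norm_div]
        gcongr
      have e9 : ‖A + B / (s + z)‖ ^ 2 ≤ (‖A‖ + ‖B‖ / l) ^ 2 := pow_le_pow_left₀ (norm_nonneg _) e8 2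
      refine e9.trans ?_
      have e10 : (1 + e) * ‖A‖ ^ 2 + (1 + 1 / e) / l ^ 2 * ‖B‖ ^ 2 - (‖A‖ + ‖B‖ / l) ^ 2 =
          1 / e * (e * ‖A‖ - ‖B‖ / l) ^ 2 := by
        field_simp
        ring
      have : 0 ≤ 1 / e * (e * ‖A‖ - ‖B‖ / l) ^ 2 := by positivity
      linarith
    calc (l + σ) / Real.pi * ‖A + B / (s + z)‖ ^ 2 ≤
          (l + σ) / Real.pi * ((1 + e) * ‖A‖ ^ 2 + (1 + 1 / e) / l ^ 2 * ‖B‖ ^ 2) :=
          mul_le_mul_of_nonneg_left e7 (by positivity)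
      _ = _ := by
          simp only [hG1, hG2]
          ring
  have hdom : Integrable (fun t => (1 + e) * ((l + σ) / Real.pi * G2 t) + (1 + 1 / e) / l ^ 2 * ((l + σ) / Real.pi * G1 t)) :=
    ((hI2.const_mul _).const_mul _).add ((hI1.const_mul _).const_mul _)
  have hmeas : Continuous (fun t : ℝ => PW (l + σ) (t - τ) * ‖(ν : ℂ) * (riemannZeta (σ + t * I) * Mo X b (σ + t * I)) +
      deriv (fun s => riemannZeta s * Mo X b s) (σ + t * I)‖ ^ 2) := by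
    have c0 : Continuous (fun t : ℝ => (σ + t * I : ℂ)) := by fun_prop
    have hU : IsOpen {s : ℂ | s ≠ 1} := isOpen_ne
    have hd : DifferentiableOn ℂ (fun s => riemannZeta s * Mo X b s) {s : ℂ | s ≠ 1} := fun s hs =>
      (zM_diff57 X b hs).differentiableWithinAt
    have c1 : ContinuousOn (fun s => riemannZeta s * Mo X b s) {s : ℂ | s ≠ 1} := hd.continuousOn
    have c2 : ContinuousOn (deriv (fun s => riemannZeta s * Mo X b s)) {s : ℂ | s ≠ 1} := (hd.deriv hU).continuousOn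
    have c3 : Continuous (fun t : ℝ => riemannZeta (σ + t * I) * Mo X b (σ + t * I)) :=
      c1.comp_continuous c0 (fun t => line_ne57 hσ1 t)
    have c4 : Continuous (fun t : ℝ => deriv (fun s => riemannZeta s * Mo X b s) (σ + t * I)) :=
      c2.comp_continuous c0 (fun t => line_ne57 hσ1 t)
    have c5 : Continuous (fun t : ℝ => PW (l + σ) (t - τ)) := by
      unfold PW
      refine continuous_const.div (by fun_prop) fun t => ?_
      positivity
    exact c5.mul (((continuous_const.mul c3).add c4).norm.pow 2)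
  have hint : Integrable (fun t : ℝ => PW (l + σ) (t - τ) * ‖(ν : ℂ) * (riemannZeta (σ + t * I) * Mo X b (σ + t * I)) +
      deriv (fun s => riemannZeta s * Mo X b s) (σ + t * I)‖ ^ 2) := by
    refine hdom.mono' hmeas.aestronglyMeasurable (Eventually.of_forall fun t => ?_)
    have h0 := PW_pos hlσ (t - τ)
    rw [Real.norm_of_nonneg (by positivity)]
    exact hpt t
  refine ⟨hint, (integral_mono hint hdom hpt).trans (le_of_eq ?_)⟩
  rw [integral_add ((hI2.const_mul _).const_mul _) ((hI1.const_mul _).const_mul _),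
    integral_const_mul, integral_const_mul, integral_const_mul, integral_const_mul]
  have k1 : ∫ t, G1 t = 2 * Real.pi * ∫ u in Ioi (0:ℝ), ‖fu X b z u‖ ^ 2 * u ^ (-2 * σ - 1) := by
    rw [← sq57, ← h2]
    exact integral_neg_eq_self (fun t => ‖FT (gg X b z σ) t‖ ^ 2) volume
  have k2 : ∫ t, G2 t = 2 * Real.pi * ∫ u in Ioi (0:ℝ), ‖fu X b z u‖ ^ 2 * (ν - Real.log u) ^ 2 * u ^ (-2 * σ - 1) := by
    rw [← wsq57, ← h2']
    exact integral_neg_eq_self (fun t => ‖FT (fun v => ((ν - v : ℝ) : ℂ) * gg X b z σ v) t‖ ^ 2) volume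
  rw [k1, k2]
  field_simp

end Pool.Agent.Helper57.HL
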