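import Pool.Agent.Helper47.LTFourier
import Pool.Agent.Helper49.HG.Wir
import Pool.Agent.Helper57.ED.Def

/-!
# N8e: convolutions with a positive kernel in the mean, and Markov's inequality
-/

set_option autoImplicit false

open MeasureTheory Set Filter Topology
open Pool.Agent.Helper57.ED Pool.Agent.Helper49.HG
open scoped ENNReal

namespace Pool.Agent.Helper57.HL

lemma pw_shift57 {W τ : ℝ} (hW : 1 ≤ W) (t u : ℝ) : PW W (t + u - τ) ≤ (1 + |u|) ^ 2 * PW W (t - τ) := by
  have hW0 : 0 < W := by linarith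
  have h := pw_ratio (W := W) (d := |u|) (τ := τ) (x := t + u) (y := t) hW0 (by rw [add_sub_cancel_left])
  have h1 : |u| / W ≤ |u| := div_le_self (abs_nonneg _) hW
  have h0 : 0 ≤ |u| / W := by positivity
  have h2 : 1 + (|u| / W + (|u| / W) ^ 2) ≤ (1 + |u|) ^ 2 := by nlinarith
  exact h.trans (mul_le_mul_of_nonneg_right h2 (PW_pos hW0 (t - τ)).le)

/-- Cauchy-Schwarz with a density -/
lemma cs_dens57 {k f : ℝ → ℝ≥0∞} (hk : Measurable k) (hf : Measurable f) :
    (∫⁻ u, k u * f u) ^ 2 ≤ (∫⁻ u, k u) * ∫⁻ u, k u * f u ^ 2 := by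
  have h := Pool.Agent.Helper47.LT.lintegral_sq_le (volume.withDensity k) (f := f) hf.aemeasurable
  rw [lintegral_withDensity_eq_lintegral_mul _ hk hf, lintegral_withDensity_eq_lintegral_mul _ hk (hf.pow_const 2),
    withDensity_apply _ MeasurableSet.univ, Measure.restrict_univ] at h
  exact h

theorem n8e {W τ c lam : ℝ} (hW : 1 ≤ W) {F K : ℝ → ℝ} (hF0 : ∀ t, 0 ≤ F t) (hF : Measurable F)
    (hFi : Integrable (fun t => PW W (t - τ) * F t ^ 2)) (hK0 : ∀ u, 0 ≤ K u) (hK : Measurable K)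
    (hKi : Integrable (fun u => K u * (1 + |u|) ^ 2)) (hc : 0 < c) (hlam : 0 < lam) {S : Set ℝ}
    (hS : ∀ t ∈ S, c ≤ PW W (t - τ)) (hS2 : ∀ t ∈ S, lam ≤ ∫ u, K u * F (t - u)) :
    volume S ≤ ENNReal.ofReal ((∫ u, K u) * (∫ u, K u * (1 + |u|) ^ 2) * (∫ t, PW W (t - τ) * F t ^ 2) / (c * lam ^ 2)) := by
  have hW0 : 0 < W := by linarith
  have hw0 : ∀ t, 0 ≤ PW W (t - τ) := fun t => (PW_pos hW0 _).le
  have hwm : Measurable (fun t : ℝ => PW W (t - τ)) := by unfold PW; fun_prop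
  have hKint : Integrable K := by
    refine hKi.mono' hK.aestronglyMeasurable (Eventually.of_forall fun u => ?_)
    rw [Real.norm_of_nonneg (hK0 u)]
    have h1 : (1:ℝ) ≤ (1 + |u|) ^ 2 := one_le_pow₀ (by linarith [abs_nonneg u])
    nlinarith [hK0 u]
  set k : ℝ → ℝ≥0∞ := fun u => ENNReal.ofReal (K u) with hk
  set f : ℝ → ℝ≥0∞ := fun u => ENNReal.ofReal (F u) with hf
  set w : ℝ → ℝ≥0∞ := fun t => ENNReal.ofReal (PW W (t - τ)) with hw
  have hkm : Measurable k := hK.ennreal_ofReal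
  have hfm : Measurable f := hF.ennreal_ofReal
  have hwm' : Measurable w := hwm.ennreal_ofReal
  set G : ℝ → ℝ≥0∞ := fun t => ∫⁻ u, k u * f (t - u) with hG
  have hjm : Measurable (Function.uncurry fun t u : ℝ => k u * f (t - u)) :=
    (hkm.comp measurable_snd).mul (hfm.comp (measurable_fst.sub measurable_snd))
  have hGm : Measurable G := hjm.lintegral_prod_right'
  -- on S
  have hSG : ∀ t ∈ S, ENNReal.ofReal (c * lam ^ 2) ≤ w t * G t ^ 2 := by
    intro t ht
    have h1 := hS2 t ht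
    have hint : Integrable (fun u => K u * F (t - u)) := by
      by_contra hcon
      rw [integral_undef hcon] at h1
      linarith
    have h2 : ENNReal.ofReal (∫ u, K u * F (t - u)) = G t := by
      rw [ofReal_integral_eq_lintegral_ofReal hint (Eventually.of_forall fun u => mul_nonneg (hK0 u) (hF0 _))]
      refine lintegral_congr fun u => ?_
      rw [ENNReal.ofReal_mul (hK0 u)]
    rw [ENNReal.ofReal_mul hc.le, ENNReal.ofReal_pow hlam.le]
    gcongr
    · exact ENNReal.ofReal_le_ofReal (hS t ht)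
    · rw [← h2]
      exact ENNReal.ofReal_le_ofReal h1
  -- Markov
  have hc2 : 0 < c * lam ^ 2 := by positivity
  have hmk : ENNReal.ofReal (c * lam ^ 2) * volume S ≤ ∫⁻ t, w t * G t ^ 2 := by
    refine le_trans ?_ (mul_meas_ge_le_lintegral₀ (μ := volume) (f := fun t => w t * G t ^ 2)
      (hwm'.mul (hGm.pow_const 2)).aemeasurable (ENNReal.ofReal (c * lam ^ 2)))
    exact mul_le_mul_right (measure_mono fun t ht => hSG t ht) _
  -- second moment
  have hcs : ∫⁻ t, w t * G t ^ 2 ≤ (∫⁻ u, k u) * ∫⁻ t, ∫⁻ u, w t * (k u * f (t - u) ^ 2) := by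
    rw [← lintegral_const_mul]
    · refine lintegral_mono fun t => ?_
      have h1 : G t ^ 2 ≤ (∫⁻ u, k u) * ∫⁻ u, k u * f (t - u) ^ 2 :=
        cs_dens57 hkm (hfm.comp (measurable_const.sub measurable_id))
      have hm : Measurable fun u => k u * f (t - u) ^ 2 :=
        hkm.mul ((hfm.comp (measurable_const.sub measurable_id)).pow_const 2)
      calc w t * G t ^ 2 ≤ w t * ((∫⁻ u, k u) * ∫⁻ u, k u * f (t - u) ^ 2) := by gcongr
        _ = (∫⁻ u, k u) * (w t * ∫⁻ u, k u * f (t - u) ^ 2) := by ring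
        _ = _ := by rw [lintegral_const_mul _ hm]
    · have : Measurable (Function.uncurry fun t u : ℝ => w t * (k u * f (t - u) ^ 2)) :=
        (hwm'.comp measurable_fst).mul ((hkm.comp measurable_snd).mul ((hfm.comp (measurable_fst.sub measurable_snd)).pow_const 2))
      exact this.lintegral_prod_right'
  have hsw : ∫⁻ t, ∫⁻ u, w t * (k u * f (t - u) ^ 2) = ∫⁻ u, ∫⁻ t, w t * (k u * f (t - u) ^ 2) := by
    refine lintegral_lintegral_swap ?_
    exact ((hwm'.comp measurable_fst).mul ((hkm.comp measurable_snd).mul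
      ((hfm.comp (measurable_fst.sub measurable_snd)).pow_const 2))).aemeasurable
  have hin : ∀ u : ℝ, ∫⁻ t, w t * (k u * f (t - u) ^ 2) ≤
      ENNReal.ofReal (K u * (1 + |u|) ^ 2) * ∫⁻ t, w t * f t ^ 2 := by
    intro u
    have e1 : ∫⁻ t, w t * (k u * f (t - u) ^ 2) = ∫⁻ t, w (t + u) * (k u * f t ^ 2) := by
      rw [← lintegral_add_right_eq_self (fun t => w t * (k u * f (t - u) ^ 2)) u]
      refine lintegral_congr fun t => ?_
      rw [add_sub_cancel_right]
    have hm2 : Measurable fun t => w t * f t ^ 2 := hwm'.mul (hfm.pow_const 2)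
    rw [e1, ← lintegral_const_mul _ hm2]
    refine lintegral_mono fun t => ?_
    have h1 : w (t + u) ≤ ENNReal.ofReal ((1 + |u|) ^ 2) * w t := by
      simp only [hw]
      rw [← ENNReal.ofReal_mul (by positivity)]
      exact ENNReal.ofReal_le_ofReal (pw_shift57 hW t u)
    calc w (t + u) * (k u * f t ^ 2) ≤ (ENNReal.ofReal ((1 + |u|) ^ 2) * w t) * (k u * f t ^ 2) := by gcongr
      _ = (k u * ENNReal.ofReal ((1 + |u|) ^ 2)) * (w t * f t ^ 2) := by ring
      _ = _ := by rw [ENNReal.ofReal_mul (hK0 u)]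
  have hall : ∫⁻ t, w t * G t ^ 2 ≤ (∫⁻ u, k u) * ((∫⁻ u, ENNReal.ofReal (K u * (1 + |u|) ^ 2)) * ∫⁻ t, w t * f t ^ 2) := by
    refine hcs.trans ?_
    gcongr
    rw [hsw]
    refine (lintegral_mono hin).trans (le_of_eq ?_)
    rw [lintegral_mul_const]
    exact (hK.mul (by fun_prop)).ennreal_ofReal
  -- back to real integrals
  have r1 : ∫⁻ u, k u = ENNReal.ofReal (∫ u, K u) :=
    (ofReal_integral_eq_lintegral_ofReal hKint (Eventually.of_forall hK0)).symm
  have r2 : ∫⁻ u, ENNReal.ofReal (K u * (1 + |u|) ^ 2) = ENNReal.ofReal (∫ u, K u * (1 + |u|) ^ 2) :=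
    (ofReal_integral_eq_lintegral_ofReal hKi (Eventually.of_forall fun u => mul_nonneg (hK0 u) (by positivity))).symm
  have r3 : ∫⁻ t, w t * f t ^ 2 = ENNReal.ofReal (∫ t, PW W (t - τ) * F t ^ 2) := by
    rw [ofReal_integral_eq_lintegral_ofReal hFi (Eventually.of_forall fun t => mul_nonneg (hw0 t) (sq_nonneg _))]
    refine lintegral_congr fun t => ?_
    rw [ENNReal.ofReal_mul (hw0 t), ENNReal.ofReal_pow (hF0 t)]
  have p1 : 0 ≤ ∫ u, K u := integral_nonneg hK0
  have p2 : 0 ≤ ∫ u, K u * (1 + |u|) ^ 2 := integral_nonneg fun u => mul_nonneg (hK0 u) (by positivity)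
  have p3 : 0 ≤ ∫ t, PW W (t - τ) * F t ^ 2 := integral_nonneg fun t => mul_nonneg (hw0 t) (sq_nonneg _)
  rw [r1, r2, r3, ← ENNReal.ofReal_mul p2, ← ENNReal.ofReal_mul p1] at hall
  have hfin := hmk.trans hall
  rw [ENNReal.ofReal_div_of_pos hc2]
  rw [ENNReal.le_div_iff_mul_le (Or.inl (ENNReal.ofReal_pos.2 hc2).ne') (Or.inl ENNReal.ofReal_ne_top), mul_comm]
  refine hfin.trans (le_of_eq ?_)
  rw [mul_assoc]

end Pool.Agent.Helper57.HL
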