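import Pool.Agent.Helper57.ED.CoA
import Pool.Agent.Helper57.ED.Deep

/-!
# HL-CO (P4): the constants of `corr`
-/

open MeasureTheory Set Filter Topology Complex
open Pool.Agent.Helper57.Zeta Pool.Agent.Helper57.LH Pool.Agent.Helper57.ED

namespace Pool.Agent.Helper57.HL

lemma slope57 {r x y : ℝ} (hr : 0 < r) (hx : 0 < x) (hxy : x < y) :
    (y - x) * (r * y ^ (-r - 1)) ≤ x ^ (-r) - y ^ (-r) ∧ x ^ (-r) - y ^ (-r) ≤ (y - x) * (r * x ^ (-r - 1)) := by
  have h1 : ∀ t ∈ Icc x y, HasDerivAt (fun t : ℝ => -t ^ (-r)) (r * t ^ (-r - 1)) t := by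
    intro t ht
    have h2 := (Real.hasDerivAt_rpow_const (x := t) (p := -r) (Or.inl (by linarith [ht.1]))).neg
    have : -(-r * t ^ (-r - 1)) = r * t ^ (-r - 1) := by ring
    rw [this] at h2
    exact h2
  obtain ⟨c, hc, hc2⟩ := exists_hasDerivAt_eq_slope (fun t : ℝ => -t ^ (-r)) (fun t => r * t ^ (-r - 1))
    hxy (fun t ht => (h1 t ht).continuousAt.continuousWithinAt)
    (fun t ht => h1 t (Ioo_subset_Icc_self ht))
  have hyx : 0 < y - x := by linarith
  have h3 : x ^ (-r) - y ^ (-r) = (y - x) * (r * c ^ (-r - 1)) := by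
    rw [hc2]; field_simp; ring
  rw [h3]
  constructor
  · apply mul_le_mul_of_nonneg_left _ hyx.le
    apply mul_le_mul_of_nonneg_left _ hr.le
    exact Real.rpow_le_rpow_of_nonpos (by linarith [hc.1]) hc.2.le (by linarith)
  · apply mul_le_mul_of_nonneg_left _ hyx.le
    apply mul_le_mul_of_nonneg_left _ hr.le
    exact Real.rpow_le_rpow_of_nonpos hx hc.1.le (by linarith)

/-- trapezoidal rule for `x^{-r}` -/
lemma trap57 {r x : ℝ} (hr : 0 < r) (hr1 : r < 1) (hx : 0 < x) :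
    |((x + 1) ^ (1 - r) - x ^ (1 - r)) / (1 - r) - (x ^ (-r) + (x + 1) ^ (-r)) / 2| ≤
      r / 2 * (x ^ (-r - 1) - (x + 1) ^ (-r - 1)) := by
  set M := r * (x ^ (-r - 1) - (x + 1) ^ (-r - 1)) with hM
  have hx1 : 0 < x + 1 := by linarith
  have e1 : ∫ y in x..(x + 1), y ^ (-r) = ((x + 1) ^ (1 - r) - x ^ (1 - r)) / (1 - r) := by
    rw [integral_rpow (Or.inl (by linarith))]
    congr 1
    · congr 2 <;> ring
    · ring
  have e2 : ∫ y in x..(x + 1), (x ^ (-r) + (y - x) * ((x + 1) ^ (-r) - x ^ (-r))) = (x ^ (-r) + (x + 1) ^ (-r)) / 2 := by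
    rw [intervalIntegral.integral_add (by simp) ((Continuous.intervalIntegrable (by fun_prop) _ _)),
      intervalIntegral.integral_const, intervalIntegral.integral_mul_const,
      intervalIntegral.integral_sub (Continuous.intervalIntegrable (by fun_prop) _ _) (by simp), integral_id,
      intervalIntegral.integral_const]
    simp only [smul_eq_mul]
    ring
  have i1 : IntervalIntegrable (fun y : ℝ => y ^ (-r)) volume x (x + 1) :=
    intervalIntegral.intervalIntegrable_rpow' (by linarith)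
  have i2 : IntervalIntegrable (fun y : ℝ => (x ^ (-r) + (y - x) * ((x + 1) ^ (-r) - x ^ (-r)))) volume x (x + 1) :=
    Continuous.intervalIntegrable (by fun_prop) _ _
  have e3 : ∫ y in x..(x + 1), (y - x) * M = M / 2 := by
    rw [intervalIntegral.integral_mul_const,
      intervalIntegral.integral_sub (Continuous.intervalIntegrable (by fun_prop) _ _) (by simp), integral_id,
      intervalIntegral.integral_const]
    simp only [smul_eq_mul]
    ring
  rw [← e1, ← e2, ← intervalIntegral.integral_sub i1 i2]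
  have e4 : r / 2 * (x ^ (-r - 1) - (x + 1) ^ (-r - 1)) = M / 2 := by rw [hM]; ring
  rw [e4, ← e3]
  have hle : x ≤ x + 1 := by linarith
  have key : ∀ y ∈ Ioc x (x + 1), ‖y ^ (-r) - (x ^ (-r) + (y - x) * ((x + 1) ^ (-r) - x ^ (-r)))‖ ≤ (y - x) * M := by
    intro y hy
    have hy0 : 0 < y := lt_trans hx hy.1
    obtain ⟨a1, a2⟩ := slope57 hr hx hy.1
    obtain ⟨b1, b2⟩ := slope57 hr hx (by linarith : x < x + 1)
    have hyx : 0 < y - x := by linarith [hy.1]
    have c1 : (x + 1) ^ (-r - 1) ≤ y ^ (-r - 1) := Real.rpow_le_rpow_of_nonpos hy0 hy.2 (by linarith)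
    have e5 : y ^ (-r) - (x ^ (-r) + (y - x) * ((x + 1) ^ (-r) - x ^ (-r))) =
        (y - x) * (x ^ (-r) - (x + 1) ^ (-r)) - (x ^ (-r) - y ^ (-r)) := by ring
    rw [e5, Real.norm_eq_abs, abs_le]
    have c2 : (y - x) * (r * (x + 1) ^ (-r - 1)) ≤ (y - x) * (r * y ^ (-r - 1)) :=
      mul_le_mul_of_nonneg_left (mul_le_mul_of_nonneg_left c1 hr.le) hyx.le
    have c3 : (y - x) * (x ^ (-r) - (x + 1) ^ (-r)) ≤ (y - x) * ((x + 1 - x) * (r * x ^ (-r - 1))) :=
      mul_le_mul_of_nonneg_left b2 hyx.le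
    have c4 : (y - x) * ((x + 1 - x) * (r * (x + 1) ^ (-r - 1))) ≤ (y - x) * (x ^ (-r) - (x + 1) ^ (-r)) :=
      mul_le_mul_of_nonneg_left b1 hyx.le
    rw [hM]
    constructor
    · nlinarith
    · nlinarith
  have := intervalIntegral.norm_integral_le_of_norm_le hle (ae_of_all _ (fun y hy => key y hy))
    (Continuous.intervalIntegrable (by fun_prop) _ _ : IntervalIntegrable (fun y : ℝ => (y - x) * M) volume x (x + 1))
  rwa [Real.norm_eq_abs] at this

/-- the constant `cs` -/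
lemma cs57 {σ cs : ℝ} (hσ : 1 / 2 < σ) (hσ1 : σ ≤ 3 / 4)
    (hcs : Tendsto (fun n : ℕ =>
      (n : ℝ) ^ (2 - 2 * σ) / (2 - 2 * σ) - ∑ j ∈ Finset.Icc 1 n, (j : ℝ) ^ (1 - 2 * σ)) atTop (𝓝 cs)) :
    |2 * cs - 1| ≤ 5 * (2 * σ - 1) := by
  set r : ℝ := 2 * σ - 1 with hr
  have hr0 : 0 < r := by linarith
  have hr1 : r ≤ 1 / 2 := by linarith
  have e1 : 2 - 2 * σ = 1 - r := by rw [hr]; ring
  have e2 : 1 - 2 * σ = -r := by rw [hr]; ring
  rw [e1, e2] at hcs
  set c : ℕ → ℝ := fun n : ℕ => (n : ℝ) ^ (1 - r) / (1 - r) - ∑ j ∈ Finset.Icc 1 n, (j : ℝ) ^ (-r) with hc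
  set d : ℕ → ℝ := fun n : ℕ => c (n + 1) + ((n : ℝ) + 1) ^ (-r) / 2 with hd
  have hd0 : d 0 = 1 / (1 - r) - 1 / 2 := by
    simp only [hd, hc]
    simp
    ring
  have hstep : ∀ n : ℕ, |d (n + 1) - d n| ≤ r / 2 * (((n : ℝ) + 1) ^ (-r - 1) - ((n : ℝ) + 1 + 1) ^ (-r - 1)) := by
    intro n
    have hx : (0:ℝ) < (n : ℝ) + 1 := by positivity
    refine le_trans (le_of_eq ?_) (trap57 hr0 (by linarith) hx)
    congr 1
    simp only [hd, hc]
    rw [Finset.sum_Icc_succ_top (by omega : 1 ≤ n + 1 + 1)]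
    push_cast
    ring
  have hall : ∀ n : ℕ, |d n - d 0| ≤ r / 2 * (1 - ((n : ℝ) + 1) ^ (-r - 1)) := by
    intro n
    induction n with
    | zero => simp
    | succ n ih =>
      have h := hstep n
      push_cast
      calc |d (n + 1) - d 0| = |(d (n + 1) - d n) + (d n - d 0)| := by congr 1; ring
        _ ≤ |d (n + 1) - d n| + |d n - d 0| := abs_add_le _ _
        _ ≤ _ := by linarith
  have hlim : Tendsto d atTop (𝓝 (cs + 0 / 2)) := by
    have h1 : Tendsto (fun n : ℕ => c (n + 1)) atTop (𝓝 cs) := hcs.comp (tendsto_add_atTop_nat 1)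
    have h2 : Tendsto (fun n : ℕ => ((n : ℝ) + 1) ^ (-r)) atTop (𝓝 0) :=
      (tendsto_rpow_neg_atTop hr0).comp (tendsto_atTop_add_const_right _ _ tendsto_natCast_atTop_atTop)
    exact h1.add (h2.div_const 2)
  rw [zero_div, add_zero] at hlim
  have hb : |cs - d 0| ≤ r / 2 := by
    have h3 : Tendsto (fun n => |d n - d 0|) atTop (𝓝 |cs - d 0|) := (hlim.sub_const _).abs
    refine le_of_tendsto' h3 fun n => (hall n).trans ?_
    have : 0 ≤ ((n : ℝ) + 1) ^ (-r - 1) := by positivity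
    nlinarith
  rw [hd0] at hb
  have h4 : 2 * cs - 1 = 2 * (cs - (1 / (1 - r) - 1 / 2)) + 2 * (1 / (1 - r) - 1) := by ring
  have h5 : 0 ≤ 1 / (1 - r) - 1 ∧ 1 / (1 - r) - 1 ≤ 2 * r := by
    have h6 : 1 / (1 - r) - 1 = r / (1 - r) := by
      have : (1 - r) ≠ 0 := by linarith
      field_simp
      ring
    rw [h6]
    constructor
    · apply div_nonneg hr0.le; linarith
    · rw [div_le_iff₀ (by linarith)]
      nlinarith
  rw [h4, abs_le]
  have h7 := abs_le.1 hb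
  constructor
  · linarith [h7.1, h5.1]
  · linarith [h7.2, h5.2]

lemma lipG57 {l τ : ℝ} (hl : 1 ≤ l) {a b : ℝ} (ha : a ∈ Ioc (0:ℝ) 1) (hb : b ∈ Ioc (0:ℝ) 1) :
    |a ^ l * Real.cos (τ * Real.log a) - b ^ l * Real.cos (τ * Real.log b)| ≤ (l + |τ|) * |a - b| := by
  have hd : ∀ x ∈ Ioc (0:ℝ) 1, HasDerivWithinAt (fun x : ℝ => x ^ l * Real.cos (τ * Real.log x))
      (l * x ^ (l - 1) * Real.cos (τ * Real.log x) + x ^ l * (-Real.sin (τ * Real.log x) * (τ * x⁻¹)))
      (Ioc 0 1) x := by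
    intro x hx
    have h1 : HasDerivAt (fun x : ℝ => x ^ l) (l * x ^ (l - 1)) x :=
      Real.hasDerivAt_rpow_const (Or.inl hx.1.ne')
    have h2 : HasDerivAt (fun x : ℝ => τ * Real.log x) (τ * x⁻¹) x :=
      (Real.hasDerivAt_log hx.1.ne').const_mul τ
    exact (h1.mul h2.cos).hasDerivWithinAt
  have hbd : ∀ x ∈ Ioc (0:ℝ) 1, ‖l * x ^ (l - 1) * Real.cos (τ * Real.log x) +
      x ^ l * (-Real.sin (τ * Real.log x) * (τ * x⁻¹))‖ ≤ l + |τ| := by
    intro x hx
    have hx1 : x ^ (l - 1) ≤ 1 := Real.rpow_le_one hx.1.le hx.2 (by linarith)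
    have hx0 : 0 ≤ x ^ (l - 1) := Real.rpow_nonneg hx.1.le _
    have e : x ^ l * (-Real.sin (τ * Real.log x) * (τ * x⁻¹)) =
        -(x ^ (l - 1) * Real.sin (τ * Real.log x) * τ) := by
      rw [Real.rpow_sub_one hx.1.ne' l]
      field_simp
    rw [e]
    refine (norm_add_le _ _).trans ?_
    rw [norm_neg]
    simp only [Real.norm_eq_abs, abs_mul]
    rw [abs_of_nonneg hx0, abs_of_nonneg (by linarith : (0:ℝ) ≤ l)]
    have hc := Real.abs_cos_le_one (τ * Real.log x)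
    have hs := Real.abs_sin_le_one (τ * Real.log x)
    have a1 : l * x ^ (l - 1) * |Real.cos (τ * Real.log x)| ≤ l * 1 * 1 := by gcongr
    have a2 : x ^ (l - 1) * |Real.sin (τ * Real.log x)| * |τ| ≤ 1 * 1 * |τ| := by gcongr
    linarith
  have := Convex.norm_image_sub_le_of_norm_hasDerivWithin_le hd hbd (convex_Ioc 0 1) hb ha
  simpa [Real.norm_eq_abs] using this

/-- the constant `bet` -/
lemma bet57 {l τ σ : ℝ} (hl : 1 ≤ l) (hσ : 1 / 2 < σ) :
    |bet l τ σ - l ^ (1 - 2 * σ) / (2 * σ - 1)| ≤ 2 + |τ| / l := by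
  have hl0 : 0 < l := by linarith
  have hs : 0 < 2 * σ - 1 := by linarith
  have hmeas : Measurable (qq l τ σ 1) := by unfold qq; fun_prop
  have hqb : ∀ x : ℝ, 1 < x → |qq l τ σ 1 x| ≤ (1 - 1 / x) ^ l * x ^ (-2 * σ) := by
    intro x hx
    have hx0 : 0 < x := by linarith
    have h1 : 1 / x ≤ 1 := by rw [div_le_one hx0]; exact hx.le
    have h2 : 0 ≤ (1 - 1 / x) ^ l := Real.rpow_nonneg (by linarith) _
    unfold qq
    rw [abs_mul, abs_mul, abs_of_nonneg h2, abs_of_nonneg (Real.rpow_nonneg hx0.le _)]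
    calc (1 - 1 / x) ^ l * |Real.cos (τ * Real.log (1 - 1 / x))| * x ^ (-2 * σ) ≤
          (1 - 1 / x) ^ l * 1 * x ^ (-2 * σ) := by
            gcongr
            exact Real.abs_cos_le_one _
      _ = _ := by ring
  have hint : IntegrableOn (qq l τ σ 1) (Ioi 1) := by
    refine Integrable.mono' (integrableOn_Ioi_rpow_of_lt (by linarith : -2 * σ < -1) one_pos) hmeas.aestronglyMeasurable ?_
    filter_upwards [ae_restrict_mem measurableSet_Ioi] with x hx
    have hx1 : 1 < x := hx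
    have hx0 : 0 < x := by linarith
    have h1 : 1 / x ≤ 1 := by rw [div_le_one hx0]; exact hx1.le
    have h2 : 0 ≤ 1 / x := by positivity
    refine (hqb x hx1).trans ?_
    calc (1 - 1 / x) ^ l * x ^ (-2 * σ) ≤ 1 * x ^ (-2 * σ) := by
          gcongr
          exact Real.rpow_le_one (by linarith) (by linarith) (by linarith)
      _ = _ := one_mul _
  -- split at l
  have hsplit : bet l τ σ = (∫ x in Ioc 1 l, qq l τ σ 1 x) + ∫ x in Ioi l, qq l τ σ 1 x := by
    unfold bet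
    rw [← Ioc_union_Ioi_eq_Ioi hl, setIntegral_union (Ioc_disjoint_Ioi le_rfl) measurableSet_Ioi
      (hint.mono_set Ioc_subset_Ioi_self) (hint.mono_set (Ioi_subset_Ioi hl))]
  have hA : |∫ x in Ioc 1 l, qq l τ σ 1 x| ≤ 1 := by
    have h1 : ∀ x ∈ Ioc 1 l, ‖qq l τ σ 1 x‖ ≤ 1 / l := by
      intro x hx
      have hx1 : 1 < x := hx.1
      have hx0 : 0 < x := by linarith
      have h1 : 1 / x ≤ 1 := by rw [div_le_one hx0]; exact hx1.le
      refine (hqb x hx1).trans ?_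
      have h3 : (1 - 1 / x) ^ l ≤ x / l := by
        have h4 : (1 - 1 / x) ^ l ≤ Real.exp (-(1 / x)) ^ l := by
          refine Real.rpow_le_rpow (by linarith) ?_ hl0.le
          have := Real.add_one_le_exp (-(1 / x))
          linarith
        refine h4.trans ?_
        rw [← Real.exp_mul]
        have h5 : l / x ≤ Real.exp (l / x) := by
          have := Real.add_one_le_exp (l / x)
          linarith
        have h6 : Real.exp (-(1 / x) * l) * Real.exp (l / x) = 1 := by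
          rw [← Real.exp_add]
          have : -(1 / x) * l + l / x = 0 := by ring
          rw [this, Real.exp_zero]
        have h7 := Real.exp_pos (-(1 / x) * l)
        rw [le_div_iff₀ hl0]
        have h8 : Real.exp (-(1 / x) * l) * (l / x) ≤ 1 :=
          (mul_le_mul_of_nonneg_left h5 h7.le).trans h6.le
        have h9 : Real.exp (-(1 / x) * l) * (l / x) = Real.exp (-(1 / x) * l) * l / x := by ring
        rw [h9, div_le_one hx0] at h8
        exact h8
      have h10 : x ^ (-2 * σ) ≤ x ^ (-1 : ℝ) := Real.rpow_le_rpow_of_exponent_le hx1.le (by linarith)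
      calc (1 - 1 / x) ^ l * x ^ (-2 * σ) ≤ x / l * x ^ (-1 : ℝ) :=
            mul_le_mul h3 h10 (Real.rpow_nonneg hx0.le _) (by positivity)
        _ = 1 / l := by
            rw [Real.rpow_neg_one]
            field_simp
    have h2 := norm_setIntegral_le_of_norm_le_const (μ := volume) (s := Ioc 1 l) (by simp) h1
    rw [Real.norm_eq_abs] at h2
    refine h2.trans ?_
    rw [Real.volume_real_Ioc_of_le hl]
    rw [div_mul_eq_mul_div, one_mul, div_le_one hl0]
    linarith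
  have hC : ∫ x in Ioi l, x ^ (-2 * σ) = l ^ (1 - 2 * σ) / (2 * σ - 1) := by
    rw [integral_Ioi_rpow_of_lt (by linarith) hl0]
    have e1 : -2 * σ + 1 = -(2 * σ - 1) := by ring
    have e2 : 1 - 2 * σ = -(2 * σ - 1) := by ring
    rw [e1, e2]
    field_simp
  have hi3 : IntegrableOn (fun x : ℝ => x ^ (-2 * σ)) (Ioi l) := integrableOn_Ioi_rpow_of_lt (by linarith) hl0
  have hB : |(∫ x in Ioi l, qq l τ σ 1 x) - ∫ x in Ioi l, x ^ (-2 * σ)| ≤ 1 + |τ| / l := by
    rw [← integral_sub (hint.mono_set (Ioi_subset_Ioi hl)) hi3]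
    have hi4 : IntegrableOn (fun x : ℝ => (l + |τ|) * x ^ (-2 : ℝ)) (Ioi l) :=
      (integrableOn_Ioi_rpow_of_lt (by norm_num) hl0).const_mul _
    have h1 : ∀ x ∈ Ioi l, ‖qq l τ σ 1 x - x ^ (-2 * σ)‖ ≤ (l + |τ|) * x ^ (-2 : ℝ) := by
      intro x hx
      have hxl : l < x := hx
      have hx1 : 1 < x := by linarith
      have hx0 : 0 < x := by linarith
      have h1 : 1 / x < 1 := by rw [div_lt_one hx0]; exact hx1
      have h2 : 0 < 1 / x := by positivity
      have h3 := lipG57 (τ := τ) hl (a := 1 - 1 / x) (b := 1) ⟨by linarith, by linarith⟩ ⟨one_pos, le_rfl⟩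
      rw [Real.log_one, mul_zero, Real.cos_zero, Real.one_rpow, mul_one] at h3
      have h4 : |1 - 1 / x - 1| = 1 / x := by
        rw [show 1 - 1 / x - 1 = -(1 / x) by ring, abs_neg, abs_of_pos h2]
      rw [h4] at h3
      have h5 : qq l τ σ 1 x - x ^ (-2 * σ) =
          ((1 - 1 / x) ^ l * Real.cos (τ * Real.log (1 - 1 / x)) - 1) * x ^ (-2 * σ) := by
        unfold qq; ring
      have h10 : x ^ (-2 * σ) ≤ x ^ (-1 : ℝ) := Real.rpow_le_rpow_of_exponent_le hx1.le (by linarith)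
      rw [h5, norm_mul, Real.norm_eq_abs, Real.norm_of_nonneg (Real.rpow_nonneg hx0.le _)]
      have h11 : 0 ≤ l + |τ| := by positivity
      calc |(1 - 1 / x) ^ l * Real.cos (τ * Real.log (1 - 1 / x)) - 1| * x ^ (-2 * σ) ≤
            (l + |τ|) * (1 / x) * x ^ (-1 : ℝ) := mul_le_mul h3 h10 (Real.rpow_nonneg hx0.le _) (by positivity)
        _ = (l + |τ|) * x ^ (-2 : ℝ) := by
            rw [show (-2 : ℝ) = -1 + -1 by norm_num, Real.rpow_add hx0, Real.rpow_neg_one]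
            ring
    have h2 : |∫ x in Ioi l, (qq l τ σ 1 x - x ^ (-2 * σ))| ≤ ∫ x in Ioi l, (l + |τ|) * x ^ (-2 : ℝ) := by
      have := norm_integral_le_of_norm_le hi4 ((ae_restrict_iff' measurableSet_Ioi).2 (Eventually.of_forall h1))
      rwa [Real.norm_eq_abs] at this
    refine h2.trans (le_of_eq ?_)
    rw [integral_const_mul, integral_Ioi_rpow_of_lt (by norm_num) hl0]
    norm_num
    rw [Real.rpow_neg_one]
    field_simp
  rw [hC] at hB
  rw [hsplit]
  calc |(∫ x in Ioc 1 l, qq l τ σ 1 x) + (∫ x in Ioi l, qq l τ σ 1 x) - l ^ (1 - 2 * σ) / (2 * σ - 1)| =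
        |(∫ x in Ioc 1 l, qq l τ σ 1 x) + ((∫ x in Ioi l, qq l τ σ 1 x) - l ^ (1 - 2 * σ) / (2 * σ - 1))| := by
          congr 1; ring
    _ ≤ _ := abs_add_le _ _
    _ ≤ 1 + (1 + |τ| / l) := add_le_add hA hB
    _ = _ := by ring

/-- **P4**: `corr` with its constant. -/
theorem corr_c {l τ σ : ℝ} (hl : 1 ≤ l) (hσ : 1 / 2 < σ) (hσ1 : σ ≤ 3 / 4) :
    ∃ c : ℝ, 0 ≤ c ∧ |c - l ^ (1 - 2 * σ) / (2 * σ - 1)| ≤ 13 * (1 + |τ| / l) ∧ ∀ h k : ℕ, 1 ≤ h → 1 ≤ k →
      |2 * (l + σ) * Cc (l - τ * I) σ h k -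
        (zs σ * (Nat.lcm h k : ℝ) ^ (-2 * σ) - c * ((Nat.gcd h k : ℝ) ^ (1 - 2 * σ) / Nat.lcm h k))| ≤
      15 * (1 + |τ| / l) / (l * (2 * σ - 1)) := by
  obtain ⟨cs, hcs0, hcs⟩ := exists_cs hσ (by linarith : σ < 1)
  have hb := bet_nonneg (τ := τ) hl hσ (by linarith : σ < 1)
  refine ⟨2 * (bet l τ σ * cs), by positivity, ?_, fun h k hh hk => ?_⟩
  · have hc := cs57 hσ hσ1 hcs
    have hbt := bet57 (τ := τ) hl hσ
    have hs : 0 < 2 * σ - 1 := by linarith
    have hl0 : 0 < l := by linarith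
    have ht : 0 ≤ |τ| / l := by positivity
    have hp : l ^ (1 - 2 * σ) ≤ 1 := Real.rpow_le_one_of_one_le_of_nonpos hl (by linarith)
    have hp0 : 0 < l ^ (1 - 2 * σ) := Real.rpow_pos_of_pos hl0 _
    have h1 : bet l τ σ * (2 * σ - 1) ≤ 1 + (2 + |τ| / l) * (1 / 2) := by
      have h2 := (abs_le.1 hbt).2
      have h3 : bet l τ σ ≤ l ^ (1 - 2 * σ) / (2 * σ - 1) + (2 + |τ| / l) := by linarith
      have h4 := mul_le_mul_of_nonneg_right h3 hs.le
      have h5 : (l ^ (1 - 2 * σ) / (2 * σ - 1) + (2 + |τ| / l)) * (2 * σ - 1) =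
          l ^ (1 - 2 * σ) + (2 + |τ| / l) * (2 * σ - 1) := by
        field_simp
      rw [h5] at h4
      have h6 : (2 + |τ| / l) * (2 * σ - 1) ≤ (2 + |τ| / l) * (1 / 2) :=
        mul_le_mul_of_nonneg_left (by linarith) (by linarith)
      linarith
    have h7 : 2 * (bet l τ σ * cs) - l ^ (1 - 2 * σ) / (2 * σ - 1) =
        bet l τ σ * (2 * cs - 1) + (bet l τ σ - l ^ (1 - 2 * σ) / (2 * σ - 1)) := by ring
    rw [h7]
    have h8 : |bet l τ σ * (2 * cs - 1)| ≤ 5 * (1 + (2 + |τ| / l) * (1 / 2)) := by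
      rw [abs_mul, abs_of_nonneg hb]
      calc bet l τ σ * |2 * cs - 1| ≤ bet l τ σ * (5 * (2 * σ - 1)) := mul_le_mul_of_nonneg_left hc hb
        _ = 5 * (bet l τ σ * (2 * σ - 1)) := by ring
        _ ≤ _ := by linarith
    calc _ ≤ |bet l τ σ * (2 * cs - 1)| + |bet l τ σ - l ^ (1 - 2 * σ) / (2 * σ - 1)| := abs_add_le _ _
      _ ≤ 5 * (1 + (2 + |τ| / l) * (1 / 2)) + (2 + |τ| / l) := add_le_add h8 hbt
      _ ≤ _ := by linarith
  set g := Nat.gcd h k with hg
  set P := Nat.lcm h k with hP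
  have hg1 : 1 ≤ g := Nat.gcd_pos_of_pos_left _ hh
  have hP1 : 1 ≤ P := Nat.lcm_pos hh hk
  have hz : 0 < ((l : ℂ) - τ * I).re := by simp; linarith
  have t1 := cc_lim hz (by linarith : 0 < σ) (by linarith : σ < 1) hh hk (l + σ)
  have s1 : Tendsto (fun n : ℕ => g * (P * n)) atTop atTop := by
    apply tendsto_atTop_mono (fun n => ?_) tendsto_id
    calc n = 1 * (1 * n) := by ring
      _ ≤ g * (P * n) := Nat.mul_le_mul hg1 (Nat.mul_le_mul hP1 le_rfl)
  have s2 : Tendsto (fun n : ℕ => g * n) atTop atTop := by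
    apply tendsto_atTop_mono (fun n => ?_) tendsto_id
    calc n = 1 * n := by ring
      _ ≤ g * n := Nat.mul_le_mul hg1 le_rfl
  have s3 : Tendsto (fun n : ℕ => P * n) atTop atTop := by
    apply tendsto_atTop_mono (fun n => ?_) tendsto_id
    calc n = 1 * n := by ring
      _ ≤ P * n := Nat.mul_le_mul hP1 le_rfl
  have t2 := (diag_lim hσ hP1).comp s2
  have t3 := (psi_lim (τ := τ) hl hσ (by linarith : σ < 1) hcs hg1).comp s3
  have t4 := (t1.comp s1).sub (t2.add (t3.const_mul (2 / (P:ℝ))))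
  have t5 := t4.abs
  have t6 := le_of_tendsto t5 (b := 15 * (1 + |τ| / l) / (l * (2 * σ - 1))) ?_
  · refine le_trans (le_of_eq ?_) t6
    congr 1
    have : (P:ℝ) ≠ 0 := by positivity
    field_simp
    ring
  · filter_upwards [eventually_ge_atTop 1] with n hn
    exact fin_corr hl hσ hσ1 hh hk hn rfl

/-- the constant `zs` -/
theorem zs_c {σ : ℝ} (hσ : 1 / 2 < σ) : 1 / (2 * σ - 1) ≤ zs σ ∧ zs σ ≤ 1 / (2 * σ - 1) + 1 := by
  refine ⟨zs_ge hσ, ?_⟩
  have h := zs_tail hσ (le_refl 1)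
  simp only [Finset.Icc_self, Finset.sum_singleton, Nat.cast_one, Real.one_rpow] at h
  linarith

end Pool.Agent.Helper57.HL
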