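import Pool.Agent.Helper57.HL.Fs
import Pool.Agent.Helper49.HG.Wir

/-!
# HL-FA: mass of `|ζ A|²` on the long gaps of the zeros on the critical line
-/

open MeasureTheory Set Filter Topology Complex
open Pool.Agent.Helper57.Zeta Pool.Agent.Helper57.LH Pool.Agent.Helper57.ED Pool.Agent.Helper49.HG

namespace Pool.Agent.Helper57.HL

/-- ordinates of the zeros on the critical line -/
def Z0 : Set ℝ := {t : ℝ | riemannZeta (1 / 2 + t * I) = 0}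

lemma half_ne57 (t : ℝ) : (1 / 2 + t * I : ℂ) ≠ 1 := by
  intro h
  have := congrArg Complex.re h
  simp at this

lemma zline_cont57 : Continuous (fun t : ℝ => riemannZeta (1 / 2 + t * I)) := by
  have hd : DifferentiableOn ℂ riemannZeta {s : ℂ | s ≠ 1} := fun s hs =>
    (differentiableAt_riemannZeta hs).differentiableWithinAt
  exact hd.continuousOn.comp_continuous (by fun_prop) (fun t => half_ne57 t)

lemma Z0_closed57 : IsClosed Z0 := isClosed_eq zline_cont57 continuous_const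

/-- `f(t) = e^{iμt} ζ(1/2+it) Mo(1/2+it)` -/
noncomputable def fl57 (X : ℕ) (a : ℕ → ℝ) (μ t : ℝ) : ℂ :=
  Complex.exp (I * μ * t) * (riemannZeta (1 / 2 + t * I) * Mo X a (1 / 2 + t * I))

/-- its derivative -/
noncomputable def fd57 (X : ℕ) (a : ℕ → ℝ) (μ t : ℝ) : ℂ :=
  I * Complex.exp (I * μ * t) * ((μ : ℂ) * (riemannZeta (1 / 2 + t * I) * Mo X a (1 / 2 + t * I)) +
    deriv (fun s => riemannZeta s * Mo X a s) (1 / 2 + t * I))

lemma fl_norm57 (X : ℕ) (a : ℕ → ℝ) (μ t : ℝ) :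
    ‖fl57 X a μ t‖ = ‖riemannZeta (1 / 2 + t * I) * Mo X a (1 / 2 + t * I)‖ := by
  unfold fl57
  rw [norm_mul, norm_exp_I_mul, one_mul]

lemma fd_norm57 (X : ℕ) (a : ℕ → ℝ) (μ t : ℝ) :
    ‖fd57 X a μ t‖ = ‖(μ : ℂ) * (riemannZeta (1 / 2 + t * I) * Mo X a (1 / 2 + t * I)) +
      deriv (fun s => riemannZeta s * Mo X a s) (1 / 2 + t * I)‖ := by
  unfold fd57
  rw [norm_mul, norm_mul, norm_I, norm_exp_I_mul, one_mul, one_mul]

lemma fl_deriv57 (X : ℕ) (a : ℕ → ℝ) (μ t : ℝ) : HasDerivAt (fl57 X a μ) (fd57 X a μ t) t := by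
  have h1 : HasDerivAt (fun t : ℝ => (1 / 2 + t * I : ℂ)) I t := by
    have := ((hasDerivAt_id t).ofReal_comp.mul_const I).const_add (1 / 2 : ℂ)
    simpa using this
  have h2 : HasDerivAt (fun t : ℝ => riemannZeta (1 / 2 + t * I) * Mo X a (1 / 2 + t * I))
      (deriv (fun s => riemannZeta s * Mo X a s) (1 / 2 + t * I) * I) t :=
    HasDerivAt.comp (h₂ := fun s => riemannZeta s * Mo X a s) t (zM_diff57 X a (half_ne57 t)).hasDerivAt h1
  have h3 : HasDerivAt (fun t : ℝ => Complex.exp (I * μ * t)) (Complex.exp (I * μ * t) * (I * μ)) t := by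
    have h4 : HasDerivAt (fun t : ℝ => (I * μ * t : ℂ)) (I * μ) t := by
      have := (hasDerivAt_id t).ofReal_comp.const_mul (I * μ : ℂ)
      simpa using this
    exact h4.cexp
  have h5 := h3.mul h2
  refine h5.congr_deriv ?_
  unfold fd57
  ring

lemma fd_cont57 (X : ℕ) (a : ℕ → ℝ) (μ : ℝ) : Continuous (fd57 X a μ) := by
  have c0 : Continuous (fun t : ℝ => (1 / 2 + t * I : ℂ)) := by fun_prop
  have hU : IsOpen {s : ℂ | s ≠ 1} := isOpen_ne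
  have hd : DifferentiableOn ℂ (fun s => riemannZeta s * Mo X a s) {s : ℂ | s ≠ 1} := fun s hs =>
    (zM_diff57 X a hs).differentiableWithinAt
  have c1 : ContinuousOn (fun s => riemannZeta s * Mo X a s) {s : ℂ | s ≠ 1} := hd.continuousOn
  have c2 : ContinuousOn (deriv (fun s => riemannZeta s * Mo X a s)) {s : ℂ | s ≠ 1} := (hd.deriv hU).continuousOn
  have c3 : Continuous (fun t : ℝ => riemannZeta (1 / 2 + t * I) * Mo X a (1 / 2 + t * I)) :=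
    c1.comp_continuous c0 half_ne57
  have c4 : Continuous (fun t : ℝ => deriv (fun s => riemannZeta s * Mo X a s) (1 / 2 + t * I)) :=
    c2.comp_continuous c0 half_ne57
  unfold fd57
  exact (continuous_const.mul (by fun_prop)).mul ((continuous_const.mul c3).add c4)

lemma PW_cont57 {W : ℝ} (hW : 0 < W) (τ : ℝ) : Continuous (fun t : ℝ => PW W (t - τ)) := by
  unfold PW
  refine continuous_const.div (by fun_prop) fun t => ?_
  have := Real.pi_pos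
  positivity

/-- the two mean values at `σ = 1/2` -/
lemma mv57 (X : ℕ) (a : ℕ → ℝ) {l : ℝ} (τ : ℝ) (hl : 0 < l) :
    Integrable (fun t : ℝ => PW (l + 1 / 2) (t - τ) * ‖riemannZeta (1 / 2 + t * I) * Mo X a (1 / 2 + t * I)‖ ^ 2) ∧
    ∫ t : ℝ, PW (l + 1 / 2) (t - τ) * ‖riemannZeta (1 / 2 + t * I) * Mo X a (1 / 2 + t * I)‖ ^ 2 = Fs X a l τ (1 / 2) := by
  have h := hl_planch X a (σ := 1 / 2) τ (by norm_num) (by norm_num) hl
  have e : ((1 / 2 : ℝ) : ℂ) = 1 / 2 := by push_cast; ring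
  simp only [e] at h
  exact h

/-- final arithmetic -/
lemma arith57 {F Φ1 K c0 Λ e ε δ E m R : ℝ} (he0 : 0 < e) (he1 : e ≤ 1) (he2 : e * (K + 1) ≤ c0 / 24)
    (hε0 : 0 < ε) (hε2 : ε * (1 + 4 * Λ) ≤ c0 / 16) (hΛ0 : 0 < Λ) (hδp : 0 < δ) (hE0 : 0 ≤ E)
    (hδd : δ * (E + 1) ≤ c0 / 16) (hm0 : 0 ≤ m) (hc0 : 0 < c0) (hΦ : Φ1 ≤ K)
    (hch2 : F ≤ (1 + e) * (Λ * ((1 + e) * m) + δ * E / 2) + R) (hF1 : Φ1 - ε ≤ F)
    (hΛm : Λ * m ≤ Φ1 - c0 + Λ * ε) : c0 / 2 ≤ R := by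
  have hΛm0 : 0 ≤ Λ * m := by positivity
  have q1 : ε * (1 + 4 * Λ) = ε + 4 * (Λ * ε) := by ring
  have q2 : 0 ≤ Λ * ε := by positivity
  have q3 : ε ≤ c0 / 16 := by linarith
  have q4 : Λ * ε ≤ c0 / 64 := by linarith
  have hΛm1 : Λ * m ≤ K + 1 := by linarith
  have hsq : (1 + e) * (1 + e) ≤ 1 + 3 * e := by
    have : e * e ≤ 1 * e := mul_le_mul_of_nonneg_right he1 he0.le
    have h2 : (1 + e) * (1 + e) = 1 + 2 * e + e * e := by ring
    linarith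
  have k1 : (1 + e) * (Λ * ((1 + e) * m)) ≤ Λ * m + 3 * (e * (K + 1)) := by
    have h1 : (1 + e) * (Λ * ((1 + e) * m)) = ((1 + e) * (1 + e)) * (Λ * m) := by ring
    rw [h1]
    have h5 : ((1 + e) * (1 + e)) * (Λ * m) ≤ (1 + 3 * e) * (Λ * m) := mul_le_mul_of_nonneg_right hsq hΛm0
    have h6 : 3 * e * (Λ * m) ≤ 3 * e * (K + 1) := mul_le_mul_of_nonneg_left hΛm1 (by positivity)
    have h7 : (1 + 3 * e) * (Λ * m) = Λ * m + 3 * e * (Λ * m) := by ring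
    have h8 : 3 * e * (K + 1) = 3 * (e * (K + 1)) := by ring
    linarith
  have q5 : 0 ≤ δ * E := by positivity
  have k2 : (1 + e) * (δ * E / 2) ≤ δ * E := by
    have h1 : (1 + e) * (δ * E / 2) = δ * E / 2 + e * (δ * E) / 2 := by ring
    have h2 : e * (δ * E) ≤ 1 * (δ * E) := mul_le_mul_of_nonneg_right he1 q5
    linarith
  have q6 : δ * (E + 1) = δ * E + δ := by ring
  have k3 : δ * E ≤ c0 / 16 := by linarith
  have k5 : (1 + e) * (Λ * ((1 + e) * m) + δ * E / 2) = (1 + e) * (Λ * ((1 + e) * m)) + (1 + e) * (δ * E / 2) := by ring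
  rw [k5] at hch2
  linarith

/-- mass on the long gaps, Poisson weight -/
theorem fa_mass {b K ν lam c0 : ℝ} (hb : 0 < b) (hK : 0 ≤ K) (hlam : 0 < lam) (hc0 : 0 < c0) :
    ∃ x0 : ℝ, 0 < x0 ∧ ∀ x : ℝ, 0 < x → x ≤ x0 → ∃ δ : ℝ, 0 < δ ∧
      ∀ (X : ℕ) (a : ℕ → ℝ) (l τ L Φ1 Φ2 Φ3 : ℝ), 1 ≤ l → 1 / δ ≤ l → 1 ≤ L → |τ| ≤ K * l →
        S1 X a ^ 2 ≤ δ * l → S1 X a ^ 2 * l ≤ δ * Real.exp (b * L) →
        |Φ1| ≤ K → |Φ2| ≤ K → |Φ3| ≤ K →
        |Fs X a l τ (1 / 2 + x / L) - Φ1| ≤ δ → |Fs X a l τ (1 / 2 + 2 * x / L) - Φ2| ≤ δ →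
        |Fs X a l τ (1 / 2 + 3 * x / L) - Φ3| ≤ δ →
        4 * lam ^ 2 * (ν ^ 2 * Φ1 - 2 * ν * ((Φ1 - Φ2) / (2 * x)) + (Φ1 - 2 * Φ2 + Φ3) / (4 * x ^ 2)) ≤ Φ1 - c0 →
        Fs X a l τ (1 / 2) ≤ K + 1 ∧
        c0 / 2 ≤ ∫ t in LongSet Z0 (2 * Real.pi * lam / L),
          PW (l + 1 / 2) (t - τ) * ‖riemannZeta (1 / 2 + t * I) * Mo X a (1 / 2 + t * I)‖ ^ 2 := by
  -- choice of e and ε
  obtain ⟨Λ, hΛ⟩ : ∃ Λ : ℝ, Λ = 4 * lam ^ 2 := ⟨_, rfl⟩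
  have hΛ0 : 0 < Λ := by rw [hΛ]; positivity
  obtain ⟨e, he⟩ : ∃ e : ℝ, e = min 1 (c0 / (24 * (K + 1))) := ⟨_, rfl⟩
  have he0 : 0 < e := by rw [he]; positivity
  have he1 : e ≤ 1 := by rw [he]; exact min_le_left _ _
  have he2 : e * (K + 1) ≤ c0 / 24 := by
    have : e ≤ c0 / (24 * (K + 1)) := by rw [he]; exact min_le_right _ _
    rw [le_div_iff₀ (by positivity)] at this
    linarith
  obtain ⟨ε, hε⟩ : ∃ ε : ℝ, ε = min 1 (c0 / (16 * (1 + 4 * Λ))) := ⟨_, rfl⟩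
  have hε0 : 0 < ε := by rw [hε]; positivity
  have hε1 : ε ≤ 1 := by rw [hε]; exact min_le_left _ _
  have hε2 : ε * (1 + 4 * Λ) ≤ c0 / 16 := by
    have : ε ≤ c0 / (16 * (1 + 4 * Λ)) := by rw [hε]; exact min_le_right _ _
    rw [le_div_iff₀ (by positivity)] at this
    linarith
  obtain ⟨x0, hx0, hx⟩ := hl_spec (b := b) (K := K) (ν := ν) hb hK hε0
  refine ⟨x0, hx0, fun x hxp hxx => ?_⟩
  obtain ⟨δ0, hδ0, hδ⟩ := hx x hxp hxx
  obtain ⟨E, hE⟩ : ∃ E : ℝ, E = 2 * Λ * (1 + 1 / e) * (K + 1) := ⟨_, rfl⟩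
  have hE0 : 0 ≤ E := by rw [hE]; positivity
  obtain ⟨δ, hδe⟩ : ∃ δ : ℝ, δ = min δ0 (min (min 1 (e / (2 * (2 * Real.pi * lam)))) (c0 / (16 * (E + 1)))) := ⟨_, rfl⟩
  have hpi := Real.pi_pos
  have hδp : 0 < δ := by rw [hδe]; positivity
  have hδa : δ ≤ δ0 := by rw [hδe]; exact min_le_left _ _
  have hδ' : δ ≤ min (min 1 (e / (2 * (2 * Real.pi * lam)))) (c0 / (16 * (E + 1))) := by rw [hδe]; exact min_le_right _ _
  have hδb : δ ≤ 1 := hδ'.trans ((min_le_left _ _).trans (min_le_left _ _))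
  have hδc : δ * (2 * Real.pi * lam) ≤ e / 2 := by
    have : δ ≤ e / (2 * (2 * Real.pi * lam)) := hδ'.trans ((min_le_left _ _).trans (min_le_right _ _))
    rw [le_div_iff₀ (by positivity)] at this
    linarith
  have hδd : δ * (E + 1) ≤ c0 / 16 := by
    have : δ ≤ c0 / (16 * (E + 1)) := hδ'.trans (min_le_right _ _)
    rw [le_div_iff₀ (by positivity)] at this
    linarith
  refine ⟨δ, hδp, fun X a l τ L Φ1 Φ2 Φ3 hl hlδ hL hτ hS hS' hK1 hK2 hK3 h1 h2 h3 hnum => ?_⟩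
  have hl0 : 0 < l := by linarith
  have hL0 : 0 < L := by linarith
  have hlδ' : 1 ≤ δ * l := by
    rw [div_le_iff₀ hδp] at hlδ
    linarith
  obtain ⟨s1, s2⟩ := hδ X a l τ L Φ1 Φ2 Φ3 hl (le_trans (one_div_le_one_div_of_le hδp hδa) hlδ) hL hτ
    (hS.trans (mul_le_mul_of_nonneg_right hδa hl0.le))
    (hS'.trans (mul_le_mul_of_nonneg_right hδa (Real.exp_pos _).le)) hK1 hK2 hK3
    (h1.trans hδa) (h2.trans hδa) (h3.trans hδa)
  have hFsK : Fs X a l τ (1 / 2) ≤ K + 1 := by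
    have a1 := (abs_le.1 s1).2
    have a2 := (abs_le.1 hK1).2
    linarith
  refine ⟨hFsK, ?_⟩
  obtain ⟨D, hD⟩ : ∃ D : ℝ, D = 2 * Real.pi * lam / L := ⟨_, rfl⟩
  rw [← hD]
  have hD0 : 0 < D := by rw [hD]; positivity
  obtain ⟨W, hW⟩ : ∃ W : ℝ, W = l + 1 / 2 := ⟨_, rfl⟩
  have hW0 : 0 < W := by rw [hW]; positivity
  have hDW : D / W + (D / W) ^ 2 ≤ e := by
    have h5 : D / W ≤ e / 2 := by
      rw [div_le_iff₀ hW0]
      have h6 : D ≤ 2 * Real.pi * lam := by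
        rw [hD]; exact div_le_self (by positivity) hL
      have h7 : 2 * Real.pi * lam ≤ (e / 2) * l := by
        have h8 : (δ * l) * (2 * Real.pi * lam) ≤ (e / 2) * l := by
          have := mul_le_mul_of_nonneg_right hδc hl0.le
          linarith
        have h9 : 1 * (2 * Real.pi * lam) ≤ (δ * l) * (2 * Real.pi * lam) :=
          mul_le_mul_of_nonneg_right hlδ' (by positivity)
        linarith
      have h10 : (e / 2) * l ≤ (e / 2) * W := mul_le_mul_of_nonneg_left (by rw [hW]; linarith) (by positivity)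
      linarith
    have h6 : 0 ≤ D / W := by positivity
    nlinarith
  -- the chain
  have hmv := mv57 X a τ hl0
  have hdv := hl_deriv X a (σ := 1 / 2) τ (ν * L) (by norm_num) (by norm_num) hl0 he0
  have ehalf : ((1 / 2 : ℝ) : ℂ) = 1 / 2 := by push_cast; ring
  simp only [ehalf] at hdv
  have hch := chain (E := ℂ) Z0_closed57 (D := D) (e := e) he0.le (f := fl57 X a (ν * L)) (f' := fd57 X a (ν * L))
    (w := fun t => PW W (t - τ)) (fl_deriv57 X a (ν * L)) (fd_cont57 X a (ν * L))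
    (fun t ht => by
      have ht' : riemannZeta (1 / 2 + t * I) = 0 := ht
      unfold fl57
      rw [ht', zero_mul, mul_zero])
    (PW_cont57 hW0 τ) (fun t => (PW_pos hW0 _).le)
    (fun x y hxy => by
      refine (pw_ratio hW0 hxy).trans ?_
      refine mul_le_mul_of_nonneg_right (by linarith) ?_
      exact (PW_pos hW0 (y - τ)).le)
    (by
      simp only [fl_norm57, hW]
      exact hmv.1)
    (by
      simp only [fd_norm57, hW]
      exact hdv.1)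
  simp only [fl_norm57, fd_norm57] at hch
  rw [hW] at hch
  rw [hmv.2] at hch
  -- derivative mean
  obtain ⟨G, hG⟩ : ∃ G : ℝ, G = ν ^ 2 * Φ1 - 2 * ν * ((Φ1 - Φ2) / (2 * x)) + (Φ1 - 2 * Φ2 + Φ3) / (4 * x ^ 2) := ⟨_, rfl⟩
  rw [← hG] at s2 hnum
  rw [← hΛ] at hnum
  obtain ⟨J, hJ⟩ : ∃ J : ℝ, J = ∫ t : ℝ, PW (l + 1 / 2) (t - τ) *
      ‖((ν * L : ℝ) : ℂ) * (riemannZeta (1 / 2 + t * I) * Mo X a (1 / 2 + t * I)) +
      deriv (fun s => riemannZeta s * Mo X a s) (1 / 2 + t * I)‖ ^ 2 := ⟨_, rfl⟩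
  have hdv2 := hdv.2
  rw [← hJ] at hch hdv2
  have hfs : (2 * (l + 1 / 2) * ∫ u in Ioi (0:ℝ), ‖fu X a (l - τ * I) u‖ ^ 2 * u ^ (-2 * (1 / 2 : ℝ) - 1)) = Fs X a l τ (1 / 2) := rfl
  rw [hfs] at hdv2
  have hmu : (2 * (l + 1 / 2) * ∫ u in Ioi (0:ℝ), ‖fu X a (l - τ * I) u‖ ^ 2 * (ν * L - Real.log u) ^ 2 * u ^ (-2 * (1 / 2 : ℝ) - 1)) =
      L ^ 2 * (2 * (l + 1 / 2) * (∫ u in Ioi (0:ℝ), ‖fu X a (l - τ * I) u‖ ^ 2 * u ^ (-2 : ℝ) * (ν - Real.log u / L) ^ 2)) := by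
    have : ∫ u in Ioi (0:ℝ), ‖fu X a (l - τ * I) u‖ ^ 2 * (ν * L - Real.log u) ^ 2 * u ^ (-2 * (1 / 2 : ℝ) - 1) =
        L ^ 2 * ∫ u in Ioi (0:ℝ), ‖fu X a (l - τ * I) u‖ ^ 2 * u ^ (-2 : ℝ) * (ν - Real.log u / L) ^ 2 := by
      rw [← integral_const_mul]
      refine integral_congr_ae (Eventually.of_forall fun u => ?_)
      simp only
      have e1 : (-2 * (1 / 2 : ℝ) - 1) = -2 := by norm_num
      rw [e1]
      have e2 : (ν * L - Real.log u) ^ 2 = L ^ 2 * (ν - Real.log u / L) ^ 2 := by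
        field_simp
      rw [e2]
      ring
    rw [this]
    ring
  rw [hmu] at hdv2
  obtain ⟨m, hm⟩ : ∃ m : ℝ, m = 2 * (l + 1 / 2) * (∫ u in Ioi (0:ℝ), ‖fu X a (l - τ * I) u‖ ^ 2 * u ^ (-2 : ℝ) * (ν - Real.log u / L) ^ 2) := ⟨_, rfl⟩
  rw [← hm] at s2 hdv2
  obtain ⟨F, hF⟩ : ∃ F : ℝ, F = Fs X a l τ (1 / 2) := ⟨_, rfl⟩
  rw [← hF] at s1 hch hdv2 hFsK
  have hF0 : 0 ≤ F := by
    rw [hF, ← hmv.2]
    exact integral_nonneg fun t => mul_nonneg (PW_pos (by linarith) _).le (by positivity)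
  have hm0 : 0 ≤ m := by
    rw [hm]
    refine mul_nonneg (by linarith) (setIntegral_nonneg measurableSet_Ioi fun u hu => ?_)
    have hu0 : (0:ℝ) < u := hu
    positivity
  -- (D/π)² = Λ / L²
  have hDpi : (D / Real.pi) ^ 2 = Λ / L ^ 2 := by
    rw [hD, hΛ]
    field_simp
    ring
  rw [hDpi] at hch
  have hJ2 : Λ / L ^ 2 * J ≤ Λ * ((1 + e) * m) + δ * E / 2 := by
    have h5 : Λ / L ^ 2 * J ≤ Λ / L ^ 2 * ((1 + e) * (L ^ 2 * m) + (1 + 1 / e) / l ^ 2 * F) :=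
      mul_le_mul_of_nonneg_left hdv2 (by positivity)
    refine h5.trans ?_
    have h6 : Λ / L ^ 2 * ((1 + e) * (L ^ 2 * m) + (1 + 1 / e) / l ^ 2 * F) =
        Λ * ((1 + e) * m) + Λ * (1 + 1 / e) * F * (1 / (L ^ 2 * l ^ 2)) := by
      field_simp
    rw [h6]
    have h7 : 1 / (L ^ 2 * l ^ 2) ≤ δ := by
      have h8 : 1 / (L ^ 2 * l ^ 2) ≤ 1 / l := by
        apply one_div_le_one_div_of_le hl0
        have : (1:ℝ) ≤ L ^ 2 := one_le_pow₀ hL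
        nlinarith
      refine h8.trans ?_
      rw [div_le_iff₀ hl0]
      exact hlδ'
    have h9 : Λ * (1 + 1 / e) * F ≤ E / 2 := by
      rw [hE]
      have : Λ * (1 + 1 / e) * F ≤ Λ * (1 + 1 / e) * (K + 1) := mul_le_mul_of_nonneg_left hFsK (by positivity)
      linarith
    have h10 : Λ * (1 + 1 / e) * F * (1 / (L ^ 2 * l ^ 2)) ≤ E / 2 * δ :=
      mul_le_mul h9 h7 (by positivity) (by linarith)
    linarith
  -- final inequality
  obtain ⟨R, hR⟩ : ∃ R : ℝ, R = ∫ t in LongSet Z0 D, PW (l + 1 / 2) (t - τ) *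
      ‖riemannZeta (1 / 2 + t * I) * Mo X a (1 / 2 + t * I)‖ ^ 2 := ⟨_, rfl⟩
  rw [← hR] at hch ⊢
  have hch2 : F ≤ (1 + e) * (Λ * ((1 + e) * m) + δ * E / 2) + R := by
    have h5 : (1 + e) * (Λ / L ^ 2) * J ≤ (1 + e) * (Λ * ((1 + e) * m) + δ * E / 2) := by
      rw [mul_assoc]
      exact mul_le_mul_of_nonneg_left hJ2 (by positivity)
    linarith
  have hF1 : Φ1 - ε ≤ F := by linarith [(abs_le.1 s1).1]
  have hΛm : Λ * m ≤ Φ1 - c0 + Λ * ε := by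
    have := mul_le_mul_of_nonneg_left s2 hΛ0.le
    linarith
  exact arith57 he0 he1 he2 hε0 hε2 hΛ0 hδp hE0 hδd hm0 hc0 (abs_le.1 hK1).2 hch2 hF1 hΛm

end Pool.Agent.Helper57.HL
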