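import Pool.Agent.Helper57.HL.Fc

/-!
# HL-FD: the second moment off the line for the mollified resonated zeta function
-/

open MeasureTheory Set Filter Topology
open Pool.Agent.Helper57.Zeta Pool.Agent.Helper57.LH Pool.Agent.Helper57.ED
open Pool.Agent.Helper69.HG

namespace Pool.Agent.Helper57.HL

/-- scaling of the coefficients -/
lemma fu_smul57 (X : ℕ) (a : ℕ → ℝ) (s : ℝ) (z : ℂ) (u : ℝ) : fu X (fun n => s * a n) z u = s * fu X a z u := by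
  unfold fu
  rw [Finset.mul_sum]
  refine Finset.sum_congr rfl fun h _ => ?_
  push_cast
  ring

lemma Fs_smul57 (X : ℕ) (a : ℕ → ℝ) (s l τ σ : ℝ) : Fs X (fun n => s * a n) l τ σ = s ^ 2 * Fs X a l τ σ := by
  unfold Fs
  have e : ∀ u : ℝ, ‖fu X (fun n => s * a n) (l - τ * Complex.I) u‖ ^ 2 * u ^ (-2 * σ - 1) =
      s ^ 2 * (‖fu X a (l - τ * Complex.I) u‖ ^ 2 * u ^ (-2 * σ - 1)) := by
    intro u
    rw [fu_smul57, norm_mul, Complex.norm_real, mul_pow, Real.norm_eq_abs, sq_abs]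
    ring
  simp_rw [e]
  rw [integral_const_mul]
  ring

lemma S1_smul57 (X : ℕ) (a : ℕ → ℝ) (s : ℝ) : S1 X (fun n => s * a n) ^ 2 = s ^ 2 * S1 X a ^ 2 := by
  unfold S1
  have : ∑ h ∈ Finset.Icc 1 X, |s * a h| = |s| * ∑ h ∈ Finset.Icc 1 X, |a h| := by
    rw [Finset.mul_sum]
    exact Finset.sum_congr rfl fun h _ => abs_mul _ _
  rw [this, mul_pow, sq_abs]

lemma Mo_smul57 (X : ℕ) (a : ℕ → ℝ) (s : ℝ) (w : ℂ) : Mo X (fun n => s * a n) w = s * Mo X a w := by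
  unfold Mo
  rw [Finset.mul_sum]
  refine Finset.sum_congr rfl fun h _ => ?_
  push_cast
  ring

/-- lengths -/
lemma XMR57 {T : ℝ} (hT : 1 < T) : XM T * XR T ≤ XX T := by
  have hT0 : 0 < T := by linarith
  unfold XM XR XX
  apply Nat.le_floor
  push_cast
  have h1 : (⌊T ^ (1 / 40 : ℝ)⌋₊ : ℝ) ≤ T ^ (1 / 40 : ℝ) := Nat.floor_le (by positivity)
  have h2 : (⌊T ^ (2 / 5 : ℝ)⌋₊ : ℝ) ≤ T ^ (2 / 5 : ℝ) := Nat.floor_le (by positivity)
  calc (⌊T ^ (1 / 40 : ℝ)⌋₊ : ℝ) * (⌊T ^ (2 / 5 : ℝ)⌋₊ : ℝ) ≤ T ^ (1 / 40 : ℝ) * T ^ (2 / 5 : ℝ) :=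
        mul_le_mul h1 h2 (by positivity) (by positivity)
    _ = T ^ (17 / 40 : ℝ) := by
        rw [← Real.rpow_add hT0]; norm_num

section
variable {T ε : ℝ} {b : ℕ} {a : ℕ → ℝ}

lemma a_XM57 (h : IsCM T ε b a) (hT : 1 < T) (hε : 0 < ε) (hε2 : ε * (4 * b + 4) ≤ 1 / 40) :
    ∀ n, a n ≠ 0 → n ≤ XM T := by
  intro n hn
  unfold XM
  apply Nat.le_floor
  exact (a_le57 h hT hε hn).2.1.trans (Real.rpow_le_rpow_of_exponent_le hT.le hε2)

lemma r_XR57 (hT : 1 < T) : ∀ n, rr T n ≠ 0 → n ≤ XR T := by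
  intro n hn
  unfold XR
  apply Nat.le_floor
  exact (rr_supp57 hT hn).2.2.1

theorem Ql_conv57 (h : IsCM T ε b a) (hT : 1 < T) (hε : 0 < ε) (hε1 : ε ≤ 1 / 160) (hε2 : ε * (4 * b + 4) ≤ 1 / 40) (σ : ℝ) :
    Ql (XX T) (conv a (rr T)) σ = Ql (XM T) a σ * Ql (XR T) (rr T) σ := by
  unfold Ql
  refine bil57 (XMR57 hT) (a_XM57 h hT hε hε2) (r_XR57 hT) (fun h k => (Nat.lcm h k : ℝ) ^ (-2 * σ)) ?_
  intro m m' n n' hm hm' hn hn' am am' rn rn'
  have e := Pool.Agent.HG5.lcm_mul5 (cop57 h hT hε hε1 am rn) (cop57 h hT hε hε1 am rn') (cop57 h hT hε hε1 am' rn)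
    (cop57 h hT hε hε1 am' rn')
  rw [e]
  push_cast
  exact Real.mul_rpow (by positivity) (by positivity)

theorem Qg_conv57 (h : IsCM T ε b a) (hT : 1 < T) (hε : 0 < ε) (hε1 : ε ≤ 1 / 160) (hε2 : ε * (4 * b + 4) ≤ 1 / 40) (σ : ℝ) :
    Qg (XX T) (conv a (rr T)) σ = Qg (XM T) a σ * Qg (XR T) (rr T) σ := by
  unfold Qg
  refine bil57 (XMR57 hT) (a_XM57 h hT hε hε2) (r_XR57 hT) (fun h k => (Nat.gcd h k : ℝ) ^ (1 - 2 * σ) / Nat.lcm h k) ?_
  intro m m' n n' hm hm' hn hn' am am' rn rn'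
  rw [Finset.mem_Icc] at hm hm' hn hn'
  have c1 := cop57 h hT hε hε1 am rn
  have c2 := cop57 h hT hε hε1 am rn'
  have c3 := cop57 h hT hε hε1 am' rn
  have c4 := cop57 h hT hε hε1 am' rn'
  have e := Pool.Agent.HG5.lcm_mul5 c1 c2 c3 c4
  have e' := gcd_mul57 (by omega) (by omega) (by omega) (by omega) c1 c2 c3 c4
  rw [e, e']
  push_cast
  rw [Real.mul_rpow (by positivity) (by positivity)]
  exact mul_div_mul_comm _ _ _ _

theorem S1_conv57 {C : ℝ} (hC : ∀ n : ℕ, |rr T n| ≤ C) (h : IsCM T ε b a) (hT : 1 < T) (hε : 0 < ε)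
    (hε2 : ε * (4 * b + 4) ≤ 1 / 40) : S1 (XX T) (conv a (rr T)) ≤ C * T ^ (17 / 40 : ℝ) := by
  have hT0 : 0 < T := by linarith
  have hC0 : 0 ≤ C := (abs_nonneg _).trans (hC 0)
  unfold S1
  have h1 : ∑ h ∈ Finset.Icc 1 (XX T), |conv a (rr T) h| ≤
      ∑ h ∈ Finset.Icc 1 (XX T), conv (fun n => |a n|) (fun n => |rr T n|) h * 1 := by
    refine Finset.sum_le_sum fun h _ => ?_
    rw [mul_one]
    unfold conv
    refine (Finset.abs_sum_le_sum_abs _ _).trans (le_of_eq ?_)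
    exact Finset.sum_congr rfl fun d _ => abs_mul _ _
  refine h1.trans ?_
  rw [conv_sum57 (XMR57 hT) (a := fun n => |a n|) (r := fun n => |rr T n|)
    (fun n hn => a_XM57 h hT hε hε2 n (abs_ne_zero.1 hn)) (fun n hn => r_XR57 hT n (abs_ne_zero.1 hn)) (fun _ => 1)]
  have h2 : ∑ m ∈ Finset.Icc 1 (XM T), ∑ n ∈ Finset.Icc 1 (XR T), |a m| * |rr T n| * 1 ≤
      ∑ m ∈ Finset.Icc 1 (XM T), ∑ n ∈ Finset.Icc 1 (XR T), C := by
    refine Finset.sum_le_sum fun m _ => Finset.sum_le_sum fun n _ => ?_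
    rw [mul_one]
    calc |a m| * |rr T n| ≤ 1 * C := mul_le_mul (h.bd m) (hC n) (abs_nonneg _) (by norm_num)
      _ = C := one_mul C
  refine h2.trans ?_
  rw [Finset.sum_const, Finset.sum_const, Nat.card_Icc, Nat.card_Icc]
  simp only [add_tsub_cancel_right, nsmul_eq_mul]
  have h3 : (XM T : ℝ) ≤ T ^ (1 / 40 : ℝ) := Nat.floor_le (by positivity)
  have h4 : (XR T : ℝ) ≤ T ^ (2 / 5 : ℝ) := Nat.floor_le (by positivity)
  calc (XM T : ℝ) * ((XR T : ℝ) * C) = ((XM T : ℝ) * (XR T : ℝ)) * C := by ring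
    _ ≤ (T ^ (1 / 40 : ℝ) * T ^ (2 / 5 : ℝ)) * C := by gcongr
    _ = C * T ^ (17 / 40 : ℝ) := by
        rw [← Real.rpow_add hT0, mul_comm]; norm_num

end

/-- arithmetic of the limit -/
lemma lim57 {x zL cL u v A B A0 B0 E δ η δ1 d1 d2 MA MB : ℝ} (hx : 0 < x)
    (hE0 : 0 ≤ E) (hE1 : E ≤ 1)
    (hz : |zL - 1 / (2 * x)| ≤ d1) (hc : |cL - E / (2 * x)| ≤ d2) (hη1 : η ≤ 1)
    (hu : |u - 1| ≤ η) (hv : |v - 1| ≤ η) (hA : |A - A0| ≤ δ1) (hB : |B - B0| ≤ δ1) (hAM : |A| ≤ MA) (hBM : |B| ≤ MB)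
    (hsum : 2 * d1 * MA + 2 * d2 * MB + (η * (MA + MB) + 2 * δ1) / (2 * x) ≤ δ) :
    |(zL * (u * A) - cL * (v * B)) - (A0 - E * B0) / (2 * x)| ≤ δ := by
  have hMA : 0 ≤ MA := (abs_nonneg _).trans hAM
  have hMB : 0 ≤ MB := (abs_nonneg _).trans hBM
  have hd1 : 0 ≤ d1 := (abs_nonneg _).trans hz
  have hd2 : 0 ≤ d2 := (abs_nonneg _).trans hc
  have hδ1 : 0 ≤ δ1 := (abs_nonneg _).trans hA
  have hη0 : 0 ≤ η := (abs_nonneg _).trans hu
  have hu2 : |u| ≤ 2 := by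
    have : u = (u - 1) + 1 := by ring
    rw [this]
    refine (abs_add_le _ _).trans ?_
    rw [abs_one]
    linarith
  have hv2 : |v| ≤ 2 := by
    have : v = (v - 1) + 1 := by ring
    rw [this]
    refine (abs_add_le _ _).trans ?_
    rw [abs_one]
    linarith
  have e : (zL * (u * A) - cL * (v * B)) - (A0 - E * B0) / (2 * x) =
      (zL - 1 / (2 * x)) * (u * A) + ((u - 1) * A + (A - A0)) / (2 * x) -
      ((cL - E / (2 * x)) * (v * B) + E * ((v - 1) * B + (B - B0)) / (2 * x)) := by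
    field_simp
    ring
  rw [e]
  have t1 : |(zL - 1 / (2 * x)) * (u * A)| ≤ d1 * (2 * MA) := by
    rw [abs_mul, abs_mul]
    exact mul_le_mul hz (mul_le_mul hu2 hAM (abs_nonneg _) (by norm_num)) (by positivity) hd1
  have t2 : |((u - 1) * A + (A - A0)) / (2 * x)| ≤ (η * MA + δ1) / (2 * x) := by
    rw [abs_div, abs_of_pos (by positivity : 0 < 2 * x)]
    refine div_le_div_of_nonneg_right ?_ (by positivity)
    refine (abs_add_le _ _).trans (add_le_add ?_ hA)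
    rw [abs_mul]
    exact mul_le_mul hu hAM (abs_nonneg _) hη0
  have t3 : |(cL - E / (2 * x)) * (v * B)| ≤ d2 * (2 * MB) := by
    rw [abs_mul, abs_mul]
    exact mul_le_mul hc (mul_le_mul hv2 hBM (abs_nonneg _) (by norm_num)) (by positivity) hd2
  have t4 : |E * ((v - 1) * B + (B - B0)) / (2 * x)| ≤ (η * MB + δ1) / (2 * x) := by
    rw [abs_div, abs_of_pos (by positivity : 0 < 2 * x), abs_mul, abs_of_nonneg hE0]
    refine div_le_div_of_nonneg_right ?_ (by positivity)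
    have h5 : |(v - 1) * B + (B - B0)| ≤ η * MB + δ1 := by
      refine (abs_add_le _ _).trans (add_le_add ?_ hB)
      rw [abs_mul]
      exact mul_le_mul hv hBM (abs_nonneg _) hη0
    calc E * |(v - 1) * B + (B - B0)| ≤ 1 * (η * MB + δ1) := mul_le_mul hE1 h5 (abs_nonneg _) (by norm_num)
      _ = _ := one_mul _
  have e2 : (η * (MA + MB) + 2 * δ1) / (2 * x) = (η * MA + δ1) / (2 * x) + (η * MB + δ1) / (2 * x) := by ring
  rw [e2] at hsum
  calc _ ≤ |(zL - 1 / (2 * x)) * (u * A) + ((u - 1) * A + (A - A0)) / (2 * x)| +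
        |(cL - E / (2 * x)) * (v * B) + E * ((v - 1) * B + (B - B0)) / (2 * x)| := abs_sub _ _
    _ ≤ (|(zL - 1 / (2 * x)) * (u * A)| + |((u - 1) * A + (A - A0)) / (2 * x)|) +
        (|(cL - E / (2 * x)) * (v * B)| + |E * ((v - 1) * B + (B - B0)) / (2 * x)|) :=
        add_le_add (abs_add_le _ _) (abs_add_le _ _)
    _ ≤ _ := by linarith

end Pool.Agent.Helper57.HL
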