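import Pool.Agent.Helper57.HL.Fa

/-!
# HL-FL: localisation of the mass on the long gaps
-/

open MeasureTheory Set Filter Topology Complex
open Pool.Agent.Helper57.Zeta Pool.Agent.Helper57.LH Pool.Agent.Helper57.ED Pool.Agent.Helper49.HG

namespace Pool.Agent.Helper57.HL

lemma pw_tail57 {W₁ W₂ r s : ℝ} (h1 : 0 < W₁) (h2 : 0 < W₂) (hs : 0 < |s|) (hr : 0 < r) (hW : W₂ ≤ r * |s|) :
    PW W₁ s ≤ W₁ / W₂ * (1 + r ^ 2) * PW W₂ s := by
  unfold PW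
  have hpi := Real.pi_pos
  have hs2 : 0 < s ^ 2 := by rw [← sq_abs]; positivity
  have hW2 : W₂ ^ 2 ≤ r ^ 2 * s ^ 2 := by
    rw [← sq_abs s, ← mul_pow]
    exact pow_le_pow_left₀ h2.le hW 2
  have e1 : W₁ / (Real.pi * (W₁ ^ 2 + s ^ 2)) ≤ W₁ / (Real.pi * s ^ 2) := by
    gcongr
    nlinarith [sq_nonneg W₁]
  refine e1.trans ?_
  have e2 : W₁ / W₂ * (1 + r ^ 2) * (W₂ / (Real.pi * (W₂ ^ 2 + s ^ 2))) = W₁ * (1 + r ^ 2) / (Real.pi * (W₂ ^ 2 + s ^ 2)) := by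
    field_simp
  rw [e2, div_le_div_iff₀ (by positivity) (by positivity)]
  have e3 : W₂ ^ 2 + s ^ 2 ≤ (1 + r ^ 2) * s ^ 2 := by linarith
  calc W₁ * (Real.pi * (W₂ ^ 2 + s ^ 2)) ≤ W₁ * (Real.pi * ((1 + r ^ 2) * s ^ 2)) := by gcongr
    _ = _ := by ring

lemma ratio57 {κ K c0 η T : ℝ} (hκ0 : 0 < κ) (hK1 : 0 < K + 1) (hη : 0 < η) (hη1 : η ≤ 1) (hT : 1 ≤ T) (hκT : 1 ≤ κ * T)
    (hκ2 : κ * (80 * (K + 1)) ≤ c0 * η ^ 2) :
    (κ * T + 1 / 2) / (T + 1 / 2) * (1 + (3 / η) ^ 2) ≤ c0 / (4 * (K + 1)) := by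
  have h6 : (κ * T + 1 / 2) / (T + 1 / 2) ≤ 2 * κ := by
    rw [div_le_iff₀ (by positivity)]
    have : 2 * κ * (T + 1 / 2) = κ * T + κ * T + κ := by ring
    linarith
  have h7 : 1 + (3 / η) ^ 2 ≤ 10 / η ^ 2 := by
    rw [div_pow, le_div_iff₀ (by positivity)]
    have : (1 + 3 ^ 2 / η ^ 2) * η ^ 2 = η ^ 2 + 9 := by field_simp; ring
    rw [this]
    have : η ^ 2 ≤ 1 := pow_le_one₀ hη.le hη1
    linarith
  calc (κ * T + 1 / 2) / (T + 1 / 2) * (1 + (3 / η) ^ 2) ≤ 2 * κ * (10 / η ^ 2) :=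
        mul_le_mul h6 h7 (by positivity) (by positivity)
    _ ≤ c0 / (4 * (K + 1)) := by
        rw [le_div_iff₀ (by positivity)]
        have h8 : 2 * κ * (10 / η ^ 2) * (4 * (K + 1)) = κ * (80 * (K + 1)) / η ^ 2 := by ring
        rw [h8, div_le_iff₀ (by positivity)]
        exact hκ2

lemma dist57 {η T τ t : ℝ} (hη : 0 < η) (hT : 1 ≤ T) (hτ : τ = (1 + η / 2) * T) (ht : t ∉ Icc T ((1 + η) * T)) :
    η * T / 2 ≤ |t - τ| := by
  have hηT : 0 < η * T := by positivity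
  have e1 : (1 + η / 2) * T = T + η * T / 2 := by ring
  have e2 : (1 + η) * T = T + η * T := by ring
  rw [e2] at ht
  rw [hτ, e1]
  have h1 : t < T ∨ T + η * T < t := by
    by_contra hcon
    push Not at hcon
    exact ht ⟨hcon.1, hcon.2⟩
  rcases h1 with h1 | h1
  · rw [abs_of_neg (by linarith)]
    linarith
  · rw [abs_of_pos (by linarith)]
    linarith

lemma Gc57 (X : ℕ) (a : ℕ → ℝ) : Continuous (fun t : ℝ => ‖riemannZeta (1 / 2 + t * I) * Mo X a (1 / 2 + t * I)‖ ^ 2) := by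
  have hd : DifferentiableOn ℂ (fun s => riemannZeta s * Mo X a s) {s : ℂ | s ≠ 1} := fun s hs =>
    (zM_diff57 X a hs).differentiableWithinAt
  have c3 : Continuous (fun t : ℝ => riemannZeta (1 / 2 + t * I) * Mo X a (1 / 2 + t * I)) :=
    hd.continuousOn.comp_continuous (by fun_prop) half_ne57
  exact c3.norm.pow 2

lemma tail57 (X : ℕ) (a : ℕ → ℝ) {κ K c0 η T τ : ℝ} {S : Set ℝ} (hS : MeasurableSet S) (hκ0 : 0 < κ) (hK1 : 0 < K + 1)
    (hη : 0 < η) (hη1 : η ≤ 1) (hT : 1 ≤ T) (hκT : 1 ≤ κ * T) (hκ2 : κ * (80 * (K + 1)) ≤ c0 * η ^ 2) (hc0 : 0 < c0)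
    (hτ : τ = (1 + η / 2) * T) (hup : Fs X a T τ (1 / 2) ≤ K + 1) :
    ∫ t in S \ Icc T ((1 + η) * T), PW (κ * T + 1 / 2) (t - τ) * ‖riemannZeta (1 / 2 + t * I) * Mo X a (1 / 2 + t * I)‖ ^ 2 ≤
      c0 / 4 := by
  have hT0 : 0 < T := by linarith
  obtain ⟨mva, mva'⟩ := mv57 X a τ hT0
  obtain ⟨mvb, -⟩ := mv57 X a τ (by positivity : 0 < κ * T)
  rw [← mva'] at hup
  generalize hG : (fun t : ℝ => ‖riemannZeta (1 / 2 + t * I) * Mo X a (1 / 2 + t * I)‖ ^ 2) = G at *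
  have hG' : ∀ t : ℝ, ‖riemannZeta (1 / 2 + t * I) * Mo X a (1 / 2 + t * I)‖ ^ 2 = G t := fun t => by rw [← hG]
  simp only [hG'] at mva mvb hup ⊢
  have hG0 : ∀ t, 0 ≤ G t := fun t => by rw [← hG']; positivity
  have hW₁0 : 0 < κ * T + 1 / 2 := by positivity
  have hW₂0 : 0 < T + 1 / 2 := by positivity
  have hrat := ratio57 hκ0 hK1 hη hη1 hT hκT hκ2
  have hpt : ∀ t ∈ S \ Icc T ((1 + η) * T), PW (κ * T + 1 / 2) (t - τ) * G t ≤ c0 / (4 * (K + 1)) * (PW (T + 1 / 2) (t - τ) * G t) := by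
    intro t ht
    have hst := dist57 hη hT hτ ht.2
    have hs0 : 0 < |t - τ| := lt_of_lt_of_le (by positivity) hst
    have h2 := pw_tail57 hW₁0 hW₂0 hs0 (r := 3 / η) (by positivity) (by
      have h3 : 3 / η * (η * T / 2) ≤ 3 / η * |t - τ| := mul_le_mul_of_nonneg_left hst (by positivity)
      have h4 : 3 / η * (η * T / 2) = 3 / 2 * T := by field_simp
      linarith)
    have h9 : PW (κ * T + 1 / 2) (t - τ) ≤ c0 / (4 * (K + 1)) * PW (T + 1 / 2) (t - τ) :=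
      h2.trans (mul_le_mul_of_nonneg_right hrat (PW_pos hW₂0 _).le)
    calc PW (κ * T + 1 / 2) (t - τ) * G t ≤ (c0 / (4 * (K + 1)) * PW (T + 1 / 2) (t - τ)) * G t :=
          mul_le_mul_of_nonneg_right h9 (hG0 t)
      _ = _ := by ring
  have h1 : ∫ t in S \ Icc T ((1 + η) * T), PW (κ * T + 1 / 2) (t - τ) * G t ≤
      ∫ t in S \ Icc T ((1 + η) * T), c0 / (4 * (K + 1)) * (PW (T + 1 / 2) (t - τ) * G t) :=
    setIntegral_mono_on mvb.integrableOn (mva.const_mul _).integrableOn (hS.diff measurableSet_Icc) hpt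
  refine h1.trans ?_
  rw [integral_const_mul]
  have h2 : ∫ t in S \ Icc T ((1 + η) * T), PW (T + 1 / 2) (t - τ) * G t ≤ ∫ t, PW (T + 1 / 2) (t - τ) * G t :=
    setIntegral_le_integral mva (Eventually.of_forall fun t => mul_nonneg (PW_pos hW₂0 _).le (hG0 t))
  calc c0 / (4 * (K + 1)) * ∫ t in S \ Icc T ((1 + η) * T), PW (T + 1 / 2) (t - τ) * G t ≤ c0 / (4 * (K + 1)) * (K + 1) :=
        mul_le_mul_of_nonneg_left (h2.trans hup) (by positivity)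
    _ = c0 / 4 := by field_simp

lemma loc57 (X : ℕ) (a : ℕ → ℝ) {κ K c0 η T τ : ℝ} {S : Set ℝ} (hS : MeasurableSet S) (hκ0 : 0 < κ) (hK1 : 0 < K + 1)
    (hη : 0 < η) (hη1 : η ≤ 1) (hT : 1 ≤ T) (hκT : 1 ≤ κ * T) (hκ2 : κ * (80 * (K + 1)) ≤ c0 * η ^ 2) (hc0 : 0 < c0)
    (hτ : τ = (1 + η / 2) * T) (hup : Fs X a T τ (1 / 2) ≤ K + 1)
    (hlow : c0 / 2 ≤ ∫ t in S, PW (κ * T + 1 / 2) (t - τ) * ‖riemannZeta (1 / 2 + t * I) * Mo X a (1 / 2 + t * I)‖ ^ 2) :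
    c0 / 4 * (Real.pi * κ * T) ≤ ∫ t in S ∩ Icc T ((1 + η) * T), ‖riemannZeta (1 / 2 + t * I) * Mo X a (1 / 2 + t * I)‖ ^ 2 := by
  have hT0 : 0 < T := by linarith
  have htail := tail57 X a hS hκ0 hK1 hη hη1 hT hκT hκ2 hc0 hτ hup
  obtain ⟨mvb, -⟩ := mv57 X a τ (by positivity : 0 < κ * T)
  have hGc := Gc57 X a
  generalize hG : (fun t : ℝ => ‖riemannZeta (1 / 2 + t * I) * Mo X a (1 / 2 + t * I)‖ ^ 2) = G at *
  have hG' : ∀ t : ℝ, ‖riemannZeta (1 / 2 + t * I) * Mo X a (1 / 2 + t * I)‖ ^ 2 = G t := fun t => by rw [← hG]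
  simp only [hG'] at mvb hlow htail ⊢
  have hG0 : ∀ t, 0 ≤ G t := fun t => by rw [← hG']; positivity
  have hpi := Real.pi_pos
  have hsplit : ∫ t in S, PW (κ * T + 1 / 2) (t - τ) * G t =
      (∫ t in S ∩ Icc T ((1 + η) * T), PW (κ * T + 1 / 2) (t - τ) * G t) +
      ∫ t in S \ Icc T ((1 + η) * T), PW (κ * T + 1 / 2) (t - τ) * G t :=
    (integral_inter_add_sdiff measurableSet_Icc mvb.integrableOn).symm
  have hlow2 : c0 / 4 ≤ ∫ t in S ∩ Icc T ((1 + η) * T), PW (κ * T + 1 / 2) (t - τ) * G t := by linarith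
  have hκT0 : 0 < κ * T := by positivity
  have hloc : ∫ t in S ∩ Icc T ((1 + η) * T), PW (κ * T + 1 / 2) (t - τ) * G t ≤
      ∫ t in S ∩ Icc T ((1 + η) * T), 1 / (Real.pi * (κ * T)) * G t := by
    refine setIntegral_mono_on mvb.integrableOn ?_ (hS.inter measurableSet_Icc) fun t _ => ?_
    · have : IntegrableOn (fun t => 1 / (Real.pi * (κ * T)) * G t) (Icc T ((1 + η) * T)) :=
        ((continuous_const.mul hGc).continuousOn).integrableOn_compact isCompact_Icc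
      exact this.mono_set inter_subset_right
    · refine mul_le_mul_of_nonneg_right ?_ (hG0 t)
      generalize κ * T = w at *
      unfold PW
      rw [div_le_div_iff₀ (by positivity) (by positivity)]
      have h5 : 0 ≤ (t - τ) ^ 2 := sq_nonneg _
      calc (w + 1 / 2) * (Real.pi * w) ≤ (w + 1 / 2) * (Real.pi * (w + 1 / 2)) := by
            gcongr
            linarith
        _ ≤ 1 * (Real.pi * ((w + 1 / 2) ^ 2 + (t - τ) ^ 2)) := by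
            have : (w + 1 / 2) * (Real.pi * (w + 1 / 2)) = Real.pi * (w + 1 / 2) ^ 2 := by ring
            rw [this, one_mul]
            exact mul_le_mul_of_nonneg_left (by linarith) hpi.le
  rw [integral_const_mul] at hloc
  have h5 : c0 / 4 ≤ 1 / (Real.pi * (κ * T)) * ∫ t in S ∩ Icc T ((1 + η) * T), G t := hlow2.trans hloc
  have hp : 0 < Real.pi * (κ * T) := by positivity
  rw [div_mul_eq_mul_div, one_mul, le_div_iff₀ hp] at h5
  calc c0 / 4 * (Real.pi * κ * T) = c0 / 4 * (Real.pi * (κ * T)) := by ring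
    _ ≤ _ := h5

/-- localisation -/
theorem fa_loc {K ν lam c0 η : ℝ} (hK : 2 ≤ K) (hlam : 0 < lam) (hc0 : 0 < c0) (hη : 0 < η) (hη1 : η ≤ 1) :
    ∃ κ : ℝ, 0 < κ ∧ κ ≤ 1 ∧ ∃ x0 : ℝ, 0 < x0 ∧ ∀ x : ℝ, 0 < x → x ≤ x0 → ∃ δ : ℝ, 0 < δ ∧ ∃ T0 : ℝ, ∀ T : ℝ, T0 ≤ T →
      ∀ (X : ℕ) (a : ℕ → ℝ) (Φ1 Φ2 Φ3 : ℝ), S1 X a ^ 2 ≤ δ * T → |Φ1| ≤ K → |Φ2| ≤ K → |Φ3| ≤ K →
        (∀ l : ℝ, l = κ * T ∨ l = T →
          |Fs X a l ((1 + η / 2) * T) (1 / 2 + x / Real.log T) - Φ1| ≤ δ ∧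
          |Fs X a l ((1 + η / 2) * T) (1 / 2 + 2 * x / Real.log T) - Φ2| ≤ δ ∧
          |Fs X a l ((1 + η / 2) * T) (1 / 2 + 3 * x / Real.log T) - Φ3| ≤ δ) →
        4 * lam ^ 2 * (ν ^ 2 * Φ1 - 2 * ν * ((Φ1 - Φ2) / (2 * x)) + (Φ1 - 2 * Φ2 + Φ3) / (4 * x ^ 2)) ≤ Φ1 - c0 →
        c0 / 4 * (Real.pi * κ * T) ≤ ∫ t in LongSet Z0 (2 * Real.pi * lam / Real.log T) ∩ Icc T ((1 + η) * T),
          ‖riemannZeta (1 / 2 + t * I) * Mo X a (1 / 2 + t * I)‖ ^ 2 := by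
  obtain ⟨κ, hκ⟩ : ∃ κ : ℝ, κ = min 1 (c0 * η ^ 2 / (80 * (K + 1))) := ⟨_, rfl⟩
  have hK1 : 0 < K + 1 := by linarith
  have hκ0 : 0 < κ := by rw [hκ]; positivity
  have hκ1 : κ ≤ 1 := by rw [hκ]; exact min_le_left _ _
  have hκ2 : κ * (80 * (K + 1)) ≤ c0 * η ^ 2 := by
    have : κ ≤ c0 * η ^ 2 / (80 * (K + 1)) := by rw [hκ]; exact min_le_right _ _
    rwa [le_div_iff₀ (by positivity)] at this
  refine ⟨κ, hκ0, hκ1, ?_⟩
  obtain ⟨xa, hxa, ha⟩ := fa_mass (b := 2) (K := K) (ν := ν) (lam := lam) (c0 := c0) (by norm_num) (by linarith) hlam hc0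
  obtain ⟨xb, hxb, hb⟩ := fa_mass (b := 2) (K := max K (2 / κ)) (ν := ν) (lam := lam) (c0 := c0) (by norm_num)
    (le_trans (by linarith) (le_max_left _ _)) hlam hc0
  refine ⟨min xa xb, lt_min hxa hxb, fun x hx hxx => ?_⟩
  obtain ⟨δa, hδa, ha'⟩ := ha x hx (hxx.trans (min_le_left _ _))
  obtain ⟨δb, hδb, hb'⟩ := hb x hx (hxx.trans (min_le_right _ _))
  obtain ⟨δ, hδ⟩ : ∃ δ : ℝ, δ = min δa (κ * δb) := ⟨_, rfl⟩
  have hδ0 : 0 < δ := by rw [hδ]; positivity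
  have hδa' : δ ≤ δa := by rw [hδ]; exact min_le_left _ _
  have hδb' : δ ≤ κ * δb := by rw [hδ]; exact min_le_right _ _
  have hδb'' : δ ≤ δb := hδb'.trans (by nlinarith)
  refine ⟨δ, hδ0, max (Real.exp 1) (max (1 / δ) (max (1 / κ) (1 / (κ * δb)))), fun T hT X a Φ1 Φ2 Φ3 hS hK1' hK2 hK3 hF hnum => ?_⟩
  have hT1 : Real.exp 1 ≤ T := (le_max_left _ _).trans hT
  have hT' := (le_max_right _ _).trans hT
  have hT2 : 1 / δ ≤ T := (le_max_left _ _).trans hT'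
  have hT'' := (le_max_right _ _).trans hT'
  have hT3 : 1 / κ ≤ T := (le_max_left _ _).trans hT''
  have hT4 : 1 / (κ * δb) ≤ T := (le_max_right _ _).trans hT''
  have he1 : (1:ℝ) ≤ Real.exp 1 := Real.one_le_exp (by norm_num)
  have hT0 : 0 < T := by linarith
  have hTge : 1 ≤ T := by linarith
  have hL1 : 1 ≤ Real.log T := by
    have := Real.log_le_log (Real.exp_pos 1) hT1
    rwa [Real.log_exp] at this
  have hexp : Real.exp (2 * Real.log T) = T ^ 2 := by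
    rw [two_mul, Real.exp_add, Real.exp_log hT0]; ring
  have hκT : 1 ≤ κ * T := by
    rw [div_le_iff₀ hκ0] at hT3
    linarith
  obtain ⟨τ, hτ⟩ : ∃ τ : ℝ, τ = (1 + η / 2) * T := ⟨_, rfl⟩
  rw [← hτ] at hF
  have hτ0 : 0 < τ := by rw [hτ]; positivity
  have hτ2 : τ ≤ 2 * T := by rw [hτ]; nlinarith
  -- l = T : upper bound
  obtain ⟨fa1, fa2, fa3⟩ := hF T (Or.inr rfl)
  have hup := (ha' X a T τ (Real.log T) Φ1 Φ2 Φ3 hTge
    ((one_div_le_one_div_of_le hδ0 hδa').trans hT2) hL1 (by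
      rw [abs_of_pos hτ0]; nlinarith)
    (hS.trans (mul_le_mul_of_nonneg_right hδa' hT0.le)) (by
      rw [hexp]
      calc S1 X a ^ 2 * T ≤ (δ * T) * T := mul_le_mul_of_nonneg_right hS hT0.le
        _ = δ * T ^ 2 := by ring
        _ ≤ δa * T ^ 2 := mul_le_mul_of_nonneg_right hδa' (by positivity)) hK1' hK2 hK3
    (fa1.trans hδa') (fa2.trans hδa') (fa3.trans hδa') hnum).1
  -- l = κ T : lower bound
  obtain ⟨fb1, fb2, fb3⟩ := hF (κ * T) (Or.inl rfl)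
  have hKm : K ≤ max K (2 / κ) := le_max_left _ _
  have hlow := (hb' X a (κ * T) τ (Real.log T) Φ1 Φ2 Φ3 hκT (by
      rw [div_le_iff₀ (by positivity)] at hT4
      rw [div_le_iff₀ hδb]
      linarith) hL1 (by
      rw [abs_of_pos hτ0]
      have h5 : 2 / κ * (κ * T) = 2 * T := by field_simp
      have h6 : 2 / κ * (κ * T) ≤ max K (2 / κ) * (κ * T) :=
        mul_le_mul_of_nonneg_right (le_max_right _ _) (by positivity)
      linarith)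
    (by
      have h5 : δ * T ≤ κ * δb * T := mul_le_mul_of_nonneg_right hδb' hT0.le
      calc S1 X a ^ 2 ≤ δ * T := hS
        _ ≤ κ * δb * T := h5
        _ = δb * (κ * T) := by ring) (by
      rw [hexp]
      calc S1 X a ^ 2 * (κ * T) ≤ (δ * T) * (1 * T) :=
            mul_le_mul hS (mul_le_mul_of_nonneg_right hκ1 hT0.le) (by positivity) (by positivity)
        _ = δ * T ^ 2 := by ring
        _ ≤ δb * T ^ 2 := mul_le_mul_of_nonneg_right hδb'' (by positivity)) (hK1'.trans hKm) (hK2.trans hKm) (hK3.trans hKm)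
    (fb1.trans hδb'') (fb2.trans hδb'') (fb3.trans hδb'') hnum).2
  exact loc57 X a (measurableSet_LongSet Z0_closed57 _) hκ0 hK1 hη hη1 hTge hκT hκ2 hc0 hτ hup hlow

end Pool.Agent.Helper57.HL
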