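import Pool.Agent.Helper57.HL.Sq

/-!
# HL-SR: `hl_spec` (P3)
-/

open MeasureTheory Set Filter Topology Complex
open Pool.Agent.Helper57.Zeta Pool.Agent.Helper57.LH Pool.Agent.Helper57.ED

namespace Pool.Agent.Helper57.HL

/-- `μ(φ)` -/
noncomputable def mu57 (X : ℕ) (a : ℕ → ℝ) (l τ : ℝ) (φ : ℝ → ℝ) : ℝ :=
  2 * (l + 1 / 2) * ∫ u in Ioi (0:ℝ), ‖fu X a (l - τ * I) u‖ ^ 2 * u ^ (-2 : ℝ) * φ u

/-- `μ(E^j)` -/
noncomputable def Pj57 (X : ℕ) (a : ℕ → ℝ) (l τ x L : ℝ) (j : ℕ) : ℝ :=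
  mu57 X a l τ (fun u => (u ^ (-(2 * x / L))) ^ j)

lemma pj57 (X : ℕ) (a : ℕ → ℝ) {l τ x L : ℝ} (hl : 1 ≤ l) (hx : 0 < x) (hx1 : x ≤ 1 / 24) (hL : 1 ≤ L) (j : ℕ) (hj : j ≤ 3) :
    IntegrableOn (fun u : ℝ => ‖fu X a (l - τ * I) u‖ ^ 2 * u ^ (-2 : ℝ) * (u ^ (-(2 * x / L))) ^ j) (Ioi 0) ∧
    Fs X a l τ (1 / 2 + j * x / L) = (l + (1 / 2 + j * x / L)) / (l + 1 / 2) * Pj57 X a l τ x L j := by
  have hL0 : 0 < L := by linarith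
  have hz : 0 < ((l : ℂ) - τ * I).re := by simp; linarith
  have hj' : (j : ℝ) ≤ 3 := by exact_mod_cast hj
  have hj0 : (0:ℝ) ≤ j := Nat.cast_nonneg j
  have hxL : x / L ≤ 1 / 24 := by
    rw [div_le_iff₀ hL0]; nlinarith
  have hxL0 : 0 < x / L := by positivity
  have hjx : j * x / L ≤ 1 / 8 := by
    have : j * x / L = j * (x / L) := by ring
    rw [this]; nlinarith
  have hjx0 : 0 ≤ j * x / L := by positivity
  have hI := integrable_sq X a hz (σ := 1 / 2 + j * x / L) (by linarith) (by linarith)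
  have e : ∀ u ∈ Ioi (0:ℝ), ‖fu X a (l - τ * I) u‖ ^ 2 * u ^ (-2 : ℝ) * (u ^ (-(2 * x / L))) ^ j =
      ‖fu X a (l - τ * I) u‖ ^ 2 * u ^ (-2 * (1 / 2 + j * x / L) - 1) := by
    intro u hu
    have hu0 : 0 < u := hu
    have e1 : (u ^ (-(2 * x / L))) ^ j = u ^ (-(2 * x / L) * j) := by
      rw [← Real.rpow_natCast, ← Real.rpow_mul hu0.le]
    rw [e1, mul_assoc, ← Real.rpow_add hu0]
    congr 2
    ring
  constructor
  · exact hI.congr_fun (fun u hu => (e u hu).symm) measurableSet_Ioi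
  · unfold Fs Pj57 mu57
    rw [setIntegral_congr_fun measurableSet_Ioi e]
    have : l + 1 / 2 ≠ 0 := by positivity
    field_simp

lemma Pj_nonneg57 (X : ℕ) (a : ℕ → ℝ) {l : ℝ} (τ x L : ℝ) (hl : 1 ≤ l) (j : ℕ) : 0 ≤ Pj57 X a l τ x L j := by
  unfold Pj57 mu57
  refine mul_nonneg (by linarith) (setIntegral_nonneg measurableSet_Ioi fun u hu => ?_)
  have hu0 : (0:ℝ) < u := hu
  positivity

lemma PF57 (X : ℕ) (a : ℕ → ℝ) {l τ x L δ K Φ : ℝ} (hl : 1 ≤ l) (hx : 0 < x) (hx1 : x ≤ 1 / 24) (hL : 1 ≤ L)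
    (hδ0 : 0 < δ) (hδ1 : δ ≤ 1) (hlδ : 1 / δ ≤ l) (hK : 0 ≤ K) (j : ℕ) (hj : j ≤ 3) (hΦ : |Φ| ≤ K)
    (hF : |Fs X a l τ (1 / 2 + j * x / L) - Φ| ≤ δ) :
    |Pj57 X a l τ x L j - Φ| ≤ δ * (1 + 3 * (K + 1)) ∧ Pj57 X a l τ x L j ≤ K + 1 := by
  have hL0 : 0 < L := by linarith
  have hl0 : 0 < l := by linarith
  have hj' : (j : ℝ) ≤ 3 := by exact_mod_cast hj
  have hj0 : (0:ℝ) ≤ j := Nat.cast_nonneg j
  have hxL0 : 0 < x / L := by positivity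
  have hxLx : x / L ≤ x := div_le_self hx.le hL
  have e1 := (pj57 X a (τ := τ) hl hx hx1 hL j hj).2
  have hP0 := Pj_nonneg57 X a τ x L hl j
  generalize Pj57 X a l τ x L j = P at *
  have hr0 : 0 ≤ j * x / L := by positivity
  have hr1 : j * x / L ≤ 1 := by
    have : j * x / L = j * (x / L) := by ring
    rw [this]
    nlinarith
  generalize j * x / L = r at *
  have e2 : Fs X a l τ (1 / 2 + r) = P + r / (l + 1 / 2) * P := by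
    rw [e1]
    have : l + 1 / 2 ≠ 0 := by positivity
    field_simp
    ring
  have e3 : 0 ≤ r / (l + 1 / 2) * P := mul_nonneg (by positivity) hP0
  have e4 : Fs X a l τ (1 / 2 + r) ≤ K + 1 := by
    have := (abs_le.1 hF).2
    have h5 := (abs_le.1 hΦ).2
    linarith
  have e5 : P ≤ K + 1 := by linarith
  have e6 : r / (l + 1 / 2) ≤ 3 * δ := by
    rw [div_le_iff₀ (by positivity)]
    have h7 : 1 ≤ δ * l := by
      rw [div_le_iff₀ hδ0] at hlδ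
      linarith
    nlinarith
  have e7 : r / (l + 1 / 2) * P ≤ 3 * δ * (K + 1) := mul_le_mul e6 e5 hP0 (by positivity)
  refine ⟨?_, e5⟩
  have e8 : P - Φ = (Fs X a l τ (1 / 2 + r) - Φ) - r / (l + 1 / 2) * P := by rw [e2]; ring
  rw [e8]
  calc |(Fs X a l τ (1 / 2 + r) - Φ) - r / (l + 1 / 2) * P| ≤ |Fs X a l τ (1 / 2 + r) - Φ| + |r / (l + 1 / 2) * P| := abs_sub _ _
    _ ≤ δ + 3 * δ * (K + 1) := by
        rw [abs_of_nonneg e3]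
        exact add_le_add hF e7
    _ = _ := by ring

/-- the `gl57` bound in terms of `μ` -/
lemma gm57 (X : ℕ) (a : ℕ → ℝ) {l τ K x L U A B : ℝ} (hl : 1 ≤ l) (hτ : |τ| ≤ K * l) (hK : 0 ≤ K)
    (hL : 1 ≤ L) (hx : 0 < x) (hx1 : x ≤ 1 / 24) (hU : 1 ≤ U) (hA : 0 ≤ A) (hB : 0 ≤ B)
    {φ : ℝ → ℝ} (hφ : Measurable φ)
    (h1 : ∀ u, 0 < u → u < 1 → |φ u| ≤ B * u ^ (-(3/4) : ℝ))
    (h2 : ∀ u, 1 ≤ u → u ≤ U → |φ u| ≤ A * u ^ (-(2 * x / L)))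
    (h3 : ∀ u, U < u → |φ u| ≤ B * (u / U) ^ (1/2 : ℝ)) {δ : ℝ} (hδ : 0 ≤ δ)
    (hS : S1 X a ^ 2 ≤ δ * l) (hS' : S1 X a ^ 2 * l ≤ δ * U) (hP : Pj57 X a l τ x L 1 ≤ K + 1) :
    IntegrableOn (fun u : ℝ => ‖fu X a (l - τ * I) u‖ ^ 2 * u ^ (-2 : ℝ) * φ u) (Ioi 0) ∧
    |mu57 X a l τ φ| ≤ A * (K + 1) + δ * (B * (12 + 6 * (2 + K) ^ 2)) := by
  obtain ⟨g1, g2⟩ := gl57 X a hl hτ hK hL hx hx1 hU hA hB hφ h1 h2 h3
  refine ⟨g1, ?_⟩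
  have hl0 : 0 < l := by linarith
  have hU0 : 0 < U := by linarith
  have t1 : S1 X a ^ 2 / l ≤ δ := by rw [div_le_iff₀ hl0]; exact hS
  have t2 : S1 X a ^ 2 * l / U ≤ δ := by rw [div_le_iff₀ hU0]; exact hS'
  have htail : B * (12 * (S1 X a ^ 2 / l) + 6 * (2 + K) ^ 2 * (S1 X a ^ 2 * l / U)) ≤ δ * (B * (12 + 6 * (2 + K) ^ 2)) := by
    calc B * (12 * (S1 X a ^ 2 / l) + 6 * (2 + K) ^ 2 * (S1 X a ^ 2 * l / U)) ≤ B * (12 * δ + 6 * (2 + K) ^ 2 * δ) := by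
          gcongr
      _ = _ := by ring
  have q1 : 2 * (l + 1 / 2) * ∫ u in Ioi (0:ℝ), ‖fu X a (l - τ * I) u‖ ^ 2 * u ^ (-2 * (1 / 2 + x / L) - 1) ≤ K + 1 := by
    refine le_trans (le_of_eq ?_) hP
    unfold Pj57 mu57
    congr 1
    refine setIntegral_congr_fun measurableSet_Ioi fun u hu => ?_
    have hu0 : (0:ℝ) < u := hu
    simp only [pow_one]
    rw [mul_assoc, ← Real.rpow_add hu0]
    congr 2
    ring
  exact g2.trans (add_le_add (mul_le_mul_of_nonneg_left q1 hA) htail)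

lemma E1_57 {b L U x u : ℝ} (hb : 0 < b) (hL : 1 ≤ L) (hU : U = Real.exp (b * L)) (hx : 0 < x) (hx1 : x ≤ 1 / 24)
    (hu : 1 ≤ u) (huU : u ≤ U) : 1 ≤ Real.exp b * u ^ (-(2 * x / L)) ∧ 0 ≤ Real.log u / L ∧ Real.log u / L ≤ b := by
  have hL0 : 0 < L := by linarith
  have hu0 : 0 < u := by linarith
  have h5 : Real.log u ≤ b * L := by
    have := Real.log_le_log hu0 huU
    rwa [hU, Real.log_exp] at this
  have h6 : Real.log u / L ≤ b := by rw [div_le_iff₀ hL0]; exact h5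
  have h7 : 0 ≤ Real.log u / L := div_nonneg (Real.log_nonneg hu) hL0.le
  refine ⟨?_, h7, h6⟩
  rw [expv57 hu0, ← Real.exp_add]
  apply Real.one_le_exp
  nlinarith

/-- first application -/
lemma ap1_57 (X : ℕ) (a : ℕ → ℝ) {l τ K x L b B : ℝ} (hl : 1 ≤ l) (hτ : |τ| ≤ K * l) (hK : 0 ≤ K)
    (hL : 1 ≤ L) (hx : 0 < x) (hx1 : x ≤ 1 / 24) (hb : 0 < b) (hB : 1 ≤ B) {δ : ℝ} (hδ : 0 ≤ δ)
    (hS : S1 X a ^ 2 ≤ δ * l) (hS' : S1 X a ^ 2 * l ≤ δ * Real.exp (b * L)) (hP : Pj57 X a l τ x L 1 ≤ K + 1) :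
    |mu57 X a l τ (fun u => 1 - u ^ (-(2 * x / L)))| ≤
      x * (Real.exp b * (2 * b)) * (K + 1) + δ * (B * (12 + 6 * (2 + K) ^ 2)) := by
  have hL0 : 0 < L := by linarith
  have hx2L : 0 < 2 * x / L := by positivity
  have hxL : 2 * x / L ≤ 3 / 4 := by
    rw [div_le_iff₀ hL0]; nlinarith
  have hU1 : 1 ≤ Real.exp (b * L) := Real.one_le_exp (by positivity)
  refine (gm57 X a hl hτ hK hL hx hx1 hU1 (A := x * (Real.exp b * (2 * b))) (B := B) (by positivity) (by linarith)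
    (φ := fun u => 1 - u ^ (-(2 * x / L))) (by fun_prop) ?_ ?_ ?_ hδ hS hS' hP).2
  · intro u hu0 hu1
    have hE : 1 ≤ u ^ (-(2 * x / L)) := Real.one_le_rpow_of_pos_of_le_one_of_nonpos hu0 hu1.le (by linarith)
    have hE' : u ^ (-(2 * x / L)) ≤ u ^ (-(3/4) : ℝ) := by
      refine Real.rpow_le_rpow_of_exponent_ge hu0 hu1.le ?_
      linarith
    have hR : 0 ≤ u ^ (-(3/4) : ℝ) := by positivity
    rw [abs_of_nonpos (by linarith)]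
    nlinarith
  · intro u hu huU
    have hu0 : 0 < u := by linarith
    obtain ⟨h5, hv0, hvb1⟩ := E1_57 hb hL rfl hx hx1 hu huU
    have h6 : 1 - u ^ (-(2 * x / L)) ≤ 2 * x * (Real.log u / L) := by
      rw [expv57 hu0]
      have := Real.add_one_le_exp (-(2 * x * (Real.log u / L)))
      linarith
    have h7 : u ^ (-(2 * x / L)) ≤ 1 := Real.rpow_le_one_of_one_le_of_nonpos hu (by linarith)
    rw [abs_of_nonneg (by linarith)]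
    calc 1 - u ^ (-(2 * x / L)) ≤ 2 * x * (Real.log u / L) := h6
      _ ≤ 2 * x * b := mul_le_mul_of_nonneg_left hvb1 (by positivity)
      _ = 2 * x * b * 1 := by ring
      _ ≤ 2 * x * b * (Real.exp b * u ^ (-(2 * x / L))) := mul_le_mul_of_nonneg_left h5 (by positivity)
      _ = _ := by ring
  · intro u huU
    have hu1 : 1 ≤ u := by linarith
    have hu0 : 0 < u := by linarith
    have h7 : u ^ (-(2 * x / L)) ≤ 1 := Real.rpow_le_one_of_one_le_of_nonpos hu1 (by linarith)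
    have h8 : 0 ≤ u ^ (-(2 * x / L)) := by positivity
    have h9 : (1:ℝ) ≤ (u / Real.exp (b * L)) ^ (1/2 : ℝ) :=
      Real.one_le_rpow (by rw [one_le_div (Real.exp_pos _)]; exact huU.le) (by norm_num)
    rw [abs_of_nonneg (by linarith)]
    nlinarith

/-- second application -/
lemma ap2_57 (X : ℕ) (a : ℕ → ℝ) {l τ K x L b B ν Cq : ℝ} (hl : 1 ≤ l) (hτ : |τ| ≤ K * l) (hK : 0 ≤ K)
    (hL : 1 ≤ L) (hx : 0 < x) (hx1 : x ≤ 1 / 24) (hb : 0 < b)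
    (hCq : Cq = 2 * ν ^ 2 * b + 6 * |ν| * b ^ 2 + 4 * b ^ 3)
    (hB1 : 3 * ν ^ 2 + 32 + |ν| / x + 1 / (4 * x ^ 2) ≤ B)
    (hB2 : x * (12 * ν ^ 2 * (b + 1) + 216 * |ν| * (b + 1) ^ 2 + 864 * (b + 1) ^ 3) ≤ B) {δ : ℝ} (hδ : 0 ≤ δ)
    (hS : S1 X a ^ 2 ≤ δ * l) (hS' : S1 X a ^ 2 * l ≤ δ * Real.exp (b * L)) (hP : Pj57 X a l τ x L 1 ≤ K + 1) :
    IntegrableOn (fun u : ℝ => ‖fu X a (l - τ * I) u‖ ^ 2 * u ^ (-2 : ℝ) * ph57 ν x L u) (Ioi 0) ∧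
    |mu57 X a l τ (ph57 ν x L)| ≤ x * (Real.exp b * Cq) * (K + 1) + δ * (B * (12 + 6 * (2 + K) ^ 2)) := by
  have hL0 : 0 < L := by linarith
  have hCq0 : 0 ≤ Cq := by rw [hCq]; positivity
  have hB0 : 0 ≤ B := le_trans (by positivity) hB1
  have hU1 : 1 ≤ Real.exp (b * L) := Real.one_le_exp (by positivity)
  refine gm57 X a hl hτ hK hL hx hx1 hU1 (A := x * (Real.exp b * Cq)) (B := B) (by positivity) hB0
    (φ := ph57 ν x L) (ph_meas57 ν x L) ?_ ?_ ?_ hδ hS hS' hP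
  · intro u hu0 hu1
    exact (ph_small57 hx hx1 hL hu0 hu1).trans (mul_le_mul_of_nonneg_right hB1 (by positivity))
  · intro u hu huU
    obtain ⟨h5, hv0, hvb1⟩ := E1_57 hb hL rfl hx hx1 hu huU
    refine (ph_mid57 hx hL hu).trans ?_
    generalize Real.log u / L = v at *
    have h6 : 2 * ν ^ 2 * v + 6 * |ν| * v ^ 2 + 4 * v ^ 3 ≤ Cq := by
      rw [hCq]
      gcongr
    calc x * (2 * ν ^ 2 * v + 6 * |ν| * v ^ 2 + 4 * v ^ 3) ≤ x * Cq * 1 := by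
          rw [mul_one]; exact mul_le_mul_of_nonneg_left h6 hx.le
      _ ≤ x * Cq * (Real.exp b * u ^ (-(2 * x / L))) := mul_le_mul_of_nonneg_left h5 (by positivity)
      _ = _ := by ring
  · intro u huU
    have hu0 : 0 < u := by linarith
    exact (ph_large57 hb hx hL huU).trans (mul_le_mul_of_nonneg_right hB2 (by positivity))

lemma m1_57 (X : ℕ) (a : ℕ → ℝ) {l τ x L : ℝ} (hl : 1 ≤ l) (hx : 0 < x) (hx1 : x ≤ 1 / 24) (hL : 1 ≤ L) :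
    mu57 X a l τ (fun u => 1 - u ^ (-(2 * x / L))) = Fs X a l τ (1 / 2) - Pj57 X a l τ x L 1 := by
  have i0 := (pj57 X a (τ := τ) hl hx hx1 hL 0 (by norm_num)).1
  have i1 := (pj57 X a (τ := τ) hl hx hx1 hL 1 (by norm_num)).1
  have hF0 : Fs X a l τ (1 / 2) = 2 * (l + 1 / 2) * ∫ u in Ioi (0:ℝ), ‖fu X a (l - τ * I) u‖ ^ 2 * u ^ (-2 : ℝ) * (u ^ (-(2 * x / L))) ^ 0 := by
    unfold Fs
    congr 1
    refine setIntegral_congr_fun measurableSet_Ioi fun u hu => ?_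
    simp only [pow_zero, mul_one]
    norm_num
  rw [hF0]
  unfold Pj57 mu57
  rw [← mul_sub, ← integral_sub i0 i1]
  congr 1
  refine integral_congr_ae (Eventually.of_forall fun u => ?_)
  simp only [pow_one, pow_zero]
  ring

lemma m2_57 (X : ℕ) (a : ℕ → ℝ) {l τ x L ν : ℝ} (hl : 1 ≤ l) (hx : 0 < x) (hx1 : x ≤ 1 / 24) (hL : 1 ≤ L)
    (g3 : IntegrableOn (fun u : ℝ => ‖fu X a (l - τ * I) u‖ ^ 2 * u ^ (-2 : ℝ) * ph57 ν x L u) (Ioi 0)) :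
    mu57 X a l τ (fun u => (ν - Real.log u / L) ^ 2) = mu57 X a l τ (ph57 ν x L) +
      (ν ^ 2 * Pj57 X a l τ x L 1 - 2 * ν * ((Pj57 X a l τ x L 1 - Pj57 X a l τ x L 2) / (2 * x)) +
        (Pj57 X a l τ x L 1 - 2 * Pj57 X a l τ x L 2 + Pj57 X a l τ x L 3) / (4 * x ^ 2)) := by
  have i1 := (pj57 X a (τ := τ) hl hx hx1 hL 1 (by norm_num)).1
  have i2 := (pj57 X a (τ := τ) hl hx hx1 hL 2 (by norm_num)).1
  have i3 := (pj57 X a (τ := τ) hl hx hx1 hL 3 (by norm_num)).1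
  have e : ∫ u in Ioi (0:ℝ), ‖fu X a (l - τ * I) u‖ ^ 2 * u ^ (-2 : ℝ) * (ν - Real.log u / L) ^ 2 =
      (∫ u in Ioi (0:ℝ), ‖fu X a (l - τ * I) u‖ ^ 2 * u ^ (-2 : ℝ) * ph57 ν x L u) +
        ((ν ^ 2 - 2 * ν / (2 * x) + 1 / (4 * x ^ 2)) * (∫ u in Ioi (0:ℝ), ‖fu X a (l - τ * I) u‖ ^ 2 * u ^ (-2 : ℝ) * (u ^ (-(2 * x / L))) ^ 1) +
        (2 * ν / (2 * x) - 2 / (4 * x ^ 2)) * (∫ u in Ioi (0:ℝ), ‖fu X a (l - τ * I) u‖ ^ 2 * u ^ (-2 : ℝ) * (u ^ (-(2 * x / L))) ^ 2) +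
        1 / (4 * x ^ 2) * (∫ u in Ioi (0:ℝ), ‖fu X a (l - τ * I) u‖ ^ 2 * u ^ (-2 : ℝ) * (u ^ (-(2 * x / L))) ^ 3)) := by
    rw [← integral_const_mul, ← integral_const_mul, ← integral_const_mul]
    have a1 := integral_add (μ := volume.restrict (Ioi (0:ℝ)))
      (i1.const_mul (ν ^ 2 - 2 * ν / (2 * x) + 1 / (4 * x ^ 2))) (i2.const_mul (2 * ν / (2 * x) - 2 / (4 * x ^ 2)))
    have a2 := integral_add (μ := volume.restrict (Ioi (0:ℝ)))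
      ((i1.const_mul (ν ^ 2 - 2 * ν / (2 * x) + 1 / (4 * x ^ 2))).add (i2.const_mul (2 * ν / (2 * x) - 2 / (4 * x ^ 2))))
      (i3.const_mul (1 / (4 * x ^ 2)))
    have a3 := integral_add (μ := volume.restrict (Ioi (0:ℝ))) g3
      (((i1.const_mul (ν ^ 2 - 2 * ν / (2 * x) + 1 / (4 * x ^ 2))).add (i2.const_mul (2 * ν / (2 * x) - 2 / (4 * x ^ 2)))).add
      (i3.const_mul (1 / (4 * x ^ 2))))
    simp only [Pi.add_apply] at a1 a2 a3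
    rw [← a1, ← a2, ← a3]
    refine integral_congr_ae (Eventually.of_forall fun u => ?_)
    simp only
    unfold ph57
    generalize ‖fu X a (l - τ * I) u‖ ^ 2 * u ^ (-2 : ℝ) = G
    generalize u ^ (-(2 * x / L)) = E
    generalize (ν - Real.log u / L) ^ 2 = q
    field_simp
    ring
  unfold Pj57 mu57
  rw [e]
  generalize (∫ u in Ioi (0:ℝ), ‖fu X a (l - τ * I) u‖ ^ 2 * u ^ (-2 : ℝ) * ph57 ν x L u) = I0
  generalize (∫ u in Ioi (0:ℝ), ‖fu X a (l - τ * I) u‖ ^ 2 * u ^ (-2 : ℝ) * (u ^ (-(2 * x / L))) ^ 1) = I1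
  generalize (∫ u in Ioi (0:ℝ), ‖fu X a (l - τ * I) u‖ ^ 2 * u ^ (-2 : ℝ) * (u ^ (-(2 * x / L))) ^ 2) = I2
  generalize (∫ u in Ioi (0:ℝ), ‖fu X a (l - τ * I) u‖ ^ 2 * u ^ (-2 : ℝ) * (u ^ (-(2 * x / L))) ^ 3) = I3
  field_simp
  ring

/-- linear error -/
lemma lin57 {ν x η P1 P2 P3 Φ1 Φ2 Φ3 : ℝ} (hx : 0 < x) (p1 : |P1 - Φ1| ≤ η) (p2 : |P2 - Φ2| ≤ η) (p3 : |P3 - Φ3| ≤ η) :
    ν ^ 2 * P1 - 2 * ν * ((P1 - P2) / (2 * x)) + (P1 - 2 * P2 + P3) / (4 * x ^ 2) ≤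
      ν ^ 2 * Φ1 - 2 * ν * ((Φ1 - Φ2) / (2 * x)) + (Φ1 - 2 * Φ2 + Φ3) / (4 * x ^ 2) +
      η * (1 + ν ^ 2 + 2 * |ν| / x + 1 / x ^ 2) := by
  have hη : 0 ≤ η := (abs_nonneg _).trans p1
  have r1 : ν ^ 2 * (P1 - Φ1) ≤ ν ^ 2 * η := mul_le_mul_of_nonneg_left ((le_abs_self _).trans p1) (sq_nonneg _)
  have r2 : -(2 * ν * (((P1 - Φ1) - (P2 - Φ2)) / (2 * x))) ≤ 2 * |ν| / x * η := by
    refine (neg_le_abs _).trans ?_
    rw [abs_mul, abs_mul, abs_of_pos (by norm_num : (0:ℝ) < 2), abs_div, abs_of_pos (by positivity : 0 < 2 * x)]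
    have h6 : |(P1 - Φ1) - (P2 - Φ2)| ≤ 2 * η := (abs_sub _ _).trans (by linarith)
    calc 2 * |ν| * (|(P1 - Φ1) - (P2 - Φ2)| / (2 * x)) ≤ 2 * |ν| * (2 * η / (2 * x)) := by gcongr
      _ = _ := by field_simp
  have r3 : ((P1 - Φ1) - 2 * (P2 - Φ2) + (P3 - Φ3)) / (4 * x ^ 2) ≤ 1 / x ^ 2 * η := by
    have h6 : (P1 - Φ1) - 2 * (P2 - Φ2) + (P3 - Φ3) ≤ 4 * η := by
      have a1 := (abs_le.1 p1).2
      have a2 := (abs_le.1 p2).1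
      have a3 := (abs_le.1 p3).2
      linarith
    calc ((P1 - Φ1) - 2 * (P2 - Φ2) + (P3 - Φ3)) / (4 * x ^ 2) ≤ 4 * η / (4 * x ^ 2) := by gcongr
      _ = _ := by field_simp
  have r4 : (ν ^ 2 * P1 - 2 * ν * ((P1 - P2) / (2 * x)) + (P1 - 2 * P2 + P3) / (4 * x ^ 2)) -
      (ν ^ 2 * Φ1 - 2 * ν * ((Φ1 - Φ2) / (2 * x)) + (Φ1 - 2 * Φ2 + Φ3) / (4 * x ^ 2)) =
      ν ^ 2 * (P1 - Φ1) + -(2 * ν * (((P1 - Φ1) - (P2 - Φ2)) / (2 * x))) +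
      ((P1 - Φ1) - 2 * (P2 - Φ2) + (P3 - Φ3)) / (4 * x ^ 2) := by
    field_simp
    ring
  have r5 : ν ^ 2 * η + 2 * |ν| / x * η + 1 / x ^ 2 * η ≤ η * (1 + ν ^ 2 + 2 * |ν| / x + 1 / x ^ 2) := by
    have : η * (1 + ν ^ 2 + 2 * |ν| / x + 1 / x ^ 2) = η + (ν ^ 2 * η + 2 * |ν| / x * η + 1 / x ^ 2 * η) := by ring
    linarith
  linarith

/-- **P3**: the second moments at `1/2 + jx/L`, `j = 1, 2, 3`, determine the second moment on the line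
and bound the one of the derivative. -/
theorem hl_spec {b K ν ε : ℝ} (hb : 0 < b) (hK : 0 ≤ K) (hε : 0 < ε) :
    ∃ x0 : ℝ, 0 < x0 ∧ ∀ x : ℝ, 0 < x → x ≤ x0 → ∃ δ : ℝ, 0 < δ ∧
      ∀ (X : ℕ) (a : ℕ → ℝ) (l τ L Φ1 Φ2 Φ3 : ℝ), 1 ≤ l → 1 / δ ≤ l → 1 ≤ L → |τ| ≤ K * l →
        S1 X a ^ 2 ≤ δ * l → S1 X a ^ 2 * l ≤ δ * Real.exp (b * L) →
        |Φ1| ≤ K → |Φ2| ≤ K → |Φ3| ≤ K →
        |Fs X a l τ (1 / 2 + x / L) - Φ1| ≤ δ → |Fs X a l τ (1 / 2 + 2 * x / L) - Φ2| ≤ δ →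
        |Fs X a l τ (1 / 2 + 3 * x / L) - Φ3| ≤ δ →
        |Fs X a l τ (1 / 2) - Φ1| ≤ ε ∧
        2 * (l + 1 / 2) * (∫ u in Ioi (0:ℝ), ‖fu X a (l - τ * I) u‖ ^ 2 * u ^ (-2 : ℝ) * (ν - Real.log u / L) ^ 2) ≤
          ν ^ 2 * Φ1 - 2 * ν * ((Φ1 - Φ2) / (2 * x)) + (Φ1 - 2 * Φ2 + Φ3) / (4 * x ^ 2) + ε := by
  obtain ⟨Cq, hCq⟩ : ∃ Cq : ℝ, Cq = 2 * ν ^ 2 * b + 6 * |ν| * b ^ 2 + 4 * b ^ 3 := ⟨_, rfl⟩
  have hCq0 : 0 ≤ Cq := by rw [hCq]; positivity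
  obtain ⟨CC, hCC⟩ : ∃ CC : ℝ, CC = Real.exp b * (2 * b) * (K + 1) + Real.exp b * Cq * (K + 1) + 1 := ⟨_, rfl⟩
  have hCCa : 0 ≤ Real.exp b * (2 * b) * (K + 1) := by positivity
  have hCCb : 0 ≤ Real.exp b * Cq * (K + 1) := by positivity
  have hCC0 : 0 < CC := by linarith
  refine ⟨min (1 / 24) (ε / (2 * CC)), by positivity, fun x hx hxx => ?_⟩
  have hx1 : x ≤ 1 / 24 := hxx.trans (min_le_left _ _)
  have hx2 : x ≤ ε / (2 * CC) := hxx.trans (min_le_right _ _)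
  have hx3 : x * CC ≤ ε / 2 := by
    rw [le_div_iff₀ (by positivity)] at hx2
    linarith
  obtain ⟨B, hB⟩ : ∃ B : ℝ, B = (3 * ν ^ 2 + 32 + |ν| / x + 1 / (4 * x ^ 2)) +
    x * (12 * ν ^ 2 * (b + 1) + 216 * |ν| * (b + 1) ^ 2 + 864 * (b + 1) ^ 3) + 1 := ⟨_, rfl⟩
  have hBa : 0 ≤ 3 * ν ^ 2 + 32 + |ν| / x + 1 / (4 * x ^ 2) := by positivity
  have hBb : 0 ≤ x * (12 * ν ^ 2 * (b + 1) + 216 * |ν| * (b + 1) ^ 2 + 864 * (b + 1) ^ 3) := by positivity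
  obtain ⟨M, hM⟩ : ∃ M : ℝ, M = 1 + ν ^ 2 + 2 * |ν| / x + 1 / x ^ 2 := ⟨_, rfl⟩
  have hM1 : 1 ≤ M := by
    have : 0 ≤ ν ^ 2 + 2 * |ν| / x + 1 / x ^ 2 := by positivity
    linarith
  have hB1 : 1 ≤ B := by linarith
  obtain ⟨D, hD⟩ : ∃ D : ℝ, D = B * (12 + 6 * (2 + K) ^ 2) + (1 + 3 * (K + 1)) * M + 1 := ⟨_, rfl⟩
  have hDa : 0 ≤ B * (12 + 6 * (2 + K) ^ 2) := mul_nonneg (by linarith) (by positivity)
  have hDb : 0 ≤ (1 + 3 * (K + 1)) * M := mul_nonneg (by linarith) (by linarith)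
  have hD0 : 0 < D := by linarith
  refine ⟨min 1 (ε / (2 * D)), by positivity, ?_⟩
  obtain ⟨δ, hδ⟩ : ∃ δ : ℝ, δ = min 1 (ε / (2 * D)) := ⟨_, rfl⟩
  rw [← hδ]
  intro X a l τ L Φ1 Φ2 Φ3 hl hlδ hL hτ hS hS' hK1 hK2 hK3 h1 h2 h3
  have hδ0 : 0 < δ := by rw [hδ]; positivity
  have hδ1 : δ ≤ 1 := by rw [hδ]; exact min_le_left _ _
  have hδD : δ * D ≤ ε / 2 := by
    have : δ ≤ ε / (2 * D) := by rw [hδ]; exact min_le_right _ _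
    rw [le_div_iff₀ (by positivity)] at this
    linarith
  obtain ⟨p1, p1'⟩ := PF57 X a hl hx hx1 hL hδ0 hδ1 hlδ hK 1 (by norm_num) hK1 (by simpa using h1)
  obtain ⟨p2, -⟩ := PF57 X a hl hx hx1 hL hδ0 hδ1 hlδ hK 2 (by norm_num) hK2 (by simpa using h2)
  obtain ⟨p3, -⟩ := PF57 X a hl hx hx1 hL hδ0 hδ1 hlδ hK 3 (by norm_num) hK3 (by simpa using h3)
  have g2 := ap1_57 X a hl hτ hK hL hx hx1 hb hB1 hδ0.le hS hS' p1'
  obtain ⟨g3, g4⟩ := ap2_57 X a hl hτ hK hL hx hx1 hb hCq (B := B) (by linarith) (by linarith) hδ0.le hS hS' p1'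
  rw [m1_57 X a hl hx hx1 hL] at g2
  have m2 := m2_57 X a (τ := τ) (ν := ν) hl hx hx1 hL g3
  have l1 := lin57 (ν := ν) hx p1 p2 p3
  have hxa : x * (Real.exp b * (2 * b)) * (K + 1) ≤ ε / 2 := by
    refine le_trans ?_ hx3
    rw [hCC, mul_assoc]
    refine mul_le_mul_of_nonneg_left ?_ hx.le
    linarith
  have hxb : x * (Real.exp b * Cq) * (K + 1) ≤ ε / 2 := by
    refine le_trans ?_ hx3
    rw [hCC, mul_assoc]
    refine mul_le_mul_of_nonneg_left ?_ hx.le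
    linarith
  have hDD : δ * (B * (12 + 6 * (2 + K) ^ 2)) + δ * (1 + 3 * (K + 1)) * M ≤ ε / 2 := by
    refine le_trans ?_ hδD
    have : δ * D = δ * (B * (12 + 6 * (2 + K) ^ 2)) + δ * (1 + 3 * (K + 1)) * M + δ := by rw [hD]; ring
    linarith
  have hpp : 0 ≤ δ * (1 + 3 * (K + 1)) := by positivity
  constructor
  · have h5 : δ * (1 + 3 * (K + 1)) ≤ δ * (1 + 3 * (K + 1)) * M := le_mul_of_one_le_right hpp hM1
    have h6 : Fs X a l τ (1 / 2) - Φ1 = (Fs X a l τ (1 / 2) - Pj57 X a l τ x L 1) + (Pj57 X a l τ x L 1 - Φ1) := by ring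
    rw [h6]
    refine (abs_add_le _ _).trans ?_
    linarith
  · have m3 : 2 * (l + 1 / 2) * (∫ u in Ioi (0:ℝ), ‖fu X a (l - τ * I) u‖ ^ 2 * u ^ (-2 : ℝ) * (ν - Real.log u / L) ^ 2) =
        mu57 X a l τ (fun u => (ν - Real.log u / L) ^ 2) := rfl
    rw [m3, m2]
    have g4' := (le_abs_self _).trans g4
    rw [← hM] at l1
    linarith

end Pool.Agent.Helper57.HL
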