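import Pool.Agent.Helper57.HL.Co
import Pool.Agent.Helper57.HL.Sr

/-!
# HL-FS: the twisted second moment off the line, for all coefficients
-/

open MeasureTheory Set Filter Topology Complex
open Pool.Agent.Helper57.Zeta Pool.Agent.Helper57.LH Pool.Agent.Helper57.ED

namespace Pool.Agent.Helper57.HL

/-- `∑ a_h a_k [h, k]^{-2σ}` -/
noncomputable def Q1 (X : ℕ) (a : ℕ → ℝ) (σ : ℝ) : ℝ :=
  ∑ h ∈ Finset.Icc 1 X, ∑ k ∈ Finset.Icc 1 X, a h * a k * (Nat.lcm h k : ℝ) ^ (-2 * σ)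

/-- `∑ a_h a_k (h, k)^{1-2σ} / [h, k]` -/
noncomputable def Q2 (X : ℕ) (a : ℕ → ℝ) (σ : ℝ) : ℝ :=
  ∑ h ∈ Finset.Icc 1 X, ∑ k ∈ Finset.Icc 1 X, a h * a k * ((Nat.gcd h k : ℝ) ^ (1 - 2 * σ) / Nat.lcm h k)

/-- **P4, assembled**: the second moment off the line. -/
theorem hl_fs {l τ σ : ℝ} (hl : 1 ≤ l) (hσ : 1 / 2 < σ) (hσ1 : σ ≤ 3 / 4) :
    ∃ c : ℝ, 0 ≤ c ∧ |c - l ^ (1 - 2 * σ) / (2 * σ - 1)| ≤ 13 * (1 + |τ| / l) ∧
      ∀ (X : ℕ) (a : ℕ → ℝ), |Fs X a l τ σ - (zs σ * Q1 X a σ - c * Q2 X a σ)| ≤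
        S1 X a ^ 2 * (15 * (1 + |τ| / l) / (l * (2 * σ - 1))) := by
  obtain ⟨c, hc0, hc1, hc⟩ := corr_c (τ := τ) hl hσ hσ1
  refine ⟨c, hc0, hc1, fun X a => ?_⟩
  have hl0 : 0 < l := by linarith
  have hz : 0 < ((l : ℂ) - τ * I).re := by simp [hl0]
  have h1 : Fs X a l τ σ = ∑ h ∈ Finset.Icc 1 X, ∑ k ∈ Finset.Icc 1 X,
      a h * a k * (2 * (l + σ) * Cc (l - τ * I) σ h k) := by
    unfold Fs
    rw [expand X a hz (by linarith) (by linarith), Finset.mul_sum]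
    refine Finset.sum_congr rfl fun h _ => ?_
    rw [Finset.mul_sum]
    refine Finset.sum_congr rfl fun k _ => ?_
    ring
  have h2 : zs σ * Q1 X a σ - c * Q2 X a σ = ∑ h ∈ Finset.Icc 1 X, ∑ k ∈ Finset.Icc 1 X,
      a h * a k * (zs σ * (Nat.lcm h k : ℝ) ^ (-2 * σ) - c * ((Nat.gcd h k : ℝ) ^ (1 - 2 * σ) / Nat.lcm h k)) := by
    unfold Q1 Q2
    rw [Finset.mul_sum, Finset.mul_sum, ← Finset.sum_sub_distrib]
    refine Finset.sum_congr rfl fun h _ => ?_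
    rw [Finset.mul_sum, Finset.mul_sum, ← Finset.sum_sub_distrib]
    refine Finset.sum_congr rfl fun k _ => ?_
    ring
  set E := 15 * (1 + |τ| / l) / (l * (2 * σ - 1)) with hE
  rw [h1, h2, ← Finset.sum_sub_distrib]
  have h3 : S1 X a ^ 2 * E = ∑ h ∈ Finset.Icc 1 X, ∑ k ∈ Finset.Icc 1 X, |a h| * |a k| * E := by
    unfold S1
    rw [sq, Finset.sum_mul_sum, Finset.sum_mul]
    refine Finset.sum_congr rfl fun h _ => ?_
    rw [Finset.sum_mul]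
  rw [h3]
  refine (Finset.abs_sum_le_sum_abs _ _).trans (Finset.sum_le_sum fun h hh => ?_)
  rw [← Finset.sum_sub_distrib]
  refine (Finset.abs_sum_le_sum_abs _ _).trans (Finset.sum_le_sum fun k hk => ?_)
  rw [← mul_sub, abs_mul, abs_mul]
  exact mul_le_mul_of_nonneg_left (hc h k (Finset.mem_Icc.1 hh).1 (Finset.mem_Icc.1 hk).1) (by positivity)

end Pool.Agent.Helper57.HL
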