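import Pool.Agent.Helper47.LTFourier
import Pool.Agent.Helper57.M.B

/-!
# HL-PL: Plancherel for `FT` (equality), integrable and square integrable functions
-/

open MeasureTheory Set Filter Topology Complex FourierTransform
open scoped ENNReal RealInnerProductSpace
open Pool.Agent.Helper57.Zeta Pool.Agent.Helper57.LH

namespace Pool.Agent.Helper57.HL

lemma FT_two_pi57 (g : ℝ → ℂ) (x : ℝ) : FT g (2 * Real.pi * x) = 𝓕⁻ g x := by
  rw [Real.fourierInv_eq']
  unfold FT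
  refine integral_congr_ae (Eventually.of_forall fun v => ?_)
  simp only [smul_eq_mul]
  congr 2
  have : (2 * Real.pi * ⟪v, x⟫ : ℝ) = 2 * Real.pi * x * v := by
    simp only [RCLike.inner_apply, conj_trivial]; ring
  rw [this]
  push_cast
  ring

/-- Plancherel, equality. -/
theorem planch_eq {g : ℝ → ℂ} (h1 : Integrable g) (h2 : Integrable (fun u => ‖g u‖ ^ 2)) :
    Integrable (fun b => ‖FT g b‖ ^ 2) ∧ ∫ b, ‖FT g b‖ ^ 2 = 2 * Real.pi * ∫ u, ‖g u‖ ^ 2 := by
  have hpi : (2 * Real.pi) ≠ 0 := by positivity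
  have h2' : MemLp g 2 := (memLp_two_iff_integrable_sq_norm h1.aestronglyMeasurable).2 h2
  have key := Pool.Agent.Helper47.LT.lintegral_fourierInv_sq h1 h2'
  set Φ : ℝ → ℝ := fun b => ‖FT g b‖ ^ 2 with hΦ
  have hn : ∀ x : ℝ, ‖𝓕⁻ g x‖ₑ ^ 2 = ENNReal.ofReal (Φ (2 * Real.pi * x)) := by
    intro x
    have : ‖𝓕⁻ g x‖ ^ 2 = Φ (2 * Real.pi * x) := by
      rw [← FT_two_pi57]
    rw [← this, ← ofReal_norm, ENNReal.ofReal_pow (norm_nonneg _)]
  have hn2 : ∀ u : ℝ, ‖g u‖ₑ ^ 2 = ENNReal.ofReal (‖g u‖ ^ 2) := by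
    intro u
    rw [← ofReal_norm, ← ENNReal.ofReal_pow (norm_nonneg _)]
  simp_rw [hn, hn2] at key
  have hΦ0 : ∀ b, 0 ≤ Φ b := fun b => by positivity
  have hfin : ∫⁻ u, ENNReal.ofReal (‖g u‖ ^ 2) ≠ ⊤ := by
    have := (hasFiniteIntegral_iff_ofReal (Eventually.of_forall fun u => sq_nonneg ‖g u‖)).1 h2.2
    exact this.ne
  have hΦc : Continuous (fun x : ℝ => Φ (2 * Real.pi * x)) := by
    have hc := Pool.Agent.Helper47.LT.fourierInv_continuous (V := ℝ) h1
    have : (fun x : ℝ => Φ (2 * Real.pi * x)) = fun x => ‖𝓕⁻ g x‖ ^ 2 := by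
      funext x
      rw [← FT_two_pi57]
    rw [this]
    exact (hc.norm).pow 2
  have hI : Integrable (fun x : ℝ => Φ (2 * Real.pi * x)) := by
    refine ⟨hΦc.aestronglyMeasurable, ?_⟩
    rw [hasFiniteIntegral_iff_ofReal (Eventually.of_forall fun x => hΦ0 _), key]
    exact hfin.lt_top
  have hI' : Integrable Φ := (integrable_comp_mul_left_iff Φ hpi).1 hI
  refine ⟨hI', ?_⟩
  have e1 : ∫ x : ℝ, Φ (2 * Real.pi * x) = ∫ u, ‖g u‖ ^ 2 := by
    rw [integral_eq_lintegral_of_nonneg_ae (Eventually.of_forall fun x => hΦ0 _)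
      hΦc.aestronglyMeasurable, integral_eq_lintegral_of_nonneg_ae
      (Eventually.of_forall fun u => sq_nonneg ‖g u‖) h2.1, key]
  rw [Measure.integral_comp_mul_left, smul_eq_mul, abs_of_pos (by positivity)] at e1
  rw [← e1]
  field_simp

end Pool.Agent.Helper57.HL
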