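import Pool.Agent.Helper57.ED.RhB
import Pool.Agent.Helper57.HL.Pl

/-!
# HL-ME: Mellin transform of `fu` on vertical lines; mean square on the line (equality) and the mean
square of the derivative

The first lemmas are those of `ED/SmA.lean` (private there).
-/

open MeasureTheory Set Filter Topology Complex
open Pool.Agent.Helper57.Zeta Pool.Agent.Helper57.LH Pool.Agent.Helper57.ED

namespace Pool.Agent.Helper57.HL

lemma exp_image : Real.exp '' (univ : Set ℝ) = Ioi 0 := by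
  rw [image_univ, Real.range_exp]

lemma cov {E : Type*} [NormedAddCommGroup E] [NormedSpace ℝ E] (F : ℝ → E) :
    ∫ u in Ioi (0:ℝ), F u = ∫ v, Real.exp v • F (Real.exp v) := by
  rw [← exp_image, integral_image_eq_integral_abs_deriv_smul MeasurableSet.univ
    (fun x _ => (Real.hasDerivAt_exp x).hasDerivWithinAt) Real.exp_injective.injOn, setIntegral_univ]
  refine integral_congr_ae (Eventually.of_forall fun v => ?_)
  simp only
  rw [abs_of_pos (Real.exp_pos v)]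

lemma covI {E : Type*} [NormedAddCommGroup E] [NormedSpace ℝ E] (F : ℝ → E) :
    IntegrableOn F (Ioi 0) ↔ Integrable (fun v => Real.exp v • F (Real.exp v)) := by
  rw [← exp_image, integrableOn_image_iff_integrableOn_abs_deriv_smul MeasurableSet.univ
    (fun x _ => (Real.hasDerivAt_exp x).hasDerivWithinAt) Real.exp_injective.injOn, integrableOn_univ]
  refine integrable_congr (Eventually.of_forall fun v => ?_)
  simp only
  rw [abs_of_pos (Real.exp_pos v)]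

lemma scale {s z : ℂ} {h : ℕ} (hh : 1 ≤ h) {u : ℝ} (hu : 0 < u) :
    rho z (u / h) * (u : ℂ) ^ (-s - 1) =
      (h : ℂ) ^ (-s - 1) * (fun x : ℝ => rho z x * (x : ℂ) ^ (-s - 1)) ((h : ℝ)⁻¹ * u) := by
  have hh0 : (0:ℝ) < h := by exact_mod_cast hh
  have e1 : (u : ℂ) = ((h : ℝ) : ℂ) * (((h : ℝ)⁻¹ * u : ℝ) : ℂ) := by
    rw [← Complex.ofReal_mul, mul_inv_cancel_left₀ hh0.ne']
  have e2 : (u : ℂ) ^ (-s - 1) = ((h : ℝ) : ℂ) ^ (-s - 1) * (((h : ℝ)⁻¹ * u : ℝ) : ℂ) ^ (-s - 1) := by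
    conv_lhs => rw [e1]
    exact Complex.mul_cpow_ofReal_nonneg hh0.le (by positivity) _
  simp only
  rw [e2, show u / (h : ℝ) = (h : ℝ)⁻¹ * u by rw [div_eq_inv_mul]]
  push_cast
  ring

lemma mellin_one {z : ℂ} (hz : 0 < z.re) {s : ℂ} (hs : 0 < s.re) (hs1 : s.re < 1) {h : ℕ}
    (hh : 1 ≤ h) :
    IntegrableOn (fun u : ℝ => rho z (u / h) * (u : ℂ) ^ (-s - 1)) (Ioi 0) ∧
    ∫ u in Ioi (0:ℝ), rho z (u / h) * (u : ℂ) ^ (-s - 1) =
      (h : ℂ) ^ (-s) * (riemannZeta s / (s + z)) := by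
  have hh0 : (0:ℝ) < h := by exact_mod_cast hh
  have hhi : (0:ℝ) < (h : ℝ)⁻¹ := inv_pos.2 hh0
  set F : ℝ → ℂ := fun x : ℝ => rho z x * (x : ℂ) ^ (-s - 1) with hF
  have hI : IntegrableOn F (Ioi 0) := integrable_rho hz hs hs1
  have hI2 : IntegrableOn (fun u => F ((h : ℝ)⁻¹ * u)) (Ioi 0) := by
    rw [integrableOn_Ioi_comp_mul_left_iff F 0 hhi, mul_zero]
    exact hI
  have heq : EqOn (fun u : ℝ => (h : ℂ) ^ (-s - 1) * F ((h : ℝ)⁻¹ * u))
      (fun u : ℝ => rho z (u / h) * (u : ℂ) ^ (-s - 1)) (Ioi 0) := fun u hu =>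
    (scale hh hu).symm
  constructor
  · have h1 : IntegrableOn (fun u : ℝ => (h : ℂ) ^ (-s - 1) * F ((h : ℝ)⁻¹ * u)) (Ioi 0) :=
      hI2.const_mul _
    exact h1.congr_fun heq measurableSet_Ioi
  · rw [← setIntegral_congr_fun measurableSet_Ioi heq, integral_const_mul,
      integral_comp_mul_left_Ioi F 0 hhi, mul_zero, hF, mellin_rho hz hs hs1, inv_inv,
      Complex.real_smul, ← mul_assoc]
    congr 1
    have hne : (h : ℂ) ≠ 0 := by exact_mod_cast hh0.ne'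
    rw [Complex.cpow_sub _ _ hne, Complex.cpow_one]
    push_cast
    field_simp

lemma mellin_fu (X : ℕ) (b : ℕ → ℝ) {z : ℂ} (hz : 0 < z.re) {s : ℂ} (hs : 0 < s.re)
    (hs1 : s.re < 1) :
    IntegrableOn (fun u : ℝ => fu X b z u * (u : ℂ) ^ (-s - 1)) (Ioi 0) ∧
    ∫ u in Ioi (0:ℝ), fu X b z u * (u : ℂ) ^ (-s - 1) =
      riemannZeta s * Mo X b s / (s + z) := by
  have e : ∀ u : ℝ, fu X b z u * (u : ℂ) ^ (-s - 1) =
      ∑ h ∈ Finset.Icc 1 X, (b h : ℂ) * (rho z (u / h) * (u : ℂ) ^ (-s - 1)) := by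
    intro u
    unfold fu
    rw [Finset.sum_mul]
    exact Finset.sum_congr rfl fun h _ => by ring
  have hI : ∀ h ∈ Finset.Icc 1 X, IntegrableOn
      (fun u : ℝ => (b h : ℂ) * (rho z (u / h) * (u : ℂ) ^ (-s - 1))) (Ioi 0) := fun h hh =>
    (mellin_one hz hs hs1 (Finset.mem_Icc.1 hh).1).1.const_mul _
  constructor
  · simp_rw [e]
    exact integrable_finsetSum _ hI
  · simp_rw [e]
    rw [integral_finsetSum _ hI]
    unfold Mo
    rw [mul_div_assoc, Finset.sum_div, Finset.mul_sum]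
    refine Finset.sum_congr rfl fun h hh => ?_
    rw [integral_const_mul, (mellin_one hz hs hs1 (Finset.mem_Icc.1 hh).1).2]
    ring

lemma measurable_fu (X : ℕ) (b : ℕ → ℝ) (z : ℂ) : Measurable (fu X b z) := by
  unfold fu
  exact Finset.measurable_fun_sum _ fun h _ =>
    measurable_const.mul ((measurable_rho z).comp (measurable_id.div_const _))

lemma fu_bound (X : ℕ) (b : ℕ → ℝ) {z : ℂ} (hz : 0 < z.re) :
    ∃ C : ℝ, 0 ≤ C ∧ ∀ u : ℝ, 0 < u → ‖fu X b z u‖ ≤ C := by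
  refine ⟨∑ h ∈ Finset.Icc 1 X, |b h| * (1 + ‖z‖ / z.re),
    Finset.sum_nonneg fun h _ => by positivity, fun u hu => ?_⟩
  unfold fu
  refine (norm_sum_le _ _).trans (Finset.sum_le_sum fun h hh => ?_)
  rw [norm_mul, Complex.norm_real, Real.norm_eq_abs]
  have hh0 : (0:ℝ) < h := by exact_mod_cast (Finset.mem_Icc.1 hh).1
  exact mul_le_mul_of_nonneg_left (norm_rho_le hz (by positivity)) (abs_nonneg _)

lemma fu_small (X : ℕ) (b : ℕ → ℝ) {z : ℂ} (hz : 0 < z.re) :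
    ∃ C : ℝ, 0 ≤ C ∧ ∀ u : ℝ, 0 < u → u < 1 → ‖fu X b z u‖ ≤ C * u := by
  refine ⟨∑ h ∈ Finset.Icc 1 X, |b h|, Finset.sum_nonneg fun h _ => abs_nonneg _, fun u hu hu1 => ?_⟩
  unfold fu
  rw [Finset.sum_mul]
  refine (norm_sum_le _ _).trans (Finset.sum_le_sum fun h hh => ?_)
  rw [norm_mul, Complex.norm_real, Real.norm_eq_abs]
  have hh1 : (1:ℝ) ≤ h := by exact_mod_cast (Finset.mem_Icc.1 hh).1
  have hh0 : (0:ℝ) < h := by linarith
  refine mul_le_mul_of_nonneg_left ?_ (abs_nonneg _)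
  have h1 : u / h ≤ u := div_le_self hu.le hh1
  rw [rho_small z (lt_of_le_of_lt h1 hu1), norm_neg, norm_div, Complex.norm_real,
    Real.norm_of_nonneg (by positivity)]
  have h2 : 1 ≤ ‖z + 1‖ := by
    refine le_trans ?_ (Complex.re_le_norm _)
    rw [Complex.add_re, Complex.one_re]
    linarith
  rw [div_le_iff₀ (by linarith)]
  calc u / h ≤ u := h1
    _ = u * 1 := (mul_one u).symm
    _ ≤ u * ‖z + 1‖ := mul_le_mul_of_nonneg_left h2 hu.le

lemma integrable_sq (X : ℕ) (b : ℕ → ℝ) {z : ℂ} (hz : 0 < z.re) {σ : ℝ} (hσ : 0 < σ)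
    (hσ1 : σ < 1) :
    IntegrableOn (fun u : ℝ => ‖fu X b z u‖ ^ 2 * u ^ (-2 * σ - 1)) (Ioi 0) := by
  have hmeas : Measurable (fun u : ℝ => ‖fu X b z u‖ ^ 2 * u ^ (-2 * σ - 1)) :=
    ((measurable_fu X b z).norm.pow_const 2).mul (measurable_id.pow_const _)
  obtain ⟨C, hC, hC2⟩ := fu_bound X b hz
  obtain ⟨D, hD, hD2⟩ := fu_small X b hz
  rw [← Ioc_union_Ioi_eq_Ioi (zero_le_one : (0:ℝ) ≤ 1)]
  refine IntegrableOn.union ?_ ?_
  · rw [integrableOn_Ioc_iff_integrableOn_Ioo]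
    have h1 : IntegrableOn (fun u : ℝ => D ^ 2 * u ^ (1 - 2 * σ)) (Ioo 0 1) := by
      refine Integrable.const_mul ?_ _
      rw [← IntegrableOn, ← integrableOn_Ioc_iff_integrableOn_Ioo,
        ← intervalIntegrable_iff_integrableOn_Ioc_of_le zero_le_one]
      exact intervalIntegral.intervalIntegrable_rpow' (by linarith)
    refine h1.mono' hmeas.aestronglyMeasurable ?_
    refine (ae_restrict_iff' measurableSet_Ioo).2 (Eventually.of_forall fun u hu => ?_)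
    have h2 := hD2 u hu.1 hu.2
    have h3 : ‖fu X b z u‖ ^ 2 ≤ (D * u) ^ 2 := pow_le_pow_left₀ (norm_nonneg _) h2 2
    have h4 : 0 ≤ u ^ (-2 * σ - 1) := Real.rpow_nonneg hu.1.le _
    rw [Real.norm_of_nonneg (by positivity)]
    calc ‖fu X b z u‖ ^ 2 * u ^ (-2 * σ - 1) ≤ (D * u) ^ 2 * u ^ (-2 * σ - 1) :=
          mul_le_mul_of_nonneg_right h3 h4
      _ = D ^ 2 * (u ^ (2:ℝ) * u ^ (-2 * σ - 1)) := by
          rw [Real.rpow_two]
          ring
      _ = D ^ 2 * u ^ (1 - 2 * σ) := by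
          rw [← Real.rpow_add hu.1]
          congr 2
          ring
  · have h1 : IntegrableOn (fun u : ℝ => C ^ 2 * u ^ (-2 * σ - 1)) (Ioi 1) :=
      (integrableOn_Ioi_rpow_of_lt (by linarith) zero_lt_one).const_mul _
    refine h1.mono' hmeas.aestronglyMeasurable ?_
    refine (ae_restrict_iff' measurableSet_Ioi).2 (Eventually.of_forall fun u hu => ?_)
    have hu0 : (0:ℝ) < u := lt_trans zero_lt_one hu
    have h3 : ‖fu X b z u‖ ^ 2 ≤ C ^ 2 := pow_le_pow_left₀ (norm_nonneg _) (hC2 u hu0) 2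
    have h4 : 0 ≤ u ^ (-2 * σ - 1) := Real.rpow_nonneg hu0.le _
    rw [Real.norm_of_nonneg (by positivity)]
    exact mul_le_mul_of_nonneg_right h3 h4

/-- the function on the line -/
noncomputable def gg (X : ℕ) (b : ℕ → ℝ) (z : ℂ) (σ : ℝ) (v : ℝ) : ℂ :=
  fu X b z (Real.exp v) * ((Real.exp (-σ * v) : ℝ) : ℂ)

lemma gg_sq (X : ℕ) (b : ℕ → ℝ) (z : ℂ) (σ : ℝ) (v : ℝ) :
    ‖gg X b z σ v‖ ^ 2 =
      Real.exp v • (‖fu X b z (Real.exp v)‖ ^ 2 * Real.exp v ^ (-2 * σ - 1)) := by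
  unfold gg
  have e : Real.exp (-σ * v) ^ 2 = Real.exp v * Real.exp v ^ (-2 * σ - 1) := by
    rw [← Real.exp_nat_mul, ← Real.exp_mul, ← Real.exp_add]
    congr 1
    push_cast
    ring
  rw [norm_mul, Complex.norm_real, Real.norm_of_nonneg (Real.exp_pos _).le, mul_pow, e,
    smul_eq_mul]
  ring

lemma FT_gg (X : ℕ) (b : ℕ → ℝ) {z : ℂ} (hz : 0 < z.re) {σ : ℝ} (hσ : 0 < σ)
    (hσ1 : σ < 1) (t : ℝ) :
    Integrable (gg X b z σ) ∧ FT (gg X b z σ) (-t) =
      riemannZeta (σ + t * I) * Mo X b (σ + t * I) / (σ + t * I + z) := by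
  have key : ∀ t v : ℝ, Real.exp v • (fu X b z (Real.exp v) *
      ((Real.exp v : ℝ) : ℂ) ^ (-(σ + t * I : ℂ) - 1)) =
      Complex.exp (Complex.I * ((-t : ℝ) : ℂ) * v) * gg X b z σ v := by
    intro t v
    unfold gg
    have hne : (((Real.exp v : ℝ)) : ℂ) ≠ 0 := by exact_mod_cast (Real.exp_pos _).ne'
    rw [Complex.real_smul, Complex.cpow_def_of_ne_zero hne, ← Complex.ofReal_log (Real.exp_pos _).le,
      Real.log_exp]
    push_cast
    rw [mul_left_comm, ← Complex.exp_add, mul_left_comm, ← Complex.exp_add]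
    congr 2
    ring
  have hs : ∀ t : ℝ, 0 < (σ + t * I : ℂ).re ∧ (σ + t * I : ℂ).re < 1 := by
    intro t
    simp [hσ, hσ1]
  constructor
  · have h := (mellin_fu X b hz (hs 0).1 (hs 0).2).1
    rw [covI] at h
    refine h.congr (Eventually.of_forall fun v => ?_)
    simp only
    rw [key 0 v]
    simp
  · have h := (mellin_fu X b hz (hs t).1 (hs t).2).2
    rw [← h, cov]
    unfold FT
    refine integral_congr_ae (Eventually.of_forall fun v => ?_)
    simp only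
    rw [key t v]


lemma gg_meas57 (X : ℕ) (b : ℕ → ℝ) (z : ℂ) (σ : ℝ) : Measurable (gg X b z σ) := by
  unfold gg
  exact ((measurable_fu X b z).comp Real.measurable_exp).mul (by fun_prop)

/-- exponential decay -/
lemma gg_bd57 (X : ℕ) (b : ℕ → ℝ) {z : ℂ} (hz : 0 < z.re) {σ : ℝ} (hσ : 0 < σ) (hσ1 : σ < 1) :
    ∃ C κ : ℝ, 0 ≤ C ∧ 0 < κ ∧ ∀ v : ℝ, ‖gg X b z σ v‖ ≤ C * Real.exp (-κ * |v|) := by
  obtain ⟨C, hC, hC2⟩ := fu_bound X b hz
  obtain ⟨D, hD, hD2⟩ := fu_small X b hz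
  refine ⟨C + D, min σ (1 - σ), by positivity, lt_min hσ (by linarith), fun v => ?_⟩
  unfold gg
  rw [norm_mul, Complex.norm_real, Real.norm_of_nonneg (Real.exp_pos _).le]
  rcases le_or_gt 0 v with hv | hv
  · calc ‖fu X b z (Real.exp v)‖ * Real.exp (-σ * v) ≤ C * Real.exp (-σ * v) :=
          mul_le_mul_of_nonneg_right (hC2 _ (Real.exp_pos _)) (Real.exp_pos _).le
      _ ≤ (C + D) * Real.exp (-(min σ (1 - σ)) * |v|) := by
          refine mul_le_mul (by linarith) (Real.exp_le_exp.2 ?_) (Real.exp_pos _).le (by positivity)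
          rw [abs_of_nonneg hv, neg_mul, neg_mul, neg_le_neg_iff]
          exact mul_le_mul_of_nonneg_right (min_le_left _ _) hv
  · have h1 : Real.exp v < 1 := by rwa [Real.exp_lt_one_iff]
    calc ‖fu X b z (Real.exp v)‖ * Real.exp (-σ * v) ≤ D * Real.exp v * Real.exp (-σ * v) :=
          mul_le_mul_of_nonneg_right (hD2 _ (Real.exp_pos _) h1) (Real.exp_pos _).le
      _ = D * Real.exp ((1 - σ) * v) := by
          rw [mul_assoc, ← Real.exp_add]
          congr 2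
          ring
      _ ≤ (C + D) * Real.exp (-(min σ (1 - σ)) * |v|) := by
          refine mul_le_mul (by linarith) (Real.exp_le_exp.2 ?_) (Real.exp_pos _).le (by positivity)
          rw [abs_of_neg hv, neg_mul, mul_neg, neg_neg]
          exact mul_le_mul_of_nonpos_right (min_le_right _ _) hv.le

end Pool.Agent.Helper57.HL
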