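import Pool.Agent.Helper57.HL.Sp

/-!
# HL-SQ: `hl_spec`
-/

open MeasureTheory Set Filter Topology Complex
open Pool.Agent.Helper57.Zeta Pool.Agent.Helper57.LH Pool.Agent.Helper57.ED

namespace Pool.Agent.Helper57.HL

/-- `y - e^{-y}(1 - e^{-y})` -/
lemma el1_57 {y : ℝ} (hy : 0 ≤ y) :
    |y - Real.exp (-y) * (1 - Real.exp (-y))| ≤ 3 / 2 * y ^ 2 := by
  have h1 : 1 - Real.exp (-y) ≤ y := by
    have := Real.add_one_le_exp (-y)
    linarith
  have h0 : 0 ≤ 1 - Real.exp (-y) := by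
    have : Real.exp (-y) ≤ 1 := by
      rw [Real.exp_le_one_iff]; linarith
    linarith
  have h2 : y - y ^ 2 / 2 ≤ 1 - Real.exp (-y) := by
    have h := Real.quadratic_le_exp_of_nonneg hy
    have h3 : Real.exp (-y) * Real.exp y = 1 := by rw [← Real.exp_add]; simp
    have h4 := Real.exp_pos (-y)
    have h5 : Real.exp (-y) * (1 + y + y ^ 2 / 2) ≤ 1 :=
      (mul_le_mul_of_nonneg_left h h4.le).trans h3.le
    have h6 : 1 ≤ (1 - y + y ^ 2 / 2) * (1 + y + y ^ 2 / 2) := by nlinarith [sq_nonneg (y ^ 2)]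
    have h7 : 0 < 1 + y + y ^ 2 / 2 := by positivity
    have h8 : Real.exp (-y) ≤ 1 - y + y ^ 2 / 2 := by
      by_contra hc
      push Not at hc
      have := mul_lt_mul_of_pos_right hc h7
      linarith
    linarith
  rw [abs_le]
  constructor
  · nlinarith
  · nlinarith

/-- `y² - e^{-y}(1 - e^{-y})²` -/
lemma el2_57 {y : ℝ} (hy : 0 ≤ y) :
    |y ^ 2 - Real.exp (-y) * (1 - Real.exp (-y)) ^ 2| ≤ 2 * y ^ 3 := by
  set E := Real.exp (-y) with hE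
  have h1 : 1 - E ≤ y := by
    have := Real.add_one_le_exp (-y)
    linarith
  have hE1 : E ≤ 1 := by
    rw [hE, Real.exp_le_one_iff]; linarith
  have hE0 : 0 < E := Real.exp_pos _
  have h0 : 0 ≤ 1 - E := by linarith
  have h2 : |y - E * (1 - E)| ≤ 3 / 2 * y ^ 2 := el1_57 hy
  have h3 := (abs_le.1 h2).2
  have h4 := (abs_le.1 h2).1
  -- y² - E(1-E)²: use (1-E)² ≤ y², and E(1-E)² ≥ (1-y)(...)...
  have h5 : (1 - E) ^ 2 ≤ y ^ 2 := pow_le_pow_left₀ h0 h1 2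
  have h6 : E * (1 - E) ^ 2 ≤ y ^ 2 := by
    calc E * (1 - E) ^ 2 ≤ 1 * (1 - E) ^ 2 := mul_le_mul_of_nonneg_right hE1 (sq_nonneg _)
      _ ≤ _ := by linarith
  rw [abs_of_nonneg (by linarith)]
  -- lower bound: 1 - E ≥ y E  (since e^y ≥ 1 + y)
  have h7 : y * E ≤ 1 - E := by
    have h8 : (1 + y) * E ≤ 1 := by
      have h9 : E * Real.exp y = 1 := by rw [hE, ← Real.exp_add]; simp
      have h10 := Real.add_one_le_exp y
      nlinarith
    linarith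
  have h8 : (y * E) ^ 2 ≤ (1 - E) ^ 2 := pow_le_pow_left₀ (by positivity) h7 2
  have h9 : y ^ 2 * E ^ 3 ≤ E * (1 - E) ^ 2 := by nlinarith
  -- 1 - E³ ≤ 3 y ... want 2 y³ : use E ≥ 1 - y more carefully
  have h10 : y - y ^ 2 / 2 ≤ 1 - E := by
    have h := Real.quadratic_le_exp_of_nonneg hy
    have h3 : E * Real.exp y = 1 := by rw [hE, ← Real.exp_add]; simp
    have h5 : E * (1 + y + y ^ 2 / 2) ≤ 1 :=
      (mul_le_mul_of_nonneg_left h hE0.le).trans h3.le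
    have h6 : 1 ≤ (1 - y + y ^ 2 / 2) * (1 + y + y ^ 2 / 2) := by nlinarith [sq_nonneg (y ^ 2)]
    have h7 : 0 < 1 + y + y ^ 2 / 2 := by positivity
    have h8 : E ≤ 1 - y + y ^ 2 / 2 := by
      by_contra hc
      push Not at hc
      have := mul_lt_mul_of_pos_right hc h7
      linarith
    linarith
  rcases le_or_gt y 1 with hy1 | hy1
  · have h11 : 0 ≤ y - y ^ 2 / 2 := by nlinarith
    have h12 : (y - y ^ 2 / 2) ^ 2 ≤ (1 - E) ^ 2 := pow_le_pow_left₀ h11 h10 2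
    have h13 : 1 - y ≤ E := by linarith
    have h14 : (1 - y) * (y - y ^ 2 / 2) ^ 2 ≤ E * (1 - E) ^ 2 :=
      mul_le_mul h13 h12 (sq_nonneg _) hE0.le
    have h15 : y ^ 2 - (1 - y) * (y - y ^ 2 / 2) ^ 2 = 2 * y ^ 3 - y ^ 4 * (5 / 4 - y / 4) := by ring
    have h16 : 0 ≤ y ^ 4 * (5 / 4 - y / 4) := mul_nonneg (by positivity) (by linarith)
    linarith
  · have h11 : 0 ≤ E * (1 - E) ^ 2 := by positivity
    nlinarith [pow_pos (lt_trans zero_lt_one hy1) 2, pow_pos (lt_trans zero_lt_one hy1) 3,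
      mul_pos (pow_pos (lt_trans zero_lt_one hy1) 2) (sub_pos.2 hy1)]

/-- the remainder for `v ≥ 0` -/
lemma qv57 {x ν v : ℝ} (hx : 0 < x) (hv : 0 ≤ v) :
    |(ν - v) ^ 2 - (ν ^ 2 * Real.exp (-(2 * x * v)) - 2 * ν * ((Real.exp (-(2 * x * v)) - Real.exp (-(2 * x * v)) ^ 2) / (2 * x)) +
      (Real.exp (-(2 * x * v)) - 2 * Real.exp (-(2 * x * v)) ^ 2 + Real.exp (-(2 * x * v)) ^ 3) / (4 * x ^ 2))| ≤
    x * (2 * ν ^ 2 * v + 6 * |ν| * v ^ 2 + 4 * v ^ 3) := by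
  set y := 2 * x * v with hy
  have hy0 : 0 ≤ y := by positivity
  set E := Real.exp (-y) with hE
  have h1 : 1 - E ≤ y := by
    have := Real.add_one_le_exp (-y)
    linarith
  have hE1 : E ≤ 1 := by
    rw [hE, Real.exp_le_one_iff]; linarith
  have e1 := el1_57 hy0
  have e2 := el2_57 hy0
  rw [← hE] at e1 e2
  have hx2 : 0 < 4 * x ^ 2 := by positivity
  have e : (ν - v) ^ 2 - (ν ^ 2 * E - 2 * ν * ((E - E ^ 2) / (2 * x)) + (E - 2 * E ^ 2 + E ^ 3) / (4 * x ^ 2)) =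
      ν ^ 2 * (1 - E) + (-(2 * ν)) * ((y - E * (1 - E)) / (2 * x)) + (y ^ 2 - E * (1 - E) ^ 2) / (4 * x ^ 2) := by
    rw [hy]
    field_simp
    ring
  rw [e]
  have a1 : |ν ^ 2 * (1 - E)| ≤ ν ^ 2 * (2 * x * v) := by
    rw [abs_of_nonneg (mul_nonneg (sq_nonneg _) (by linarith))]
    exact mul_le_mul_of_nonneg_left h1 (sq_nonneg _)
  have a2 : |(-(2 * ν)) * ((y - E * (1 - E)) / (2 * x))| ≤ 2 * |ν| * (3 * x * v ^ 2) := by
    rw [abs_mul, abs_neg, abs_mul, abs_of_pos (by norm_num : (0:ℝ) < 2), abs_div, abs_of_pos (by positivity : 0 < 2 * x)]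
    refine mul_le_mul_of_nonneg_left ?_ (by positivity)
    rw [div_le_iff₀ (by positivity)]
    refine e1.trans (le_of_eq ?_)
    rw [hy]; ring
  have a3 : |(y ^ 2 - E * (1 - E) ^ 2) / (4 * x ^ 2)| ≤ 4 * x * v ^ 3 := by
    rw [abs_div, abs_of_pos hx2, div_le_iff₀ hx2]
    refine e2.trans (le_of_eq ?_)
    rw [hy]; ring
  calc _ ≤ |ν ^ 2 * (1 - E)| + |(-(2 * ν)) * ((y - E * (1 - E)) / (2 * x))| + |(y ^ 2 - E * (1 - E) ^ 2) / (4 * x ^ 2)| :=
        (abs_add_le _ _).trans (add_le_add (abs_add_le _ _) le_rfl)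
    _ ≤ ν ^ 2 * (2 * x * v) + 2 * |ν| * (3 * x * v ^ 2) + 4 * x * v ^ 3 := add_le_add (add_le_add a1 a2) a3
    _ = _ := by ring

lemma expv57 {u L x : ℝ} (hu : 0 < u) : u ^ (-(2 * x / L)) = Real.exp (-(2 * x * (Real.log u / L))) := by
  rw [Real.rpow_def_of_pos hu]
  congr 1
  ring

/-- the second test function -/
noncomputable def ph57 (ν x L u : ℝ) : ℝ :=
  (ν - Real.log u / L) ^ 2 - (ν ^ 2 * u ^ (-(2 * x / L)) -
    2 * ν * ((u ^ (-(2 * x / L)) - (u ^ (-(2 * x / L))) ^ 2) / (2 * x)) +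
    (u ^ (-(2 * x / L)) - 2 * (u ^ (-(2 * x / L))) ^ 2 + (u ^ (-(2 * x / L))) ^ 3) / (4 * x ^ 2))

lemma ph_meas57 (ν x L : ℝ) : Measurable (ph57 ν x L) := by
  unfold ph57
  fun_prop

lemma ph_small57 {ν x L u : ℝ} (hx : 0 < x) (hx1 : x ≤ 1 / 24) (hL : 1 ≤ L) (hu : 0 < u) (hu1 : u < 1) :
    |ph57 ν x L u| ≤ (3 * ν ^ 2 + 32 + |ν| / x + 1 / (4 * x ^ 2)) * u ^ (-(3/4) : ℝ) := by
  have hL0 : 0 < L := by linarith
  set E := u ^ (-(2 * x / L)) with hE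
  have hq1 : (1:ℝ) ≤ u ^ (-(1/4) : ℝ) := Real.one_le_rpow_of_pos_of_le_one_of_nonpos hu hu1.le (by norm_num)
  have hE1 : 1 ≤ E := Real.one_le_rpow_of_pos_of_le_one_of_nonpos hu hu1.le (by
    have : 0 < 2 * x / L := by positivity
    linarith)
  have hxL : x / L ≤ 1 / 24 := by
    rw [div_le_iff₀ hL0]; nlinarith
  have hE3 : E ^ 3 ≤ u ^ (-(3/4) : ℝ) := by
    rw [hE, ← Real.rpow_natCast, ← Real.rpow_mul hu.le]
    refine Real.rpow_le_rpow_of_exponent_ge hu hu1.le ?_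
    push_cast
    have : 2 * x / L = 2 * (x / L) := by ring
    rw [this]
    linarith
  have hR1 : (1:ℝ) ≤ u ^ (-(3/4) : ℝ) := Real.one_le_rpow_of_pos_of_le_one_of_nonpos hu hu1.le (by norm_num)
  have hlog : |Real.log u| ≤ 4 * u ^ (-(1/4) : ℝ) := by
    have h1 : Real.log (u ^ (-(1/4) : ℝ)) ≤ u ^ (-(1/4) : ℝ) - 1 := Real.log_le_sub_one_of_pos (by positivity)
    rw [Real.log_rpow hu] at h1
    rw [abs_of_neg (Real.log_neg hu hu1)]
    linarith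
  have hv2 : (Real.log u / L) ^ 2 ≤ 16 * u ^ (-(3/4) : ℝ) := by
    have h1 : |Real.log u / L| ≤ 4 * u ^ (-(1/4) : ℝ) := by
      rw [abs_div, abs_of_pos hL0]
      exact (div_le_self (abs_nonneg _) hL).trans hlog
    have h2 : |Real.log u / L| ^ 2 ≤ (4 * u ^ (-(1/4) : ℝ)) ^ 2 := pow_le_pow_left₀ (abs_nonneg _) h1 2
    rw [sq_abs] at h2
    refine h2.trans ?_
    have h3 : (u ^ (-(1/4) : ℝ)) ^ 2 ≤ u ^ (-(3/4) : ℝ) := by
      rw [← Real.rpow_natCast, ← Real.rpow_mul hu.le]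
      refine Real.rpow_le_rpow_of_exponent_ge hu hu1.le ?_
      norm_num
    rw [mul_pow]
    linarith
  set R := u ^ (-(3/4) : ℝ) with hR
  set v := Real.log u / L with hv
  have hE0 : 0 < E := by linarith
  have a1 : |(ν - v) ^ 2| ≤ 2 * ν ^ 2 * R + 32 * R := by
    rw [abs_of_nonneg (sq_nonneg _)]
    have : (ν - v) ^ 2 ≤ 2 * ν ^ 2 + 2 * v ^ 2 := by nlinarith [sq_nonneg (ν + v)]
    nlinarith [sq_nonneg ν]
  have a2 : |ν ^ 2 * E| ≤ ν ^ 2 * R := by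
    rw [abs_of_nonneg (by positivity)]
    refine mul_le_mul_of_nonneg_left ?_ (sq_nonneg _)
    nlinarith [mul_nonneg (sub_nonneg.2 hE1) hE0.le]
  have a3 : |2 * ν * ((E - E ^ 2) / (2 * x))| ≤ |ν| / x * R := by
    have h1 : |E - E ^ 2| ≤ R := by
      rw [abs_of_nonpos (by nlinarith)]
      nlinarith [mul_nonneg (sub_nonneg.2 hE1) hE0.le, mul_nonneg (mul_nonneg (sub_nonneg.2 hE1) hE0.le) hE0.le]
    rw [abs_mul, abs_mul, abs_of_pos (by norm_num : (0:ℝ) < 2), abs_div, abs_of_pos (by positivity : 0 < 2 * x)]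
    calc 2 * |ν| * (|E - E ^ 2| / (2 * x)) ≤ 2 * |ν| * (R / (2 * x)) := by gcongr
      _ = _ := by field_simp
  have a4 : |(E - 2 * E ^ 2 + E ^ 3) / (4 * x ^ 2)| ≤ 1 / (4 * x ^ 2) * R := by
    have h1 : |E - 2 * E ^ 2 + E ^ 3| ≤ R := by
      have h2 : E - 2 * E ^ 2 + E ^ 3 = E * (E - 1) ^ 2 := by ring
      rw [h2, abs_of_nonneg (by positivity)]
      nlinarith [mul_nonneg (sub_nonneg.2 hE1) hE0.le]
    rw [abs_div, abs_of_pos (by positivity : 0 < 4 * x ^ 2)]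
    calc |E - 2 * E ^ 2 + E ^ 3| / (4 * x ^ 2) ≤ R / (4 * x ^ 2) := by gcongr
      _ = _ := by ring
  have e : ph57 ν x L u = (ν - v) ^ 2 + -(ν ^ 2 * E) + 2 * ν * ((E - E ^ 2) / (2 * x)) +
      -((E - 2 * E ^ 2 + E ^ 3) / (4 * x ^ 2)) := by
    unfold ph57
    rw [← hE, ← hv]
    ring
  rw [e]
  calc _ ≤ |(ν - v) ^ 2| + |ν ^ 2 * E| + |2 * ν * ((E - E ^ 2) / (2 * x))| + |(E - 2 * E ^ 2 + E ^ 3) / (4 * x ^ 2)| := by
        refine (abs_add_le _ _).trans ?_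
        rw [abs_neg]
        refine add_le_add ((abs_add_le _ _).trans (add_le_add ((abs_add_le _ _).trans ?_) le_rfl)) le_rfl
        rw [abs_neg]
    _ ≤ (2 * ν ^ 2 * R + 32 * R) + ν ^ 2 * R + |ν| / x * R + 1 / (4 * x ^ 2) * R := by linarith
    _ = _ := by ring

lemma ph_mid57 {ν x L u : ℝ} (hx : 0 < x) (hL : 1 ≤ L) (hu1 : 1 ≤ u) :
    |ph57 ν x L u| ≤ x * (2 * ν ^ 2 * (Real.log u / L) + 6 * |ν| * (Real.log u / L) ^ 2 + 4 * (Real.log u / L) ^ 3) := by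
  have hL0 : 0 < L := by linarith
  have hu : 0 < u := by linarith
  unfold ph57
  rw [expv57 hu]
  exact qv57 hx (div_nonneg (Real.log_nonneg hu1) hL0.le)

lemma ph_large57 {ν x L u b : ℝ} (hb : 0 < b) (hx : 0 < x) (hL : 1 ≤ L) (hu : Real.exp (b * L) < u) :
    |ph57 ν x L u| ≤ x * (12 * ν ^ 2 * (b + 1) + 216 * |ν| * (b + 1) ^ 2 + 864 * (b + 1) ^ 3) *
      (u / Real.exp (b * L)) ^ (1/2 : ℝ) := by
  have hL0 : 0 < L := by linarith
  have hU1 : 1 ≤ Real.exp (b * L) := Real.one_le_exp (by positivity)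
  have hu1 : 1 ≤ u := by linarith
  have hu0 : 0 < u := by linarith
  set U := Real.exp (b * L) with hU
  have hU0 : 0 < U := Real.exp_pos _
  set r := u / U with hr
  have hr1 : 1 ≤ r := by
    rw [hr, one_le_div hU0]; exact hu.le
  have hr0 : 0 < r := by linarith
  refine (ph_mid57 hx hL hu1).trans ?_
  set v := Real.log u / L with hv
  have hv0 : 0 ≤ v := div_nonneg (Real.log_nonneg hu1) hL0.le
  set q := r ^ (1/6 : ℝ) with hq
  have hq1 : 1 ≤ q := Real.one_le_rpow hr1 (by norm_num)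
  have hlogr : Real.log r ≤ 6 * (q - 1) := by
    have h1 : Real.log (r ^ (1/6 : ℝ)) ≤ r ^ (1/6 : ℝ) - 1 := Real.log_le_sub_one_of_pos (by positivity)
    rw [Real.log_rpow hr0] at h1
    linarith
  have hvle : v ≤ 6 * (b + 1) * q := by
    have h1 : Real.log u = Real.log r + b * L := by
      have : u = r * U := by rw [hr]; field_simp
      rw [this, Real.log_mul hr0.ne' hU0.ne', hU, Real.log_exp]
    have h2 : v = Real.log r / L + b := by
      rw [hv, h1]; field_simp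
    have h3 : Real.log r / L ≤ Real.log r := div_le_self (Real.log_nonneg hr1) hL
    nlinarith
  have hq3 : q ^ 3 = r ^ (1/2 : ℝ) := by
    rw [hq, ← Real.rpow_natCast, ← Real.rpow_mul hr0.le]
    norm_num
  rw [← hq3]
  have hq0 : 0 < q := by linarith
  have hb1 : 0 < b + 1 := by linarith
  have b1 : v ≤ 6 * (b + 1) * q ^ 3 := by
    refine hvle.trans (mul_le_mul_of_nonneg_left ?_ (by positivity))
    nlinarith [mul_nonneg (sub_nonneg.2 hq1) hq0.le, mul_nonneg (mul_nonneg (sub_nonneg.2 hq1) hq0.le) hq0.le]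
  have b2 : v ^ 2 ≤ 36 * (b + 1) ^ 2 * q ^ 3 := by
    have h := pow_le_pow_left₀ hv0 hvle 2
    refine h.trans ?_
    have h2 : q ^ 2 ≤ q ^ 3 := pow_le_pow_right₀ hq1 (by norm_num)
    calc (6 * (b + 1) * q) ^ 2 = 36 * (b + 1) ^ 2 * q ^ 2 := by ring
      _ ≤ _ := mul_le_mul_of_nonneg_left h2 (by positivity)
  have b3 : v ^ 3 ≤ 216 * (b + 1) ^ 3 * q ^ 3 := by
    have h := pow_le_pow_left₀ hv0 hvle 3
    refine h.trans (le_of_eq ?_)
    ring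
  have c1 : 2 * ν ^ 2 * v ≤ 2 * ν ^ 2 * (6 * (b + 1) * q ^ 3) := mul_le_mul_of_nonneg_left b1 (by positivity)
  have c2 : 6 * |ν| * v ^ 2 ≤ 6 * |ν| * (36 * (b + 1) ^ 2 * q ^ 3) := mul_le_mul_of_nonneg_left b2 (by positivity)
  calc x * (2 * ν ^ 2 * v + 6 * |ν| * v ^ 2 + 4 * v ^ 3) ≤
        x * (2 * ν ^ 2 * (6 * (b + 1) * q ^ 3) + 6 * |ν| * (36 * (b + 1) ^ 2 * q ^ 3) + 4 * (216 * (b + 1) ^ 3 * q ^ 3)) := by
          refine mul_le_mul_of_nonneg_left ?_ hx.le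
          linarith
    _ = _ := by ring

end Pool.Agent.Helper57.HL
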